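import Pool.Agent.EscM.MDefs

set_option autoImplicit false

/-!
Outer definitions of project EscMT: time-periodic families of Finsler metrics on a closed submanifold `M` of the
torus `𝕋ᵐ` (`EscM.Sub`), moving calibrated closed geodesics, Lagrangians near `κ(t) F(x, v, t)² / 2`.
-/

namespace EscMT

open Filter Topology Set EscF.T EscM
open scoped ContDiff

variable {m : ℕ}

/-- A weight: a positive Lipschitz function of period one. -/
structure IsWeight (κ : ℝ → ℝ) : Prop where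
  pos : ∀ t, 0 < κ t
  periodic : ∀ t, κ (t + 1) = κ t
  lip : ∃ A : ℝ, ∀ t t', |κ t - κ t'| ≤ A * |t - t'|

/-- A family of continuous Finsler metrics `F x v t` on `M`, of period one and Lipschitz in the time `t`. -/
structure IsFinslerT (M : Sub m) (F : Vec m → Vec m → ℝ → ℝ) : Prop where
  fins : ∀ t, IsFinsler M (fun x v => F x v t)
  periodic : ∀ x ∈ M.N, ∀ v, IsTangent M x v → ∀ t, F x v (t + 1) = F x v t
  lip : ∃ A : ℝ, ∀ x ∈ M.N, ∀ v, IsTangent M x v → ∀ t t', |F x v t - F x v t'| ≤ A * ‖v‖ * |t - t'|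

/-- For every time `t`, `σ ↦ c σ t` is a simple closed curve in `M`, of unit speed for the metric at time `t` and
of length `len`, in the class of the `i`-th basis vector of `ℤᵐ`. The differential of `B · t` descends to a
closed one-form on `M`, in a cohomology class which does not depend on `t`, which is bounded by the metric at
time `t`; the one-form and the metric agree along the curve, and, for nonzero vectors, at no other point of
`M`. -/
structure IsCalibratedT (M : Sub m) (F : Vec m → Vec m → ℝ → ℝ) (B : Vec m → ℝ → ℝ) (i : Fin m) (len : ℝ)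
    (c : ℝ → ℝ → Vec m) : Prop where
  smooth : ContDiffOn ℝ 1 (fun p : Vec m × ℝ => B (M.r p.1) p.2) {p | p.1 ∈ M.U}
  periodic : ∀ x ∈ M.N, ∀ t, B x (t + 1) = B x t
  periods : ∀ n : Fin m → ℤ, ∃ a : ℝ, ∀ x ∈ M.N, ∀ t, B (x + vz n) t = B x t + a
  lip : ∃ A : ℝ, ∀ x ∈ M.N, ∀ v, IsTangent M x v → ∀ t t',
    |fderiv ℝ (fun y => B (M.r y) t) x v - fderiv ℝ (fun y => B (M.r y) t') x v| ≤ A * ‖v‖ * |t - t'|
  le : ∀ x ∈ M.N, ∀ v, IsTangent M x v → ∀ t, fderiv ℝ (fun y => B (M.r y) t) x v ≤ F x v t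
  len_pos : 0 < len
  curve : ContDiff ℝ 1 (fun p : ℝ × ℝ => c p.1 p.2)
  mem : ∀ σ t, c σ t ∈ M.N
  closed : ∀ σ t, c (σ + len) t = c σ t + vz (Pi.single i 1)
  curve_per : ∀ σ t, c σ (t + 1) = c σ t
  unit : ∀ σ t, F (c σ t) (deriv (fun σ => c σ t) σ) t = 1
  cal : ∀ σ t, B (c σ t) t = B (c 0 t) t + σ
  only : ∀ x ∈ M.N, ∀ v, IsTangent M x v → ∀ t, v ≠ 0 →
    fderiv ℝ (fun y => B (M.r y) t) x v = F x v t → ∃ (σ : ℝ) (n : Fin m → ℤ), x = c σ t + vz n
  simple : ∀ (σ σ' t : ℝ) (n : Fin m → ℤ), c σ t = c σ' t + vz n → ∃ k : ℤ, σ - σ' = k * len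

/-- `L` is a Lagrangian on `TM × 𝕋` of class `C²`, uniformly convex in the velocity, and `L - κ F²/2` is
Lipschitz in the velocity, with Lipschitz constant `O(1 + |v|)` in position and time. -/
structure IsNearT (M : Sub m) (κ : ℝ → ℝ) (F : Vec m → Vec m → ℝ → ℝ) (L : Lag m) : Prop where
  smooth : ContDiffOn ℝ 2 (fun q : Vec m × Vec m × ℝ => L (M.r q.1, fderiv ℝ M.r q.1 q.2.1, q.2.2))
    {q | q.1 ∈ M.U}
  periodic : ∀ (n : Fin m → ℤ) (l : ℤ), ∀ x ∈ M.N, ∀ v t, IsTangent M x v →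
    L (x + vz n, v, t + l) = L (x, v, t)
  convex : ∃ c : ℝ, 0 < c ∧ ∀ x ∈ M.N, ∀ v w t, IsTangent M x v → IsTangent M x w →
    c * ‖w‖ ^ 2 ≤ iteratedFDeriv ℝ 2 (fun u => L (x, fderiv ℝ M.r x u, t)) v ![w, w]
  near : ∃ C : ℝ, ∀ x ∈ M.N, ∀ v t, IsTangent M x v → ∀ x' ∈ M.N, ∀ v' t', IsTangent M x' v' →
    |(L (x, v, t) - κ t * F x v t ^ 2 / 2) - (L (x', v', t') - κ t' * F x' v' t' ^ 2 / 2)| ≤
      C * (‖v - v'‖ + (1 + ‖v‖) * (‖x - x'‖ + |t - t'|))

end EscMT
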