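import Pool.Agent.EscMT.P2
import Pool.Agent.EscM.A6
import Pool.Agent.EscG.C1

set_option autoImplicit false

/-!
Project EscMT, module P1: the data at fixed time, rescaled by `√κ(t)`.
At fixed time `t` the data `√κ F`, `√κ B`, `√κ ℓ`, the curve `τ ↦ c (τ / √κ) t` of length `√κ len` satisfy the hypotheses `EscM.Ext`; `Bt` of `√κ B` is `√κ` times `Bs`. `fd_smul`: `fd` is a square root of twice an infimum of
energies. `j_fr`: `GD.j` depends only on `F`, `B`, `b`; `fd` and `B` are multiplied by `√κ`.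
-/

noncomputable section

namespace EscMT

open MeasureTheory Set Filter Topology Esc EscF EscG EscM
open scoped ContDiff

variable {ι : Type} [Fintype ι] {E : Type*} [NormedAddCommGroup E] [InnerProductSpace ℝ E]
  [FiniteDimensional ℝ E] {β : Module.Basis ι ℝ E} {N : Set E} {r : E → E} {R : ℝ}
variable {F : E → E → ℝ → ℝ} {mF MF A : ℝ} {κ : ℝ → ℝ} {B : E → ℝ → ℝ} {k0 : ι} {len : ℝ}
  {c c' ct : ℝ → ℝ → E} {ℓ : E →L[ℝ] ℝ} {ρ C Λ mF' MF' : ℝ}

theorem P1_sqrt_pos (h : ExtP β N r R F mF MF A κ B k0 len c c' ct ℓ ρ C Λ) (t : ℝ) : 0 < √(κ t) :=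
  Real.sqrt_pos.2 (κ_pos' h.fp t)

theorem P1_infDist (h : ExtP β N r R F mF MF A κ B k0 len c c' ct ℓ ρ C Λ) {x : E} (hx : x ∈ N) :
    Metric.infDist x N < R := by
  rw [Metric.infDist_zero_of_mem hx]
  exact h.tb.R_pos

theorem P1_tan (h : ExtP β N r R F mF MF A κ B k0 len c c' ct ℓ ρ C Λ) (σ t : ℝ) :
    (c σ t, c' σ t) ∈ TN N r := by
  refine ⟨h.cp.mem σ t, ?_⟩
  have h1 : HasDerivAt (fun s => r (c s t)) (fderiv ℝ r (c σ t) (c' σ t)) σ :=
    (h.tb.diff (P1_infDist h (h.cp.mem σ t))).hasFDerivAt.comp_hasDerivAt σ (h.cp.c_σ σ t)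
  have h2 : (fun s => r (c s t)) = fun s => c s t := by
    funext s
    exact h.tb.r_eq (h.cp.mem s t)
  rw [h2] at h1
  exact h1.unique (h.cp.c_σ σ t)

theorem P1_smooth (h : ExtP β N r R F mF MF A κ B k0 len c c' ct ℓ ρ C Λ) (t : ℝ) :
    ContDiffOn ℝ 1 (fun x => B (r x) t) {x | Metric.infDist x N < R} := by
  have h1 : ContDiffOn ℝ 1 (fun x : E => ((x, t) : E × ℝ)) {x | Metric.infDist x N < R} :=
    (contDiff_id.prodMk contDiff_const).contDiffOn
  exact h.cp.smooth.comp h1 fun x hx => hx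

theorem P1_diff (h : ExtP β N r R F mF MF A κ B k0 len c c' ct ℓ ρ C Λ) (t : ℝ) {x : E} (hx : x ∈ N) :
    DifferentiableAt ℝ (fun y => B (r y) t) x :=
  ((P1_smooth h t).differentiableOn (by norm_num)).differentiableAt
    (h.tb.isOpen_tube.mem_nhds (P1_infDist h hx))

theorem P1_fd (h : ExtP β N r R F mF MF A κ B k0 len c c' ct ℓ ρ C Λ) (t : ℝ) {x : E} (hx : x ∈ N)
    (v : E) : fderiv ℝ (fun y => √(κ t) * B (r y) t) x v = √(κ t) * fderiv ℝ (fun y => B (r y) t) x v := by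
  rw [fderiv_const_mul (P1_diff h t hx)]
  simp

theorem P1_calN (h : ExtP β N r R F mF MF A κ B k0 len c c' ct ℓ ρ C Λ) (t : ℝ) :
    CalN β N r R (sF κ F t) (fun x => √(κ t) * B x t) k0 (√(κ t) * len)
      (fun τ => c (τ / √(κ t)) t) (fun τ => (√(κ t))⁻¹ • c' (τ / √(κ t)) t) := by
  have ha := P1_sqrt_pos h t
  have hR := h.tb.R_pos
  refine
    { smooth := contDiffOn_const.mul (P1_smooth h t)
      per := fun i => ⟨√(κ t) * ℓ (β i), fun x hx => by rw [h.ell i x hx t]; ring⟩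
      le := ?_
      len_pos := mul_pos ha h.cp.len_pos
      mem := fun τ => h.cp.mem _ t
      hasDeriv := ?_
      contDeriv := ?_
      closed := ?_
      unit := ?_
      cal := ?_
      only := ?_
      simple := ?_ }
  · intro x v hv
    rw [P1_fd h t hv.1 v]
    exact mul_le_mul_of_nonneg_left (h.cp.le x v t hv) ha.le
  · intro τ
    have h1 : HasDerivAt (fun τ : ℝ => τ / √(κ t)) (√(κ t))⁻¹ τ := by
      simpa [one_div] using (hasDerivAt_id τ).div_const (√(κ t))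
    exact (h.cp.c_σ (τ / √(κ t)) t).scomp τ h1
  · have h1 : Continuous (fun τ : ℝ => ((τ / √(κ t), t) : ℝ × ℝ)) := by fun_prop
    exact (h.cp.c'_cont.comp h1).const_smul _
  · intro τ
    have h1 : (τ + √(κ t) * len) / √(κ t) = τ / √(κ t) + len := by field_simp
    show c ((τ + √(κ t) * len) / √(κ t)) t = _
    rw [h1]
    exact h.cp.closed _ t
  · intro τ
    show √(κ t) * F (c (τ / √(κ t)) t) ((√(κ t))⁻¹ • c' (τ / √(κ t)) t) t = 1
    rw [(h.fp.fn t).hom _ _ _ (P1_tan h _ t) (inv_nonneg.2 ha.le), h.cp.unit]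
    field_simp
  · intro τ
    show fderiv ℝ (fun y => √(κ t) * B (r y) t) (c (τ / √(κ t)) t) ((√(κ t))⁻¹ • c' (τ / √(κ t)) t) = 1
    rw [P1_fd h t (h.cp.mem _ t), map_smul, h.cp.cal, smul_eq_mul]
    field_simp
  · intro x v hv hv0 heq
    have h1 : √(κ t) * fderiv ℝ (fun y => B (r y) t) x v = √(κ t) * F x v t := by
      rw [← P1_fd h t hv.1 v]
      exact heq
    obtain ⟨σ, w, hw, hx⟩ := h.cp.only x v t hv hv0 (mul_left_cancel₀ ha.ne' h1)
    refine ⟨√(κ t) * σ, w, hw, ?_⟩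
    show x = c (√(κ t) * σ / √(κ t)) t + w
    rw [mul_div_cancel_left₀ σ ha.ne']
    exact hx
  · intro s s' hs
    obtain ⟨k, hk⟩ := h.cp.simple _ _ t hs
    refine ⟨k, ?_⟩
    have h1 : s - s' = √(κ t) * (s / √(κ t) - s' / √(κ t)) := by field_simp
    rw [h1, hk]
    ring

theorem P1_Bt (N : Set E) (r : E → E) (ρ : ℝ) (B : E → ℝ → ℝ) (ℓ : E →L[ℝ] ℝ) (a t : ℝ) (x : E) :
    Bt N r ρ (fun x => a * B x t) (a • ℓ) x = a * Bs N r ρ B ℓ x t := by
  simp only [Bs, Bt, Pi.smul_apply, smul_eq_mul]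
  ring

theorem P1_Bt' (N : Set E) (r : E → E) (ρ : ℝ) (B : E → ℝ → ℝ) (ℓ : E →L[ℝ] ℝ) (a t : ℝ) :
    Bt N r ρ (fun x => a * B x t) (a • ℓ : E →L[ℝ] ℝ) = fun x => a * Bs N r ρ B ℓ x t := by
  funext x
  simp only [Bs, Bt, smul_apply, smul_eq_mul]
  ring

theorem P1_fderiv {a : ℝ} (ha : a ≠ 0) (f : E → ℝ) (x : E) :
    fderiv ℝ (fun y => a * f y) x = a • fderiv ℝ f x := by
  by_cases hf : DifferentiableAt ℝ f x
  · rw [fderiv_const_mul hf]
  · have h1 : ¬ DifferentiableAt ℝ (fun y => a * f y) x := by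
      intro h2
      apply hf
      have h3 := h2.const_mul a⁻¹
      have h4 : (fun y => a⁻¹ * (a * f y)) = f := by
        funext y
        field_simp
      rwa [h4] at h3
    rw [fderiv_zero_of_not_differentiableAt hf, fderiv_zero_of_not_differentiableAt h1, smul_zero]

theorem ExtP.fr (h : ExtP β N r R F mF MF A κ B k0 len c c' ct ℓ ρ C Λ) (t : ℝ) :
    Ext β N r R (sF κ F t) (√(κ t) * mF) (√(κ t) * MF) (fun x => √(κ t) * B x t) k0 (√(κ t) * len)
      (fun τ => c (τ / √(κ t)) t) (fun τ => (√(κ t))⁻¹ • c' (τ / √(κ t)) t) (√(κ t) • ℓ) ρ C Λ := by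
  have ha := P1_sqrt_pos h t
  refine
    { tb := h.tb
      fn := sF_finsN h.fp t
      cl := P1_calN h t
      ρ_pos := h.ρ_pos
      ρ_lt := h.ρ_lt
      ell := ?_
      C_ge := h.C_ge
      gt := fun x v hx => h.gt x v t hx
      bt := ?_
      Λ_gt := h.Λ_gt }
  · intro i x hx
    show √(κ t) * B (x + β i) t = √(κ t) * B x t + (√(κ t) • ℓ) (β i)
    rw [h.ell i x hx t, smul_apply, smul_eq_mul]
    ring
  · intro x v
    rw [P1_Bt']
    have h1 : fderiv ℝ (fun x => √(κ t) * Bs N r ρ B ℓ x t) x =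
        √(κ t) • fderiv ℝ (fun x => Bs N r ρ B ℓ x t) x :=
      P1_fderiv ha.ne' _ x
    rw [h1, smul_apply, smul_eq_mul, abs_mul, abs_of_pos ha]
    exact h.bt x v t

open scoped Pointwise in
theorem P1_kerl (a : ℝ) (G : E → E → ℝ) (x x' : E) :
    kerl (fun y v (_ : ℝ) => (a * G y v) ^ 2 / 2) 0 1 x x' =
      a ^ 2 * kerl (fun y v (_ : ℝ) => G y v ^ 2 / 2) 0 1 x x' := by
  have h2 : {q | ∃ u : ℝ → E, Adm u ∧ traj 0 x u 1 = x' ∧
      q = actl (fun y v (_ : ℝ) => (a * G y v) ^ 2 / 2) 0 1 x u} =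
      (a ^ 2) • {q | ∃ u : ℝ → E, Adm u ∧ traj 0 x u 1 = x' ∧
        q = actl (fun y v (_ : ℝ) => G y v ^ 2 / 2) 0 1 x u} := by
    have h3 : ∀ u : ℝ → E, actl (fun y v (_ : ℝ) => (a * G y v) ^ 2 / 2) 0 1 x u =
        a ^ 2 * actl (fun y v (_ : ℝ) => G y v ^ 2 / 2) 0 1 x u := by
      intro u
      unfold actl
      rw [← intervalIntegral.integral_const_mul]
      refine intervalIntegral.integral_congr fun s _ => ?_
      show (a * G (traj 0 x u s) (u s)) ^ 2 / 2 = a ^ 2 * (G (traj 0 x u s) (u s) ^ 2 / 2)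
      ring
    ext q
    rw [Set.mem_smul_set]
    constructor
    · rintro ⟨u, hu, hz, rfl⟩
      exact ⟨_, ⟨u, hu, hz, rfl⟩, by rw [smul_eq_mul, h3]⟩
    · rintro ⟨_, ⟨u, hu, hz, rfl⟩, rfl⟩
      exact ⟨u, hu, hz, by rw [smul_eq_mul, h3]⟩
  unfold kerl
  rw [h2, Real.sInf_smul_of_nonneg (sq_nonneg a), smul_eq_mul]

theorem fd_smul {a : ℝ} (ha : 0 ≤ a) (G : E → E → ℝ) (x x' : E) :
    fd (fun y v => a * G y v) x x' = a * fd G x x' := by
  have h1 := P1_kerl a G x x'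
  unfold fd
  rw [h1]
  have h4 : 2 * (a ^ 2 * kerl (fun y v (_ : ℝ) => G y v ^ 2 / 2) 0 1 x x') =
      a ^ 2 * (2 * kerl (fun y v (_ : ℝ) => G y v ^ 2 / 2) 0 1 x x') := by ring
  rw [h4, Real.sqrt_mul (sq_nonneg a), Real.sqrt_sq ha]

theorem fins_fr (h : ExtP β N r R F mF MF A κ B k0 len c c' ct ℓ ρ C Λ)
    (hf : ∀ t, Fins β (fun x v => Fs N r ρ Λ κ F x v t) mF' MF') (t : ℝ) :
    Fins β (Ft N r ρ Λ (sF κ F t)) (√(κ t) * mF') (√(κ t) * MF') := by
  have ha := P1_sqrt_pos h t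
  have he : Ft N r ρ Λ (sF κ F t) = fun x v => √(κ t) * Fs N r ρ Λ κ F x v t := by
    funext x v
    exact (Fs_eq h.fp ρ Λ x v t).symm
  rw [he]
  have hf' := hf t
  refine
    { mF_pos := mul_pos ha hf'.mF_pos
      mF_le := mul_le_mul_of_nonneg_left hf'.mF_le ha.le
      cont := continuous_const.mul hf'.cont
      per := fun i x v => by rw [hf'.per i x v]
      hom := ?_
      low := ?_
      upp := ?_ }
  · intro x v q hq
    rw [hf'.hom x v q hq]
    ring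
  · intro x v
    rw [mul_assoc]
    exact mul_le_mul_of_nonneg_left (hf'.low x v) ha.le
  · intro x v
    rw [mul_assoc]
    exact mul_le_mul_of_nonneg_left (hf'.upp x v) ha.le

theorem j_fr (h : ExtP β N r R F mF MF A κ B k0 len c c' ct ℓ ρ C Λ) (A' : ℝ) (g : E) (t : ℝ)
    (x y : E) :
    (gdC β (Ft N r ρ Λ (sF κ F t)) (√(κ t) * mF') (√(κ t) * MF')
      (Bt N r ρ (fun x => √(κ t) * B x t) (√(κ t) • ℓ)) k0 (√(κ t) * len)
      (fun τ => c (τ / √(κ t)) t) g).j x y =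
    √(κ t) * (EscT.gdT β (Fs N r ρ Λ κ F) mF' MF' A' κ (Bs N r ρ B ℓ) k0 len c g).j t x y := by
  have ha := P1_sqrt_pos h t
  have he : Ft N r ρ Λ (sF κ F t) = fun x v => √(κ t) * Fs N r ρ Λ κ F x v t := by
    funext x v
    exact (Fs_eq h.fp ρ Λ x v t).symm
  unfold EscT.GT.j GD.j
  rw [Real.mul_iInf_of_nonneg ha.le]
  refine iInf_congr fun n => ?_
  show fd (Ft N r ρ Λ (sF κ F t)) x (y + lv (fun _ => β k0) n) -
      (Bt N r ρ (fun x => √(κ t) * B x t) (√(κ t) • ℓ) (y + lv (fun _ => β k0) n) -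
        Bt N r ρ (fun x => √(κ t) * B x t) (√(κ t) • ℓ) x) =
    √(κ t) * (fd (fun x v => Fs N r ρ Λ κ F x v t) x (y + lv (fun _ => β k0) n) -
      (Bs N r ρ B ℓ (y + lv (fun _ => β k0) n) t - Bs N r ρ B ℓ x t))
  rw [he, fd_smul ha.le (fun x v => Fs N r ρ Λ κ F x v t), P1_Bt, P1_Bt]
  ring

end EscMT
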