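import Pool.Agent.EscMT.P4a
import Pool.Agent.EscM.A10
import Pool.Agent.EscM.A12a
import Pool.Agent.EscM.A12b
import Pool.Agent.EscM.A12c

set_option autoImplicit false

/-!
Project EscMT, module P10: orbits which start on `N` stay on `N` and are extremals.
Copies of `EscM/A10.lean` (`P_eq`, `Px`), `EscM/A11.lean`, `EscM/A12c.lean` with the hypothesis `LagS β N r R m L` instead of `LagN` (only `smooth`, `per`, `pert`, `conv` are used); `EscM.Tb.Px_nonneg`, `EscM.Tb.Lt_tan`,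
`EscM.contDiffOn_two`, `EscM.stationary` can be used directly.
-/

noncomputable section

namespace EscMT

open MeasureTheory Set Filter Topology Esc EscF EscG EscM
open scoped ContDiff

variable {ι : Type} [Fintype ι] {E : Type*} [NormedAddCommGroup E] [InnerProductSpace ℝ E]
  [FiniteDimensional ℝ E] {β : Module.Basis ι ℝ E} {N : Set E} {r : E → E} {R : ℝ}
variable {m : ℝ} {L : E → E → ℝ → ℝ} {ρ : ℝ}

theorem P10_dF (h : Tb β N r R) (hL : LagS β N r R m L) (hρ : 0 < ρ) (hR : 2 * ρ < R) (Λ : ℝ)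
    (p : E × E × ℝ) :
    DifferentiableAt ℝ (fun p : E × E × ℝ => Lt N r ρ Λ L p.1 p.2.1 p.2.2) p :=
  ((Lt_smooth h hL hρ hR Λ).differentiable (by norm_num)).differentiableAt

theorem P10_gu (h : Tb β N r R) (hL : LagS β N r R m L) (hρ : 0 < ρ) (hR : 2 * ρ < R) (Λ : ℝ)
    (x v w : E) (t : ℝ) :
    inner ℝ (gu (Lt N r ρ Λ L) x v t) w =
      fderiv ℝ (fun p : E × E × ℝ => Lt N r ρ Λ L p.1 p.2.1 p.2.2) (x, v, t) (0, w, 0) := by
  unfold gu gradient
  rw [InnerProductSpace.toDual_symm_apply]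
  have h1 : HasFDerivAt (fun u : E => ((x, u, t) : E × E × ℝ))
      ((0 : E →L[ℝ] E).prod ((ContinuousLinearMap.id ℝ E).prod (0 : E →L[ℝ] ℝ))) v :=
    (hasFDerivAt_const x v).prodMk ((hasFDerivAt_id v).prodMk (hasFDerivAt_const t v))
  have h2 := (P10_dF h hL hρ hR Λ (x, v, t)).hasFDerivAt.comp v h1
  have h3 : HasFDerivAt (fun u : E => Lt N r ρ Λ L x u t) _ v := h2
  rw [h3.fderiv]
  rfl

theorem P10_gx (h : Tb β N r R) (hL : LagS β N r R m L) (hρ : 0 < ρ) (hR : 2 * ρ < R) (Λ : ℝ)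
    (x v w : E) (t : ℝ) :
    inner ℝ (gx (Lt N r ρ Λ L) x v t) w =
      fderiv ℝ (fun p : E × E × ℝ => Lt N r ρ Λ L p.1 p.2.1 p.2.2) (x, v, t) (w, 0, 0) := by
  unfold gx gradient
  rw [InnerProductSpace.toDual_symm_apply]
  have h1 : HasFDerivAt (fun u : E => ((u, v, t) : E × E × ℝ))
      ((ContinuousLinearMap.id ℝ E).prod ((0 : E →L[ℝ] E).prod (0 : E →L[ℝ] ℝ))) x :=
    (hasFDerivAt_id x).prodMk ((hasFDerivAt_const v x).prodMk (hasFDerivAt_const t x))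
  have h2 := (P10_dF h hL hρ hR Λ (x, v, t)).hasFDerivAt.comp x h1
  have h3 : HasFDerivAt (fun u : E => Lt N r ρ Λ L u v t) _ x := h2
  rw [h3.fderiv]
  rfl

theorem P_eq (h : Tb β N r R) (hL : LagS β N r R m L) (hρ : 0 < ρ) (hR : 2 * ρ < R) (Λ : ℝ)
    {x : E} (hx : Metric.infDist x N < ρ) (v : E) (t : ℝ) :
    inner ℝ (gu (Lt N r ρ Λ L) x v t) (x - r x) =
      inner ℝ (x - r x) v * (1 + kap ρ * ‖x - r x‖ ^ 2) := by
  have hxR : Metric.infDist x N < R := by linarith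
  rw [P10_gu h hL hρ hR]
  have h0 := Lg_v h hL ρ hxR v (x - r x) t
  have h1 : HasDerivAt (fun s : ℝ => ((x, v + s • (x - r x), t) : E × E × ℝ))
      ((0 : E), x - r x, (0 : ℝ)) 0 := by
    have e1 : HasDerivAt (fun s : ℝ => v + s • (x - r x)) (x - r x) 0 := by
      simpa using ((hasDerivAt_id (0:ℝ)).smul_const (x - r x)).const_add v
    exact (hasDerivAt_const (0:ℝ) x).prodMk (e1.prodMk (hasDerivAt_const (0:ℝ) t))
  have h2 := (P10_dF h hL hρ hR Λ (x, v + (0:ℝ) • (x - r x), t)).hasFDerivAt.comp_hasDerivAt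
    (0:ℝ) h1
  have h3 : HasDerivAt (fun s : ℝ => Lg r ρ L x (v + s • (x - r x)) t)
      (fderiv ℝ (fun p : E × E × ℝ => Lt N r ρ Λ L p.1 p.2.1 p.2.2) (x, v + (0:ℝ) • (x - r x), t)
        ((0 : E), x - r x, (0 : ℝ))) 0 := by
    refine h2.congr_of_eventuallyEq (Eventually.of_forall fun s => ?_)
    exact (A10_Lt h L hρ hR Λ hx _ t).symm
  have h4 := h3.unique h0
  rw [zero_smul, add_zero] at h4
  rw [h4, h.ker hxR, map_zero, sub_zero, zero_add, inner_sub_left]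
  have h5 : inner ℝ (fderiv ℝ r x v) (x - r x) = 0 := by
    rw [real_inner_comm]
    exact h.orth hxR v
  rw [h5, real_inner_comm (x - r x) v]
  ring

theorem Px (h : Tb β N r R) (hL : LagS β N r R m L) (hρ : 0 < ρ) (hR : 2 * ρ < R) (Λ : ℝ)
    {x : E} (hx : Metric.infDist x N < ρ) (v : E) (t : ℝ) :
    inner ℝ (gx (Lt N r ρ Λ L) x v t) (x - r x) +
        inner ℝ (gu (Lt N r ρ Λ L) x v t) (v - fderiv ℝ r x v) =
      ‖v - fderiv ℝ r x v‖ ^ 2 + kap ρ * ‖x - r x‖ ^ 2 * ‖v‖ ^ 2 +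
        kap ρ * ‖x - r x‖ ^ 2 * inner ℝ v (v - fderiv ℝ r x v) := by
  have hxR : Metric.infDist x N < R := by linarith
  rw [P10_gu h hL hρ hR, P10_gx h hL hρ hR, ← map_add]
  have hsum : ((x - r x, 0, 0) : E × E × ℝ) + (0, v - fderiv ℝ r x v, 0) =
      (x - r x, v - fderiv ℝ r x v, 0) := by
    simp
  rw [hsum]
  set ν : E := x - r x with hν
  set w : E := v - fderiv ℝ r x v with hw
  have e1 : HasDerivAt (fun s : ℝ => r x + s • ν) ν 1 := by
    simpa using ((hasDerivAt_id (1:ℝ)).smul_const ν).const_add (r x)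
  have e2 : HasDerivAt (fun s : ℝ => fderiv ℝ r x v + s • w) w 1 := by
    simpa using ((hasDerivAt_id (1:ℝ)).smul_const w).const_add (fderiv ℝ r x v)
  have hp : (r x + (1:ℝ) • ν, fderiv ℝ r x v + (1:ℝ) • w, t) = ((x, v, t) : E × E × ℝ) := by
    rw [one_smul, one_smul, hν, hw]
    simp
  have h1 : HasDerivAt (fun s : ℝ => ((r x + s • ν, fderiv ℝ r x v + s • w, t) : E × E × ℝ))
      (ν, w, (0 : ℝ)) 1 :=
    e1.prodMk (e2.prodMk (hasDerivAt_const (1:ℝ) t))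
  have h2 := (P10_dF h hL hρ hR Λ
    (r x + (1:ℝ) • ν, fderiv ℝ r x v + (1:ℝ) • w, t)).hasFDerivAt.comp_hasDerivAt (1:ℝ) h1
  rw [hp] at h2
  have h3 : HasDerivAt (fun s : ℝ => Lt N r ρ Λ L (r x + s • ν) (fderiv ℝ r x v + s • w) t)
      (fderiv ℝ (fun p : E × E × ℝ => Lt N r ρ Λ L p.1 p.2.1 p.2.2) (x, v, t) (ν, w, 0)) 1 := h2
  -- the explicit form on `[0,1]`
  have h4 : ∀ s ∈ Icc (0:ℝ) 1, Lt N r ρ Λ L (r x + s • ν) (fderiv ℝ r x v + s • w) t =
      L (r x) (fderiv ℝ r x v) t + s ^ 2 * ‖w‖ ^ 2 / 2 +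
        kap ρ * (s ^ 2 * ‖ν‖ ^ 2) * ‖fderiv ℝ r x v + s • w‖ ^ 2 / 2 := by
    intro s hs
    obtain ⟨i1, i2⟩ := h.ray hxR hs
    have i3 : Metric.infDist (r x + s • ν) N < ρ := by
      rw [i2]
      have j1 : s * Metric.infDist x N ≤ 1 * Metric.infDist x N :=
        mul_le_mul_of_nonneg_right hs.2 Metric.infDist_nonneg
      linarith
    rw [A10_Lt h L hρ hR Λ i3]
    unfold Lg
    rw [i1, h.ray_fd hxR hs v]
    have i4 : ‖fderiv ℝ r x v + s • w - fderiv ℝ r x v‖ ^ 2 = s ^ 2 * ‖w‖ ^ 2 := by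
      rw [add_sub_cancel_left, norm_smul, mul_pow, Real.norm_eq_abs, sq_abs]
    have i5 : ‖r x + s • ν - r x‖ ^ 2 = s ^ 2 * ‖ν‖ ^ 2 := by
      rw [add_sub_cancel_left, norm_smul, mul_pow, Real.norm_eq_abs, sq_abs]
    rw [i4, i5]
  have e3 : HasDerivAt (fun s : ℝ => ‖fderiv ℝ r x v + s • w‖ ^ 2) (2 * inner ℝ v w) 1 := by
    have j := e2.norm_sq
    have j2 : fderiv ℝ r x v + (1:ℝ) • w = v := by
      rw [one_smul, hw]
      simp
    rw [j2] at j
    exact j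
  have h5 : HasDerivAt (fun s : ℝ => L (r x) (fderiv ℝ r x v) t + s ^ 2 * ‖w‖ ^ 2 / 2 +
        kap ρ * (s ^ 2 * ‖ν‖ ^ 2) * ‖fderiv ℝ r x v + s • w‖ ^ 2 / 2)
      (‖w‖ ^ 2 + kap ρ * ‖ν‖ ^ 2 * ‖v‖ ^ 2 + kap ρ * ‖ν‖ ^ 2 * inner ℝ v w) 1 := by
    have a1 : HasDerivAt (fun s : ℝ => s ^ 2) (2 * 1) 1 := by
      simpa using hasDerivAt_pow 2 (1:ℝ)
    have a2 := ((a1.mul_const (‖w‖ ^ 2)).div_const 2).const_add (L (r x) (fderiv ℝ r x v) t)
    have a3 := (((a1.mul_const (‖ν‖ ^ 2)).const_mul (kap ρ)).mul e3).div_const 2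
    have a4 := a2.add a3
    have j2 : fderiv ℝ r x v + (1:ℝ) • w = v := by
      rw [one_smul, hw]
      simp
    refine HasDerivAt.congr_deriv (f' := (2 * 1 * ‖w‖ ^ 2 / 2 +
      (kap ρ * (2 * 1 * ‖ν‖ ^ 2) * ‖fderiv ℝ r x v + (1:ℝ) • w‖ ^ 2 +
        kap ρ * (1 ^ 2 * ‖ν‖ ^ 2) * (2 * inner ℝ v w)) / 2)) a4 ?_
    rw [j2]
    ring
  have h6 : HasDerivWithinAt (fun s : ℝ => L (r x) (fderiv ℝ r x v) t + s ^ 2 * ‖w‖ ^ 2 / 2 +
        kap ρ * (s ^ 2 * ‖ν‖ ^ 2) * ‖fderiv ℝ r x v + s • w‖ ^ 2 / 2)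
      (fderiv ℝ (fun p : E × E × ℝ => Lt N r ρ Λ L p.1 p.2.1 p.2.2) (x, v, t) (ν, w, 0))
      (Icc 0 1) 1 := by
    refine h3.hasDerivWithinAt.congr (fun s hs => (h4 s hs).symm) ?_
    exact (h4 1 (by simp)).symm
  have hu : UniqueDiffWithinAt ℝ (Icc (0:ℝ) 1) 1 :=
    uniqueDiffOn_Icc (by norm_num) 1 (by simp)
  exact hu.eq_deriv _ h6 h5.hasDerivWithinAt

theorem P10_inner_gradient (g : E → ℝ) (x w : E) :
    inner ℝ (gradient g x) w = fderiv ℝ g x w := by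
  unfold gradient
  exact InnerProductSpace.toDual_symm_apply

/-- a function `W` which is continuous on `[t0,∞)`, has the derivative `2 P` with `P` nondecreasing, is
nonnegative and bounded and vanishes at `t0`, is zero -/
theorem P10_ode {t0 C : ℝ} {W P P' : ℝ → ℝ} (hWc : ContinuousOn W (Ici t0))
    (hW : ∀ t, t0 < t → HasDerivAt W (2 * P t) t) (hP : ∀ t, t0 < t → HasDerivAt P (P' t) t)
    (hP' : ∀ t, t0 < t → 0 ≤ P' t) (h0 : W t0 = 0) (hn : ∀ t, t0 ≤ t → 0 ≤ W t)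
    (hC : ∀ t, t0 ≤ t → W t ≤ C) (t : ℝ) (ht : t0 ≤ t) : W t = 0 := by
  have hPm : MonotoneOn P (Ioi t0) := by
    refine monotoneOn_of_deriv_nonneg (convex_Ioi t0)
      (fun s hs => (hP s hs).continuousAt.continuousWithinAt) ?_ ?_
    · rw [interior_Ioi]
      exact fun s hs => (hP s hs).differentiableAt.differentiableWithinAt
    · rw [interior_Ioi]
      intro s hs
      rw [(hP s hs).deriv]
      exact hP' s hs
  have hPn : ∀ s, t0 < s → P s ≤ 0 := by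
    intro s hs
    by_contra hcon
    push Not at hcon
    have hlow : ∀ u, s ≤ u → W s + 2 * P s * (u - s) ≤ W u := by
      intro u hu
      have hm : MonotoneOn (fun τ => W τ - 2 * P s * (τ - s)) (Icc s u) := by
        have hd : ∀ τ, t0 < τ → HasDerivAt (fun τ => W τ - 2 * P s * (τ - s))
            (2 * P τ - 2 * P s * 1) τ := fun τ hτ =>
          (hW τ hτ).sub (((hasDerivAt_id τ).sub_const s).const_mul (2 * P s))
        refine monotoneOn_of_deriv_nonneg (convex_Icc s u)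
          (fun τ hτ => (hd τ (hs.trans_le hτ.1)).continuousAt.continuousWithinAt) ?_ ?_
        · rw [interior_Icc]
          exact fun τ hτ => (hd τ (hs.trans hτ.1)).differentiableAt.differentiableWithinAt
        · rw [interior_Icc]
          intro τ hτ
          rw [(hd τ (hs.trans hτ.1)).deriv]
          have := hPm hs (hs.trans hτ.1 : t0 < τ) hτ.1.le
          linarith
      have h1 := hm (left_mem_Icc.2 hu) (right_mem_Icc.2 hu) hu
      simp only [sub_self, mul_zero, sub_zero] at h1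
      linarith
    have h2 := hlow (s + (C + 1) / (2 * P s)) (by
      have : 0 ≤ C := (hn s hs.le).trans (hC s hs.le)
      have h3 : 0 ≤ (C + 1) / (2 * P s) := by positivity
      linarith)
    have h4 : 2 * P s * (s + (C + 1) / (2 * P s) - s) = C + 1 := by
      field_simp
      ring
    rw [h4] at h2
    have h5 := hC (s + (C + 1) / (2 * P s)) (by
      have : 0 ≤ C := (hn s hs.le).trans (hC s hs.le)
      have h3 : 0 ≤ (C + 1) / (2 * P s) := by positivity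
      linarith)
    have h6 := hn s hs.le
    linarith
  have hWa : AntitoneOn W (Ici t0) := by
    refine antitoneOn_of_deriv_nonpos (convex_Ici t0) hWc ?_ ?_
    · rw [interior_Ici]
      exact fun s hs => (hW s hs).differentiableAt.differentiableWithinAt
    · rw [interior_Ici]
      intro s hs
      rw [(hW s hs).deriv]
      have := hPn s hs
      linarith
  have h1 := hWa (mem_Ici.2 le_rfl) (mem_Ici.2 ht) ht
  rw [h0] at h1
  exact le_antisymm h1 (hn t ht)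

theorem stays (h : Tb β N r R) (hL : LagS β N r R m L) (hρ : 0 < ρ) (hR : 2 * ρ < R) (Λ : ℝ)
    {f : E → ℝ → ℝ} (hf : Pt β f)
    (hv : ∀ x, Metric.infDist x N < ρ → ∀ t, 0 ≤ fderiv ℝ (fun y => f y t) x (x - r x)) {x0 : E}
    (hx0 : x0 ∈ N) (he : EscK.EscapesFrom (Lt N r ρ Λ L) f x0 {x | Metric.infDist x N < ρ}) :
    EscK.EscapesFrom (Lt N r ρ Λ L) f x0 N := by
  obtain ⟨t0, x, v, ht0, hxt0, hxc, hxd, hvc, hel, hmem, hlim⟩ := he
  refine ⟨t0, x, v, ht0, hxt0, hxc, hxd, hvc, hel, ?_, hlim⟩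
  have hρR : ρ < R := by linarith
  have hxR : ∀ t, t0 ≤ t → Metric.infDist (x t) N < R := fun t ht => (hmem t ht).trans hρR
  -- the normal component
  set ν : ℝ → E := fun t => x t - r (x t) with hνdef
  have hrc : ContinuousOn (fun t => r (x t)) (Ici t0) :=
    h.smooth.continuousOn.comp hxc (fun t ht => hxR t ht)
  have hνc : ContinuousOn ν (Ici t0) := hxc.sub hrc
  have hνd : ∀ t, t0 < t → HasDerivAt ν (v t - fderiv ℝ r (x t) (v t)) t := by
    intro t ht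
    have h1 := (h.diff (hxR t ht.le)).hasFDerivAt.comp_hasDerivAt t (hxd t ht)
    exact (hxd t ht).sub h1
  have hνn : ∀ t, t0 ≤ t → ‖ν t‖ < ρ := by
    intro t ht
    have h1 := h.dist_eq (hxR t ht)
    have h2 : Metric.infDist (x t) N < ρ := hmem t ht
    rw [h1] at h2
    exact h2
  have hin : ∀ t, t0 ≤ t → inner ℝ (ν t) (v t - fderiv ℝ r (x t) (v t)) = inner ℝ (ν t) (v t) := by
    intro t ht
    have h1 := h.orth (hxR t ht) (v t)
    rw [inner_sub_right]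
    have h2 : inner ℝ (ν t) (fderiv ℝ r (x t) (v t)) = (0:ℝ) := h1
    rw [h2, sub_zero]
  have hκ : 0 ≤ kap ρ := by
    unfold kap
    positivity
  -- the functions `W`, `P`
  have hq : ∀ t, t0 < t → HasDerivAt (fun t => ‖ν t‖ ^ 2) (2 * inner ℝ (ν t) (v t)) t := by
    intro t ht
    have h1 := (hνd t ht).norm_sq
    rw [hin t ht.le] at h1
    exact h1
  have hW : ∀ t, t0 < t → HasDerivAt (fun t => ‖ν t‖ ^ 2 + kap ρ / 2 * (‖ν t‖ ^ 2) ^ 2)
      (2 * inner ℝ (gu (Lt N r ρ Λ L) (x t) (v t) t) (ν t)) t := by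
    intro t ht
    have h1 := (hq t ht).add (((hq t ht).pow 2).const_mul (kap ρ / 2))
    have h2 := P_eq h hL hρ hR Λ (hmem t ht.le) (v t) t
    have h3 : inner ℝ (gu (Lt N r ρ Λ L) (x t) (v t) t) (ν t) =
        inner ℝ (ν t) (v t) * (1 + kap ρ * ‖ν t‖ ^ 2) := h2
    rw [h3]
    refine h1.congr_deriv ?_
    norm_num
    ring
  have hP : ∀ t, t0 < t → HasDerivAt (fun t => inner ℝ (gu (Lt N r ρ Λ L) (x t) (v t) t) (ν t))
      (inner ℝ (gu (Lt N r ρ Λ L) (x t) (v t) t) (v t - fderiv ℝ r (x t) (v t)) +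
        inner ℝ (gx (lf (Lt N r ρ Λ L) f) (x t) (v t) t) (ν t)) t := by
    intro t ht
    exact (hel t ht).inner ℝ (hνd t ht)
  have hP' : ∀ t, t0 < t →
      0 ≤ inner ℝ (gu (Lt N r ρ Λ L) (x t) (v t) t) (v t - fderiv ℝ r (x t) (v t)) +
        inner ℝ (gx (lf (Lt N r ρ Λ L) f) (x t) (v t) t) (ν t) := by
    intro t ht
    have hxt : Metric.infDist (x t) N < ρ := hmem t ht.le
    have h1 := Px h hL hρ hR Λ hxt (v t) t
    have h2 := h.Px_nonneg hρ hR hxt (v t)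
    have h3 := hv (x t) hxt t
    have hLd : DifferentiableAt ℝ (fun y => Lt N r ρ Λ L y (v t) t) (x t) := by
      have h4 : ContDiff ℝ 2 (fun y : E => Lt N r ρ Λ L y (v t) t) :=
        (Lt_smooth h hL hρ hR Λ).comp
          (f := fun y : E => ((y, v t, t) : E × E × ℝ)) (by fun_prop)
      exact h4.differentiable (by norm_num) (x t)
    have hfd : DifferentiableAt ℝ (fun y => f y t) (x t) := by
      have h4 : ContDiff ℝ 2 (fun y : E => f y t) :=
        hf.smooth.comp (f := fun y : E => ((y, t) : E × ℝ)) (by fun_prop)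
      exact h4.differentiable (by norm_num) (x t)
    have h5 : inner ℝ (gx (lf (Lt N r ρ Λ L) f) (x t) (v t) t) (ν t) =
        inner ℝ (gx (Lt N r ρ Λ L) (x t) (v t) t) (ν t) +
          fderiv ℝ (fun y => f y t) (x t) (ν t) := by
      unfold gx
      rw [P10_inner_gradient, P10_inner_gradient]
      have h6 : (fun y => lf (Lt N r ρ Λ L) f y (v t) t) =
          (fun y => Lt N r ρ Λ L y (v t) t) + fun y => f y t := rfl
      rw [h6, fderiv_add hLd hfd]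
      rfl
    rw [h5]
    have h7 : inner ℝ (gx (Lt N r ρ Λ L) (x t) (v t) t) (ν t) +
        inner ℝ (gu (Lt N r ρ Λ L) (x t) (v t) t) (v t - fderiv ℝ r (x t) (v t)) =
      ‖v t - fderiv ℝ r (x t) (v t)‖ ^ 2 + kap ρ * ‖x t - r (x t)‖ ^ 2 * ‖v t‖ ^ 2 +
        kap ρ * ‖x t - r (x t)‖ ^ 2 * inner ℝ (v t) (v t - fderiv ℝ r (x t) (v t)) := h1
    have h8 : 0 ≤ fderiv ℝ (fun y => f y t) (x t) (ν t) := h3
    linarith
  have hWc : ContinuousOn (fun t => ‖ν t‖ ^ 2 + kap ρ / 2 * (‖ν t‖ ^ 2) ^ 2) (Ici t0) := by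
    have h1 : ContinuousOn (fun t => ‖ν t‖ ^ 2) (Ici t0) := hνc.norm.pow 2
    exact h1.add (continuousOn_const.mul (h1.pow 2))
  have hν0 : ν t0 = 0 := by
    show x t0 - r (x t0) = 0
    rw [hxt0, h.r_eq hx0, sub_self]
  have key := P10_ode (C := ρ ^ 2 + kap ρ / 2 * (ρ ^ 2) ^ 2) hWc hW hP hP'
    (by simp only [hν0, norm_zero]; norm_num)
    (fun t _ => by positivity) (fun t ht => by
      have h1 := hνn t ht
      have h2 : ‖ν t‖ ^ 2 ≤ ρ ^ 2 := by
        have := norm_nonneg (ν t)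
        nlinarith
      have h3 : (‖ν t‖ ^ 2) ^ 2 ≤ (ρ ^ 2) ^ 2 := by
        have := sq_nonneg ‖ν t‖
        nlinarith
      have h4 := mul_le_mul_of_nonneg_left h3 (by positivity : 0 ≤ kap ρ / 2)
      linarith)
  intro t ht
  have h1 := key t ht
  have h2 : ‖ν t‖ ^ 2 = 0 := by
    have h3 : 0 ≤ kap ρ / 2 * (‖ν t‖ ^ 2) ^ 2 := by positivity
    have h4 : 0 ≤ ‖ν t‖ ^ 2 := by positivity
    have h5 : ‖ν t‖ ^ 2 + kap ρ / 2 * (‖ν t‖ ^ 2) ^ 2 = 0 := h1
    linarith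
  have h3 : ν t = 0 := by
    have : ‖ν t‖ = 0 := by
      exact pow_eq_zero_iff (two_ne_zero) |>.1 h2
    exact norm_eq_zero.1 this
  have h4 : x t = r (x t) := sub_eq_zero.1 h3
  rw [h4]
  exact h.mem (x t) (hxR t ht)

theorem extremal (h : Tb β N r R) (hL : LagS β N r R m L) (hρ : 0 < ρ) (hR : 2 * ρ < R) {Λ : ℝ}
    (hΛ : 0 < Λ) {f : E → ℝ → ℝ} (hf : Pt β f) {x0 : E} (he : EscK.EscapesFrom (Lt N r ρ Λ L) f x0 N) :
    ∃ x : ℝ → E, ContDiffOn ℝ 2 x (Ioi 0) ∧ (∀ t, 0 < t → x t ∈ N) ∧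
      (∀ (a b : ℝ) (X : ℝ × ℝ → E), 0 < a → a < b → ContDiff ℝ 2 X → (∀ q, X q ∈ N) →
        (∀ t ∈ Icc a b, X (0, t) = x t) → (∀ s, X (s, a) = x a ∧ X (s, b) = x b) →
        HasDerivAt (fun s => ∫ t in a..b,
          (L (X (s, t)) (deriv (fun t' => X (s, t')) t) t + f (X (s, t)) t)) 0 0) ∧
      Tendsto (fun t => ‖deriv x t‖) atTop atTop := by
  obtain ⟨t0, x, v, ht0, -, -, hxv, hvc, hgu, hxN, hvt⟩ := he
  have hpos : ∀ t : ℝ, 0 < t → t0 < t := fun t ht => lt_of_le_of_lt ht0 ht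
  have hls : ContDiff ℝ 2 (fun p : E × E × ℝ => lf (Lt N r ρ Λ L) f p.1 p.2.1 p.2.2) := by
    have h1 : ContDiff ℝ 2 (fun p : E × E × ℝ => f p.1 p.2.2) :=
      hf.smooth.comp (contDiff_fst.prodMk (contDiff_snd.comp contDiff_snd))
    exact (Lt_smooth h hL hρ hR Λ).add h1
  obtain ⟨m', hm', hconv⟩ := Lt_conv h hL hρ hR hΛ
  have hdx : ∀ t, 0 < t → HasDerivAt x (v t) t := fun t ht => hxv t (hpos t ht)
  have hsub : Ioi (0:ℝ) ⊆ Ici t0 := fun t ht => (hpos t ht).le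
  have hp : ∀ t, 0 < t → HasDerivAt (fun s => gu (lf (Lt N r ρ Λ L) f) (x s) (v s) s)
      (gx (lf (Lt N r ρ Λ L) f) (x t) (v t) t) t := by
    intro t ht
    have h1 := hgu t (hpos t ht)
    have h2 : (fun s => gu (lf (Lt N r ρ Λ L) f) (x s) (v s) s) =
        fun s => gu (Lt N r ρ Λ L) (x s) (v s) s := funext fun s => A12c_gu_lf _ _ _ _ _
    rw [h2]
    exact h1
  have hconv' : ∀ x u v t, lf (Lt N r ρ Λ L) f x v t +
      inner ℝ (gu (lf (Lt N r ρ Λ L) f) x v t) (u - v) + m' / 2 * ‖u - v‖ ^ 2 ≤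
        lf (Lt N r ρ Λ L) f x u t := by
    intro x u v t
    rw [A12c_gu_lf]
    have h1 := hconv x u v t
    have h2 : ∀ w, lf (Lt N r ρ Λ L) f x w t = Lt N r ρ Λ L x w t + f x t := fun w => rfl
    rw [h2, h2]
    linarith
  obtain ⟨hc2, hst⟩ := A12c_abs hls hm' hconv' hdx (hvc.mono hsub) hp
  refine ⟨x, hc2, fun t ht => hxN t (hpos t ht).le, ?_, ?_⟩
  · intro a b X ha hab hX hXN h0 he
    have h1 := hst a b X ha hab hX h0 he
    have h2 : (fun s => ∫ t in a..b,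
        (L (X (s, t)) (deriv (fun t' => X (s, t')) t) t + f (X (s, t)) t)) =
        fun s => ∫ t in a..b,
          lf (Lt N r ρ Λ L) f (X (s, t)) (deriv (fun t' => X (s, t')) t) t := by
      funext s
      exact intervalIntegral.integral_congr fun t _ => A12c_int h hρ hR Λ f hX hXN s t
    rw [h2]
    exact h1
  · refine hvt.congr' ?_
    filter_upwards [eventually_gt_atTop (0:ℝ)] with t ht
    rw [(hdx t ht).deriv]

theorem escK_of_escT {l : E → E → ℝ → ℝ} {f : E → ℝ → ℝ} {x0 : E} {W : ℝ → Set E} {S : Set E}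
    (he : EscT.EscapesFrom l f x0 W) (hW : ∀ t, W t ⊆ S) : EscK.EscapesFrom l f x0 S := by
  obtain ⟨t0, x, v, h1, h2, h3, h4, h5, h6, h7, h8⟩ := he
  exact ⟨t0, x, v, h1, h2, h3, h4, h5, h6, fun t ht => hW t (h7 t ht), h8⟩

end EscMT
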