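import Pool.Agent.EscM.EDefs
import Pool.Agent.EscT.TDefs

set_option autoImplicit false

/-!
Project EscMT (MP_6acca1_an): closed submanifolds of flat tori, time-periodic Finsler metrics. `N` is the
preimage of the submanifold in the vector space `E`, `r` the nearest point map (`EscM.Tb`). Extension of the
metrics, of the calibrating functions and of the Lagrangian to `E`. Definitions.
-/

noncomputable section

namespace EscMT

open MeasureTheory Set Filter Topology Esc EscF EscG EscM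
open scoped ContDiff

variable {ι : Type} [Fintype ι] {E : Type*} [NormedAddCommGroup E] [InnerProductSpace ℝ E]

/-- a time-periodic family of continuous Finsler metrics on `N` and a positive periodic weight `κ`, both
Lipschitz in time -/
structure FinsP (β : Module.Basis ι ℝ E) (N : Set E) (r : E → E) (F : E → E → ℝ → ℝ) (mF MF A : ℝ)
    (κ : ℝ → ℝ) : Prop where
  fn : ∀ t, FinsN β N r (fun x v => F x v t) mF MF
  A_pos : 0 < A
  cont : ContinuousOn (fun p : E × E × ℝ => F p.1 p.2.1 p.2.2) {p | (p.1, p.2.1) ∈ TN N r}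
  pert : ∀ x v t, (x, v) ∈ TN N r → F x v (t + 1) = F x v t
  lip : ∀ x v t t', (x, v) ∈ TN N r → |F x v t - F x v t'| ≤ A * ‖v‖ * |t - t'|
  κ_per : ∀ t, κ (t + 1) = κ t
  κ_pos : ∀ t, 1 ≤ A * κ t
  κ_le : ∀ t, κ t ≤ A
  κ_lip : ∀ t t', |κ t - κ t'| ≤ A * |t - t'|

/-- The closed one-forms `d (B ∘ r)` on `N`, in a fixed cohomology class, are bounded by the metrics `F x v t`,
and they agree for some nonzero tangent vector exactly at the points of the simple closed curve `c · t` in `N`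
with homology class `β k0`; `c' σ t`, `ct σ t` are the derivatives of `c σ t` in `σ` and `t`. -/
structure CalP (β : Module.Basis ι ℝ E) (N : Set E) (r : E → E) (R : ℝ) (F : E → E → ℝ → ℝ) (A : ℝ)
    (B : E → ℝ → ℝ) (k0 : ι) (len : ℝ) (c c' ct : ℝ → ℝ → E) : Prop where
  smooth : ContDiffOn ℝ 1 (fun p : E × ℝ => B (r p.1) p.2) {p | Metric.infDist p.1 N < R}
  pert : ∀ x ∈ N, ∀ t, B x (t + 1) = B x t
  per : ∀ i, ∃ a : ℝ, ∀ x ∈ N, ∀ t, B (x + β i) t = B x t + a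
  le : ∀ x v t, (x, v) ∈ TN N r → fderiv ℝ (fun y => B (r y) t) x v ≤ F x v t
  dlip : ∀ x v t t', (x, v) ∈ TN N r →
    |fderiv ℝ (fun y => B (r y) t) x v - fderiv ℝ (fun y => B (r y) t') x v| ≤ A * ‖v‖ * |t - t'|
  len_pos : 0 < len
  mem : ∀ σ t, c σ t ∈ N
  c_σ : ∀ σ t, HasDerivAt (fun σ => c σ t) (c' σ t) σ
  c_t : ∀ σ t, HasDerivAt (fun t => c σ t) (ct σ t) t
  c'_cont : Continuous (fun p : ℝ × ℝ => c' p.1 p.2)
  ct_cont : Continuous (fun p : ℝ × ℝ => ct p.1 p.2)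
  closed : ∀ σ t, c (σ + len) t = c σ t + β k0
  c_per : ∀ σ t, c σ (t + 1) = c σ t
  unit : ∀ σ t, F (c σ t) (c' σ t) t = 1
  cal : ∀ σ t, fderiv ℝ (fun y => B (r y) t) (c σ t) (c' σ t) = 1
  only : ∀ x v t, (x, v) ∈ TN N r → v ≠ 0 → fderiv ℝ (fun y => B (r y) t) x v = F x v t →
    ∃ σ : ℝ, ∃ w ∈ Submodule.span ℤ (Set.range β), x = c σ t + w
  simple : ∀ σ σ' t, c σ t - c σ' t ∈ Submodule.span ℤ (Set.range β) → ∃ k : ℤ, σ - σ' = k * len

/-- a Lagrangian on `N`: of class `C^2`, periodic, strongly convex in the velocity -/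
structure LagS (β : Module.Basis ι ℝ E) (N : Set E) (r : E → E) (R m : ℝ) (L : E → E → ℝ → ℝ) : Prop where
  m_pos : 0 < m
  smooth : ContDiffOn ℝ 2 (fun p : E × E × ℝ => L (r p.1) (fderiv ℝ r p.1 p.2.1) p.2.2)
    {p | Metric.infDist p.1 N < R}
  per : ∀ i x v t, (x, v) ∈ TN N r → L (x + β i) v t = L x v t
  pert : ∀ x v t, (x, v) ∈ TN N r → L x v (t + 1) = L x v t
  conv : ∀ x u v t, (x, u) ∈ TN N r → (x, v) ∈ TN N r →
    L x v t + fderiv ℝ (fun w => L x (fderiv ℝ r x w) t) v (u - v) + m / 2 * ‖u - v‖ ^ 2 ≤ L x u t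

/-- `L - κ F²/2` is Lipschitz in `v` and has derivatives `O(1 + ‖v‖)` in `x`, `t` -/
def AP (N : Set E) (r : E → E) (F : E → E → ℝ → ℝ) (κ : ℝ → ℝ) (M : ℝ) (L : E → E → ℝ → ℝ) : Prop :=
  ∀ x v t x' v' t', (x, v) ∈ TN N r → (x', v') ∈ TN N r →
    |(L x v t - κ t * F x v t ^ 2 / 2) - (L x' v' t' - κ t' * F x' v' t' ^ 2 / 2)| ≤
      M * (‖v - v'‖ + (1 + ‖v‖) * (‖x - x'‖ + |t - t'|))

/-- the metric at time `t`, multiplied by `√κ(t)` -/
def sF (κ : ℝ → ℝ) (F : E → E → ℝ → ℝ) (t : ℝ) (x v : E) : ℝ := √(κ t) * F x v t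

/-- the extended metrics -/
def Fs (N : Set E) (r : E → E) (ρ Λ : ℝ) (κ : ℝ → ℝ) (F : E → E → ℝ → ℝ) (x v : E) (t : ℝ) : ℝ :=
  (√(κ t))⁻¹ * Ft N r ρ Λ (sF κ F t) x v

/-- the extended calibrating functions, `ℓ` linear with the periods of `B` -/
def Bs (N : Set E) (r : E → E) (ρ : ℝ) (B : E → ℝ → ℝ) (ℓ : E → ℝ) (x : E) (t : ℝ) : ℝ :=
  Bt N r ρ (fun y => B y t) ℓ x

/-- the hypotheses on the extended data; `C` is a bound, `ρ` the size of the tube, `Λ` the weight outside -/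
structure ExtP (β : Module.Basis ι ℝ E) (N : Set E) (r : E → E) (R : ℝ) (F : E → E → ℝ → ℝ)
    (mF MF A : ℝ) (κ : ℝ → ℝ) (B : E → ℝ → ℝ) (k0 : ι) (len : ℝ) (c c' ct : ℝ → ℝ → E) (ℓ : E →L[ℝ] ℝ)
    (ρ C Λ : ℝ) : Prop where
  tb : Tb β N r R
  fp : FinsP β N r F mF MF A κ
  cp : CalP β N r R F A B k0 len c c' ct
  ρ_pos : 0 < ρ
  ρ_lt : 5 * ρ < R
  ell : ∀ i, ∀ x ∈ N, ∀ t, B (x + β i) t = B x t + ℓ (β i)
  C_ge : 1 ≤ C
  gt : ∀ x v t, Metric.infDist x N ≤ 4 * ρ → Gt r ρ (sF κ F t) x v ≤ C * ‖v‖ ^ 2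
  bt : ∀ x v t, √(κ t) * |fderiv ℝ (fun y => Bs N r ρ B ℓ y t) x v| ≤ C * ‖v‖
  Λ_gt : 4 * C ^ 2 < Λ

end EscMT
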