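import Pool.Agent.EscMT.ODefs
import Pool.Agent.EscMT.PDefs
import Pool.Agent.EscM.A14a
import Pool.Agent.EscM.A14b

set_option autoImplicit false

/-!
Project EscMT, module P11: translation of the hypotheses.
As `EscM/A14a.lean` and `EscM/A14b.lean`. `finsP_calP`: constants `mF`, `MF` by compactness of the unit tangent vectors over a compact cell, times `t ∈ [0,1]` (joint continuity of `F`: continuous for fixed `t` and Lipschitz in `t`);
`A` is a common constant for `κ` (`1 ≤ A κ`, `κ ≤ A`, Lipschitz), for the Lipschitz bounds of `F` and of `dB`. `c' σ t`, `ct σ t` are the partial derivatives of `c`.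
-/

noncomputable section

namespace EscMT

open MeasureTheory Set Filter Topology Esc EscF EscG EscF.T EscM
open scoped ContDiff

variable {d : ℕ} {M : Sub d} {k : ℕ∞} {ρ : ℝ} {χ : Vec d → ℝ} {Rr : Vec d → Vec d}
  {F : Vec d → Vec d → ℝ → ℝ} {κ : ℝ → ℝ} {B : Vec d → ℝ → ℝ} {i : Fin d} {len : ℝ} {c : ℝ → ℝ → Vec d}
  {L : Lag d}

/-- a function of period one at the fractional part -/
theorem P11_fract {g : ℝ → ℝ} (hg : ∀ t, g (t + 1) = g t) (t : ℝ) : g (Int.fract t) = g t := by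
  have h1 : Function.Periodic g 1 := hg
  have h2 := h1.sub_zsmul_eq (x := t) ⌊t⌋
  have h3 : t - ⌊t⌋ • (1 : ℝ) = Int.fract t := by
    rw [zsmul_eq_mul, mul_one]
    rfl
  rwa [h3] at h2

/-- uniform bounds of the metrics -/
theorem P11_unif (hT : TubeD M ρ χ Rr) (hF : IsFinslerT M F) :
    ∃ mF MF : ℝ, 0 < mF ∧ ∀ t x v, (x, v) ∈ TN M.N M.r → mF * ‖v‖ ≤ F x v t ∧ F x v t ≤ MF * ‖v‖ := by
  obtain ⟨A, hA⟩ := hF.lip
  have key : ∃ mF MF : ℝ, 0 < mF ∧ ∀ t ∈ Icc (0 : ℝ) 1, ∀ x v, (x, v) ∈ TN M.N M.r →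
      mF * ‖v‖ ≤ F x v t ∧ F x v t ≤ MF * ‖v‖ := by
    refine isCompact_Icc.induction_on
      (p := fun s => ∃ mF MF : ℝ, 0 < mF ∧ ∀ t ∈ s, ∀ x v, (x, v) ∈ TN M.N M.r →
        mF * ‖v‖ ≤ F x v t ∧ F x v t ≤ MF * ‖v‖) ?_ ?_ ?_ ?_
    · exact ⟨1, 1, one_pos, fun t ht => absurd ht (notMem_empty t)⟩
    · rintro s s' hss ⟨m1, M1, h1, h2⟩
      exact ⟨m1, M1, h1, fun t ht => h2 t (hss ht)⟩
    · rintro s s' ⟨m1, M1, h1, h2⟩ ⟨m2, M2, h3, h4⟩
      refine ⟨min m1 m2, max M1 M2, lt_min h1 h3, ?_⟩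
      rintro t (ht | ht) x v hxv
      · obtain ⟨h5, h6⟩ := h2 t ht x v hxv
        exact ⟨(mul_le_mul_of_nonneg_right (min_le_left _ _) (norm_nonneg v)).trans h5,
          h6.trans (mul_le_mul_of_nonneg_right (le_max_left _ _) (norm_nonneg v))⟩
      · obtain ⟨h5, h6⟩ := h4 t ht x v hxv
        exact ⟨(mul_le_mul_of_nonneg_right (min_le_right _ _) (norm_nonneg v)).trans h5,
          h6.trans (mul_le_mul_of_nonneg_right (le_max_right _ _) (norm_nonneg v))⟩
    · intro t0 _
      obtain ⟨m0, M0, h0⟩ := (hF.fins t0).finsN hT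
      have hm0 : 0 < m0 := h0.mF_pos
      have hA' : 0 < |A| + 1 := by positivity
      refine ⟨Metric.ball t0 (m0 / (2 * (|A| + 1))),
        mem_nhdsWithin_of_mem_nhds (Metric.ball_mem_nhds t0 (by positivity)),
        m0 / 2, M0 + m0 / 2, by positivity, ?_⟩
      intro t ht x v hxv
      have h1 : |t - t0| < m0 / (2 * (|A| + 1)) := by
        rw [Metric.mem_ball, Real.dist_eq] at ht
        exact ht
      have h2 : (|A| + 1) * |t - t0| ≤ m0 / 2 := by
        have h3 : (|A| + 1) * |t - t0| ≤ (|A| + 1) * (m0 / (2 * (|A| + 1))) :=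
          mul_le_mul_of_nonneg_left h1.le hA'.le
        have h4 : (|A| + 1) * (m0 / (2 * (|A| + 1))) = m0 / 2 := by
          field_simp
        rwa [h4] at h3
      have h5 := hA x hxv.1 v hxv.2 t t0
      have h6 : A * ‖v‖ * |t - t0| ≤ m0 / 2 * ‖v‖ := by
        have h7 : A * |t - t0| ≤ m0 / 2 := by
          refine le_trans (mul_le_mul_of_nonneg_right ?_ (abs_nonneg _)) h2
          linarith [le_abs_self A]
        calc A * ‖v‖ * |t - t0| = A * |t - t0| * ‖v‖ := by ring
          _ ≤ m0 / 2 * ‖v‖ := mul_le_mul_of_nonneg_right h7 (norm_nonneg v)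
      have h8 := abs_le.1 (h5.trans h6)
      have h9 : m0 * ‖v‖ ≤ F x v t0 := h0.low x v hxv
      have h10 : F x v t0 ≤ M0 * ‖v‖ := h0.upp x v hxv
      constructor
      · have : m0 / 2 * ‖v‖ = m0 * ‖v‖ - m0 / 2 * ‖v‖ := by ring
        linarith [h8.1]
      · have : (M0 + m0 / 2) * ‖v‖ = M0 * ‖v‖ + m0 / 2 * ‖v‖ := by ring
        linarith [h8.2]
  obtain ⟨mF, MF, h1, h2⟩ := key
  refine ⟨mF, MF, h1, fun t x v hxv => ?_⟩
  have h3 := P11_fract (g := fun s => F x v s) (fun s => hF.periodic x hxv.1 v hxv.2 s) t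
  have h4 := h2 (Int.fract t) ⟨Int.fract_nonneg t, (Int.fract_lt_one t).le⟩ x v hxv
  rwa [h3] at h4

/-- joint continuity of the metrics -/
theorem P11_cont (hF : IsFinslerT M F) :
    ContinuousOn (fun p : Vec d × Vec d × ℝ => F p.1 p.2.1 p.2.2)
      {p | (p.1, p.2.1) ∈ TN M.N M.r} := by
  obtain ⟨A, hA⟩ := hF.lip
  rintro ⟨x0, v0, t0⟩ h0
  have h1 : ContinuousOn (fun p : Vec d × Vec d => F p.1 p.2 t0) (TN M.N M.r) :=
    (hF.fins t0).cont
  have h2 : ContinuousOn (fun p : Vec d × Vec d × ℝ => F p.1 p.2.1 t0)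
      {p | (p.1, p.2.1) ∈ TN M.N M.r} :=
    h1.comp (f := fun p : Vec d × Vec d × ℝ => (p.1, p.2.1))
      (continuous_fst.prodMk (continuous_fst.comp continuous_snd)).continuousOn fun p hp => hp
  have h3 : Tendsto (fun p : Vec d × Vec d × ℝ => F p.1 p.2.1 p.2.2 - F p.1 p.2.1 t0)
      (𝓝[{p | (p.1, p.2.1) ∈ TN M.N M.r}] (x0, v0, t0)) (𝓝 0) := by
    have h4 : Tendsto (fun p : Vec d × Vec d × ℝ => A * ‖p.2.1‖ * |p.2.2 - t0|)
        (𝓝[{p | (p.1, p.2.1) ∈ TN M.N M.r}] (x0, v0, t0)) (𝓝 (A * ‖v0‖ * |t0 - t0|)) := by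
      have h5 : Continuous (fun p : Vec d × Vec d × ℝ => A * ‖p.2.1‖ * |p.2.2 - t0|) := by
        fun_prop
      exact (h5.tendsto (x0, v0, t0)).mono_left nhdsWithin_le_nhds
    rw [sub_self, abs_zero, mul_zero] at h4
    refine squeeze_zero_norm' ?_ h4
    filter_upwards [self_mem_nhdsWithin] with p hp
    rw [Real.norm_eq_abs]
    exact hA p.1 hp.1 p.2.1 hp.2 p.2.2 t0
  have h6 : Tendsto (fun p : Vec d × Vec d × ℝ => F p.1 p.2.1 t0 +
      (F p.1 p.2.1 p.2.2 - F p.1 p.2.1 t0))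
      (𝓝[{p | (p.1, p.2.1) ∈ TN M.N M.r}] (x0, v0, t0)) (𝓝 (F x0 v0 t0 + 0)) :=
    Tendsto.add (h2 (x0, v0, t0) h0) h3
  have h7 : (fun p : Vec d × Vec d × ℝ => F p.1 p.2.1 t0 +
      (F p.1 p.2.1 p.2.2 - F p.1 p.2.1 t0)) = fun p => F p.1 p.2.1 p.2.2 := by
    funext p
    ring
  rw [h7, add_zero] at h6
  exact h6

/-- bounds of the weight -/
theorem P11_weight (hκ : IsWeight κ) : ∃ a b : ℝ, 0 < a ∧ 0 < b ∧ ∀ t, a ≤ κ t ∧ κ t ≤ b := by
  obtain ⟨A, hA⟩ := hκ.lip
  have hc : Continuous κ := by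
    rw [continuous_iff_continuousAt]
    intro t0
    have h1 : Tendsto (fun t => A * |t - t0|) (𝓝 t0) (𝓝 (A * |t0 - t0|)) := by
      have h2 : Continuous (fun t : ℝ => A * |t - t0|) := by fun_prop
      exact h2.tendsto t0
    rw [sub_self, abs_zero, mul_zero] at h1
    have h3 : Tendsto (fun t => κ t - κ t0) (𝓝 t0) (𝓝 0) :=
      squeeze_zero_norm (fun t => by rw [Real.norm_eq_abs]; exact hA t t0) h1
    exact tendsto_sub_nhds_zero_iff.1 h3
  have hne : (Icc (0 : ℝ) 1).Nonempty := ⟨0, by simp⟩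
  obtain ⟨t1, ht1, h1⟩ := isCompact_Icc.exists_isMinOn hne hc.continuousOn
  obtain ⟨t2, ht2, h2⟩ := isCompact_Icc.exists_isMaxOn hne hc.continuousOn
  refine ⟨κ t1, κ t2, hκ.pos t1, hκ.pos t2, fun t => ?_⟩
  have h3 := P11_fract hκ.periodic t
  have h4 : Int.fract t ∈ Icc (0 : ℝ) 1 := ⟨Int.fract_nonneg t, (Int.fract_lt_one t).le⟩
  have h5 := h1 h4
  have h6 := h2 h4
  rw [mem_ofPred_eq, h3] at h5 h6
  exact ⟨h5, h6⟩

theorem finsP_calP (hT : TubeD M ρ χ Rr) (hκ : IsWeight κ) (hF : IsFinslerT M F)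
    (hc : IsCalibratedT M F B i len c) : ∃ mF MF A : ℝ, FinsP (bas d) M.N M.r F mF MF A κ ∧
      CalP (bas d) M.N M.r (5 * ρ) F A B i len c (fun σ t => deriv (fun σ => c σ t) σ)
        (fun σ t => deriv (fun t => c σ t) t) := by
  obtain ⟨mF, MF, hm, hb⟩ := P11_unif hT hF
  obtain ⟨a, b, ha, hb0, hab⟩ := P11_weight hκ
  obtain ⟨A1, hA1⟩ := hF.lip
  obtain ⟨A2, hA2⟩ := hc.lip
  obtain ⟨A3, hA3⟩ := hκ.lip
  have hia : 0 < 1 / a := by positivity
  set A : ℝ := |A1| + |A2| + |A3| + 1 / a + b with hAdef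
  have hAa : 1 / a ≤ A := by
    have := abs_nonneg A1
    have := abs_nonneg A2
    have := abs_nonneg A3
    linarith
  have hApos : 0 < A := hia.trans_le hAa
  have hAb : b ≤ A := by
    have := abs_nonneg A1
    have := abs_nonneg A2
    have := abs_nonneg A3
    linarith
  have h1A : A1 ≤ A := by
    have := le_abs_self A1
    have := abs_nonneg A2
    have := abs_nonneg A3
    linarith
  have h2A : A2 ≤ A := by
    have := abs_nonneg A1
    have := le_abs_self A2
    have := abs_nonneg A3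
    linarith
  have h3A : A3 ≤ A := by
    have := abs_nonneg A1
    have := abs_nonneg A2
    have := le_abs_self A3
    linarith
  have hdiff : Differentiable ℝ (fun p : ℝ × ℝ => c p.1 p.2) := hc.curve.differentiable (by simp)
  have hdσ : ∀ σ t, HasDerivAt (fun σ => c σ t) (fderiv ℝ (fun p : ℝ × ℝ => c p.1 p.2) (σ, t) (1, 0)) σ := by
    intro σ t
    have h1 : HasDerivAt (fun σ : ℝ => ((σ, t) : ℝ × ℝ)) (1, 0) σ :=
      (hasDerivAt_id σ).prodMk (hasDerivAt_const σ t)
    exact (hdiff (σ, t)).hasFDerivAt.comp_hasDerivAt σ h1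
  have hdt : ∀ σ t, HasDerivAt (fun t => c σ t) (fderiv ℝ (fun p : ℝ × ℝ => c p.1 p.2) (σ, t) (0, 1)) t := by
    intro σ t
    have h1 : HasDerivAt (fun t : ℝ => ((σ, t) : ℝ × ℝ)) (0, 1) t :=
      (hasDerivAt_const t σ).prodMk (hasDerivAt_id t)
    exact (hdiff (σ, t)).hasFDerivAt.comp_hasDerivAt t h1
  have hfc : Continuous (fderiv ℝ (fun p : ℝ × ℝ => c p.1 p.2)) :=
    hc.curve.continuous_fderiv (by simp)
  refine ⟨mF, max mF MF, A, ?_, ?_⟩
  · refine
      { fn := ?_
        A_pos := hApos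
        cont := P11_cont hF
        pert := fun x v t hxv => hF.periodic x hxv.1 v hxv.2 t
        lip := ?_
        κ_per := hκ.periodic
        κ_pos := ?_
        κ_le := fun t => (hab t).2.trans hAb
        κ_lip := ?_ }
    · intro t
      obtain ⟨m0, M0, h0⟩ := (hF.fins t).finsN hT
      refine ⟨hm, le_max_left _ _, h0.cont, h0.per, h0.hom, fun x v hxv => (hb t x v hxv).1,
        fun x v hxv => (hb t x v hxv).2.trans ?_⟩
      exact mul_le_mul_of_nonneg_right (le_max_right _ _) (norm_nonneg v)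
    · intro x v t t' hxv
      refine (hA1 x hxv.1 v hxv.2 t t').trans ?_
      exact mul_le_mul_of_nonneg_right (mul_le_mul_of_nonneg_right h1A (norm_nonneg v))
        (abs_nonneg _)
    · intro t
      have h1 : 1 / a * a = 1 := by field_simp
      calc (1 : ℝ) = 1 / a * a := h1.symm
        _ ≤ A * κ t := mul_le_mul hAa (hab t).1 ha.le hApos.le
    · intro t t'
      exact (hA3 t t').trans (mul_le_mul_of_nonneg_right h3A (abs_nonneg _))
  · refine
      { smooth := hc.smooth.mono fun p hp => hT.tube p.1 hp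
        pert := hc.periodic
        per := ?_
        le := fun x v t hxv => hc.le x hxv.1 v hxv.2 t
        dlip := ?_
        len_pos := hc.len_pos
        mem := hc.mem
        c_σ := fun σ t => (hdσ σ t).differentiableAt.hasDerivAt
        c_t := fun σ t => (hdt σ t).differentiableAt.hasDerivAt
        c'_cont := ?_
        ct_cont := ?_
        closed := ?_
        c_per := hc.curve_per
        unit := hc.unit
        cal := ?_
        only := ?_
        simple := ?_ }
    · intro j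
      obtain ⟨a, ha⟩ := hc.periods (Pi.single j 1)
      refine ⟨a, fun x hx t => ?_⟩
      rw [bas_apply]
      exact ha x hx t
    · intro x v t t' hxv
      refine (hA2 x hxv.1 v hxv.2 t t').trans ?_
      exact mul_le_mul_of_nonneg_right (mul_le_mul_of_nonneg_right h2A (norm_nonneg v))
        (abs_nonneg _)
    · have h1 : (fun p : ℝ × ℝ => deriv (fun σ => c σ p.2) p.1) =
          fun p : ℝ × ℝ => fderiv ℝ (fun p : ℝ × ℝ => c p.1 p.2) p (1, 0) := by
        funext p
        exact (hdσ p.1 p.2).deriv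
      show Continuous (fun p : ℝ × ℝ => deriv (fun σ => c σ p.2) p.1)
      rw [h1]
      exact hfc.clm_apply continuous_const
    · have h1 : (fun p : ℝ × ℝ => deriv (fun t => c p.1 t) p.2) =
          fun p : ℝ × ℝ => fderiv ℝ (fun p : ℝ × ℝ => c p.1 p.2) p (0, 1) := by
        funext p
        exact (hdt p.1 p.2).deriv
      show Continuous (fun p : ℝ × ℝ => deriv (fun t => c p.1 t) p.2)
      rw [h1]
      exact hfc.clm_apply continuous_const
    · intro σ t
      rw [bas_apply]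
      exact hc.closed σ t
    · intro σ t
      have h0 : c σ t ∈ M.U := M.sub (hc.mem σ t)
      have hopen : IsOpen {p : Vec d × ℝ | p.1 ∈ M.U} := M.isOpen.preimage continuous_fst
      have h1 : DifferentiableAt ℝ (fun p : Vec d × ℝ => B (M.r p.1) p.2) (c σ t, t) :=
        ((hc.smooth (c σ t, t) h0).contDiffAt (hopen.mem_nhds h0)).differentiableAt (by simp)
      have h2 : DifferentiableAt ℝ (fun y => B (M.r y) t) (c σ t) := by
        have h3 : DifferentiableAt ℝ (fun y : Vec d => ((y, t) : Vec d × ℝ)) (c σ t) :=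
          differentiableAt_id.prodMk (differentiableAt_const t)
        exact DifferentiableAt.comp (c σ t) (g := fun p : Vec d × ℝ => B (M.r p.1) p.2) h1 h3
      have h4 : HasDerivAt (fun s => c s t) (deriv (fun s => c s t) σ) σ :=
        (hdσ σ t).differentiableAt.hasDerivAt
      have h8 : HasFDerivAt (fun y => B (M.r y) t) (fderiv ℝ (fun y => B (M.r y) t) (c σ t))
          ((fun s => c s t) σ) := h2.hasFDerivAt
      have h5 : HasDerivAt (fun s => B (M.r (c s t)) t)
          (fderiv ℝ (fun y => B (M.r y) t) (c σ t) (deriv (fun s => c s t) σ)) σ :=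
        HasFDerivAt.comp_hasDerivAt (l := fun y => B (M.r y) t) (f := fun s => c s t) σ h8 h4
      have h6 : (fun s => B (M.r (c s t)) t) = fun s => B (c 0 t) t + s := by
        funext s
        rw [r_self M (hc.mem s t), hc.cal s t]
      rw [h6] at h5
      have h7 : HasDerivAt (fun s : ℝ => B (c 0 t) t + s) 1 σ := (hasDerivAt_id σ).const_add _
      exact h5.unique h7
    · intro x v t hxv hv he
      obtain ⟨σ, n, hn⟩ := hc.only x hxv.1 v hxv.2 t hv he
      exact ⟨σ, vz n, mem_span_bas.2 ⟨n, rfl⟩, hn⟩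
    · intro σ σ' t hst
      obtain ⟨n, hn⟩ := mem_span_bas.1 hst
      exact hc.simple σ σ' t n (by rw [← hn]; abel)

/-- the Lagrangian on the vectors at a point of `N` is of class `C²` -/
theorem P11_smooth (hL : IsNearT M κ F L) {x : Vec d} (hx : x ∈ M.N) (t : ℝ) :
    ContDiff ℝ 2 (fun w => L (x, fderiv ℝ M.r x w, t)) := by
  have h1 : ContDiff ℝ 2 (fun w : Vec d => ((x, w, t) : Vec d × Vec d × ℝ)) :=
    contDiff_const.prodMk (contDiff_id.prodMk contDiff_const)
  have h2 := hL.smooth.comp_contDiff h1 (fun w => M.sub hx)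
  have h3 : (fun q : Vec d × Vec d × ℝ => L (M.r q.1, fderiv ℝ M.r q.1 q.2.1, q.2.2)) ∘
      (fun w : Vec d => ((x, w, t) : Vec d × Vec d × ℝ)) =
      fun w => L (x, fderiv ℝ M.r x w, t) := by
    funext w
    show L (M.r x, fderiv ℝ M.r x w, t) = L (x, fderiv ℝ M.r x w, t)
    rw [r_self M hx]
  rwa [h3] at h2

theorem IsNearT.lagS (hT : TubeD M ρ χ Rr) (hL : IsNearT M κ F L) :
    ∃ m' M' : ℝ, 0 ≤ M' ∧ LagS (bas d) M.N M.r (5 * ρ) m' (fun x v t => L (x, v, t)) ∧
      AP M.N M.r F κ M' (fun x v t => L (x, v, t)) := by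
  obtain ⟨c, hc, hconv⟩ := hL.convex
  obtain ⟨C, hC⟩ := hL.near
  refine ⟨c, max C 0, le_max_right _ _, ?_, ?_⟩
  · refine
      { m_pos := hc
        smooth := hL.smooth.mono fun p hp => hT.tube p.1 hp
        per := ?_
        pert := ?_
        conv := ?_ }
    · intro i x v t hxv
      have h1 := hL.periodic (Pi.single i 1) 0 x hxv.1 v t hxv.2
      rw [Int.cast_zero, add_zero] at h1
      rw [bas_apply]
      exact h1
    · intro x v t hxv
      have h1 := hL.periodic 0 1 x hxv.1 v t hxv.2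
      rw [Int.cast_one, vz_zero', add_zero] at h1
      exact h1
    · intro x u v t hxu hxv
      have hsm := P11_smooth hL hxu.1 t
      have h1 := A14b_taylor hsm (c := c) v (u - v) (fun s => by
        refine hconv x hxu.1 (v + s • (u - v)) (u - v) t ?_ ?_
        · show fderiv ℝ M.r x (v + s • (u - v)) = v + s • (u - v)
          have e1 : fderiv ℝ M.r x v = v := hxv.2
          have e2 : fderiv ℝ M.r x u = u := hxu.2
          rw [map_add, map_smul, map_sub, e1, e2]
        · show fderiv ℝ M.r x (u - v) = u - v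
          have e1 : fderiv ℝ M.r x v = v := hxv.2
          have e2 : fderiv ℝ M.r x u = u := hxu.2
          rw [map_sub, e1, e2])
      have e1 : fderiv ℝ M.r x v = v := hxv.2
      have e2 : fderiv ℝ M.r x u = u := hxu.2
      have e3 : v + (u - v) = u := by abel
      rw [e3] at h1
      simp only [e1, e2] at h1
      linarith
  · intro x v t x' v' t' hxv hxv'
    refine (hC x hxv.1 v t hxv.2 x' hxv'.1 v' t' hxv'.2).trans ?_
    refine mul_le_mul_of_nonneg_right (le_max_left _ _) ?_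
    positivity

end EscMT
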