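import Pool.Agent.EscMT.P9
import Pool.Agent.EscMT.P10
import Pool.Agent.EscMT.P11
import Pool.Agent.EscM.A14c

set_option autoImplicit false

/-!
Project EscMT, module P12: result of the analysis part.
`back`: as `EscM/A14c.lean`, with `stays`, `extremal`, `fh_pt`. `main_geoT`: `exists_dataP` for `ρ' = ρ / 2`, `l = Lt M.N M.r ρ' Λ L`, `p` for `δ = ρ'`, `escK_of_escT`, `back`.
-/

noncomputable section

namespace EscMT

open MeasureTheory Set Filter Topology Esc EscF EscG EscF.T EscM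
open scoped ContDiff

variable {d : ℕ} {M : Sub d} {k : ℕ∞} {ρ : ℝ} {χ : Vec d → ℝ} {Rr : Vec d → Vec d}
  {F : Vec d → Vec d → ℝ → ℝ} {κ : ℝ → ℝ} {B : Vec d → ℝ → ℝ} {i : Fin d} {len : ℝ} {c : ℝ → ℝ → Vec d}
  {L : Lag d}
theorem back (hk : 2 ≤ k) (hT : TubeD M ρ χ Rr) (hL : IsNearT M κ F L) {ρ' Λ : ℝ} (hρ' : 0 < ρ')
    (hle : ρ' ≤ ρ) (hΛ : 0 < Λ) (f : Pot M k) (h : YS M k) (hv : VC M ρ (fh χ f h.1)) {x0 : Vec d}
    (hx0 : x0 ∈ M.N) (he : EscK.EscapesFrom (Lt M.N M.r ρ' Λ (fun x v t => L (x, v, t))) (fh χ f h.1) x0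
      {x | Metric.infDist x M.N < ρ'}) :
    EscapesToInfinity M (fun q => L q + f.toFun (q.1, q.2.2)) := by
  have hρ := hT.ρ_pos
  obtain ⟨m', M', -, hLS, -⟩ := hL.lagS hT
  have hR : 2 * ρ' < 5 * ρ := by linarith
  have hPt := fh_pt hk hT f h.1
  obtain ⟨ε, hε, hv2⟩ := hv
  have hsign : ∀ x, Metric.infDist x M.N < ρ' → ∀ t,
      0 ≤ fderiv ℝ (fun y => fh χ f h.1 y t) x (x - M.r x) := by
    intro x hx t
    have h1 := hv2 x (hx.le.trans hle) t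
    have h2 : 0 ≤ ε * ‖x - M.r x‖ ^ 2 := by positivity
    exact h2.trans h1
  have he2 := stays hT.tb hLS hρ' hR Λ hPt hsign hx0 he
  obtain ⟨x, h1, h2, h3, h4⟩ := extremal hT.tb hLS hρ' hR hΛ hPt he2
  refine ⟨x, ⟨h1, h2, fun a b X ha hab hX hXN hX0 hXe => ?_⟩, h4⟩
  have h5 := h3 a b X ha hab hX hXN hX0 hXe
  have h6 : ∀ y ∈ M.N, ∀ t, fh χ f h.1 y t = f.toFun (y, t) := by
    intro y hy t
    have h7 : χ y = 1 := hT.one y (by rw [Metric.infDist_zero_of_mem hy]; positivity)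
    have h8 := (h.2 y hy t).1
    show χ y * f.toFun (y, t) + h.1.toFun (y, t) = f.toFun (y, t)
    rw [h7, h8, one_mul, add_zero]
  have h9 : (fun s => ∫ t in a..b,
      ((fun x v t => L (x, v, t)) (X (s, t)) (deriv (fun t' => X (s, t')) t) t +
        fh χ f h.1 (X (s, t)) t)) =
      fun s => ∫ t in a..b, (L (X (s, t), deriv (fun t' => X (s, t')) t, t) +
        f.toFun (X (s, t), t)) := by
    funext s
    apply intervalIntegral.integral_congr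
    intro t _
    show L (X (s, t), deriv (fun t' => X (s, t')) t, t) + fh χ f h.1 (X (s, t)) t = _
    rw [h6 _ (hXN _) t]
  rw [h9] at h5
  exact h5

theorem main_geoT (hk : 2 ≤ k) (hT : TubeD M ρ χ Rr) (hκ : IsWeight κ) (hF : IsFinslerT M F)
    (hc : IsCalibratedT M F B i len c) (hs : HasSecondDirection M i (c 0 0)) (hL : IsNearT M κ F L)
    (δ0 : ℝ) (hδ0 : 0 < δ0) :
    ∃ (l : Vec d → Vec d → ℝ → ℝ) (m' : ℝ) (D : EscT.GT (Fin d) 1 (Vec d)) (L' : EscT.LP) (p : GP)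
      (x0 : Vec d), D.β = bas d ∧ D.Ok ∧ EscT.FT D m' L' l ∧ EscT.POk D p ∧ x0 ∈ (EscT.D0 D).C p ∧
      8 * p.ηc ≤ δ0 ∧ (∀ t, D.Z t = Set.range fun σ => c σ t) ∧
      ∀ (f : Pot M k) (h : YS M k), VC M ρ (fh χ f h.1) →
        EscT.EscapesFrom l (fh χ f h.1) x0 (EscT.Near D p) →
        EscapesToInfinity M (fun q => L q + f.toFun (q.1, q.2.2)) := by
  have hρ := hT.ρ_pos
  obtain ⟨mF, MF, A, hFP, hCP⟩ := finsP_calP hT hκ hF hc
  obtain ⟨v0, hsec⟩ := hs.sec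
  obtain ⟨m', M', hM', hLS, hAP⟩ := hL.lagS hT
  obtain ⟨Λ, m1, D, L', hΛ, hβ, hOk, hZ, hFT, hp⟩ :=
    exists_dataP hT.tb hFP hCP hsec hLS hAP hM' (ρ := ρ / 2) (by linarith) (by linarith)
  obtain ⟨p, hpOk, hηc, hnear, x0, hx0, hx0N⟩ :=
    hp (min (ρ / 2) δ0) (lt_min (by linarith) hδ0)
  refine ⟨_, m1, D, L', p, x0, hβ, hOk, hFT, hpOk, hx0, hηc.trans (min_le_right _ _), hZ, ?_⟩
  intro f h hv he
  exact back hk hT hL (ρ' := ρ / 2) (by linarith) (by linarith) hΛ f h hv hx0N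
    (escK_of_escT he fun t x hx =>
      show Metric.infDist x M.N < ρ / 2 from lt_of_lt_of_le (hnear t hx) (min_le_left _ _))

end EscMT
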