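import Pool.Agent.EscMT.PDefs
import Pool.Agent.EscM.A4

set_option autoImplicit false

/-!
Project EscMT, module P2: the extended metrics.
`Fs_eq` and `κ_pos'` reduce most statements to `EscM/A4.lean` for the metric `sF κ F t` at fixed time. Squares: `κ t * Fs² = chi * (κ t * F (r x) (D v) t ² + ‖v - D v‖² + κ' ‖x - r x‖² ‖v‖²) + (1 - chi) Λ ‖v‖²`,
`D = fderiv ℝ r x`. `Fs_lip`: `|Fs - Fs'| = |Fs² - Fs'²| / (Fs + Fs')`, `F`, `κ` Lipschitz in time and bounded. Continuity in `(x, v, t)` as `A4`.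
-/

noncomputable section

namespace EscMT

open MeasureTheory Set Filter Topology Esc EscF EscG EscM
open scoped ContDiff

variable {ι : Type} [Fintype ι] {E : Type*} [NormedAddCommGroup E] [InnerProductSpace ℝ E]
  [FiniteDimensional ℝ E] {β : Module.Basis ι ℝ E} {N : Set E} {r : E → E} {R : ℝ}
variable {F : E → E → ℝ → ℝ} {mF MF A : ℝ} {κ : ℝ → ℝ} {ρ Λ : ℝ}

theorem κ_pos' (hF : FinsP β N r F mF MF A κ) (t : ℝ) : 0 < κ t := by
  have h1 := hF.κ_pos t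
  have h2 := hF.A_pos
  by_contra h
  have h3 := mul_nonpos_of_nonneg_of_nonpos h2.le (not_lt.1 h)
  linarith

theorem one_le_A (hF : FinsP β N r F mF MF A κ) : 1 ≤ A := by
  have h1 := hF.κ_pos 0
  have h2 := hF.A_pos
  have h3 := hF.κ_le 0
  by_contra h
  push Not at h
  have h4 : A * κ 0 ≤ A * A := mul_le_mul_of_nonneg_left h3 h2.le
  nlinarith

theorem P2_s_pos (hF : FinsP β N r F mF MF A κ) (t : ℝ) : 0 < √(κ t) :=
  Real.sqrt_pos.2 (κ_pos' hF t)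

theorem P2_s_le (hF : FinsP β N r F mF MF A κ) (t : ℝ) : √(κ t) ≤ √A :=
  Real.sqrt_le_sqrt (hF.κ_le t)

theorem P2_one_le (hF : FinsP β N r F mF MF A κ) (t : ℝ) : 1 ≤ √A * √(κ t) := by
  rw [← Real.sqrt_mul hF.A_pos.le, Real.one_le_sqrt]
  exact hF.κ_pos t

theorem P2_a_pos (hF : FinsP β N r F mF MF A κ) : 0 < √A := Real.sqrt_pos.2 hF.A_pos

theorem P2_inv_le (hF : FinsP β N r F mF MF A κ) (t : ℝ) : (√(κ t))⁻¹ ≤ √A := by
  rw [inv_le_iff_one_le_mul₀ (P2_s_pos hF t)]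
  exact P2_one_le hF t

theorem P2_le_inv (hF : FinsP β N r F mF MF A κ) (t : ℝ) : (√A)⁻¹ ≤ (√(κ t))⁻¹ :=
  inv_anti₀ (P2_s_pos hF t) (P2_s_le hF t)

theorem sF_finsN (hF : FinsP β N r F mF MF A κ) (t : ℝ) :
    FinsN β N r (sF κ F t) (√(κ t) * mF) (√(κ t) * MF) := by
  have h := hF.fn t
  have hs := P2_s_pos hF t
  refine ⟨mul_pos hs h.mF_pos, mul_le_mul_of_nonneg_left h.mF_le hs.le,
    continuousOn_const.mul h.cont, ?_, ?_, ?_, ?_⟩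
  · intro i x v hv
    unfold sF
    rw [h.per i x v hv]
  · intro x v c hv hc
    unfold sF
    rw [h.hom x v c hv hc]
    ring
  · intro x v hv
    unfold sF
    rw [mul_assoc]
    exact mul_le_mul_of_nonneg_left (h.low x v hv) hs.le
  · intro x v hv
    unfold sF
    rw [mul_assoc]
    exact mul_le_mul_of_nonneg_left (h.upp x v hv) hs.le

theorem P2_sF_finsN (hF : FinsP β N r F mF MF A κ) (t : ℝ) :
    FinsN β N r (sF κ F t) ((√A)⁻¹ * mF) (√A * MF) := by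
  have h := sF_finsN hF t
  have h0 := (hF.fn t).mF_pos
  have h1 : (√A)⁻¹ ≤ √(κ t) := by
    rw [inv_le_iff_one_le_mul₀ (P2_a_pos hF), mul_comm]
    exact P2_one_le hF t
  have h2 : (√A)⁻¹ * mF ≤ √(κ t) * mF := mul_le_mul_of_nonneg_right h1 h0.le
  have hMF : 0 ≤ MF := h0.le.trans (hF.fn t).mF_le
  have h3 : √(κ t) * MF ≤ √A * MF := mul_le_mul_of_nonneg_right (P2_s_le hF t) hMF
  refine ⟨mul_pos (inv_pos.2 (P2_a_pos hF)) h0, h2.trans (h.mF_le.trans h3), h.cont, h.per, h.hom,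
    ?_, ?_⟩
  · intro x v hv
    exact (mul_le_mul_of_nonneg_right h2 (norm_nonneg v)).trans (h.low x v hv)
  · intro x v hv
    exact (h.upp x v hv).trans (mul_le_mul_of_nonneg_right h3 (norm_nonneg v))

theorem Fs_eq (hF : FinsP β N r F mF MF A κ) (ρ Λ : ℝ) (x v : E) (t : ℝ) :
    √(κ t) * Fs N r ρ Λ κ F x v t = Ft N r ρ Λ (sF κ F t) x v := by
  unfold Fs
  rw [mul_inv_cancel_left₀ (P2_s_pos hF t).ne']

theorem Fs_nonneg (N : Set E) (r : E → E) (ρ Λ : ℝ) (κ : ℝ → ℝ) (F : E → E → ℝ → ℝ) (x v : E) (t : ℝ) :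
    0 ≤ Fs N r ρ Λ κ F x v t := by
  unfold Fs
  exact mul_nonneg (inv_nonneg.2 (Real.sqrt_nonneg _)) (Ft_nonneg N r ρ Λ (sF κ F t) x v)

theorem P2_κ_cont (hF : FinsP β N r F mF MF A κ) : Continuous κ := by
  have h : LipschitzWith (Real.toNNReal A) κ := by
    apply LipschitzWith.of_dist_le_mul
    intro t t'
    rw [Real.dist_eq, Real.dist_eq, Real.coe_toNNReal A hF.A_pos.le]
    exact hF.κ_lip t t'
  exact h.continuous

theorem P2_Gt_cont (h : Tb β N r R) (hF : FinsP β N r F mF MF A κ) (ρ : ℝ) :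
    ContinuousOn (fun p : E × E × ℝ => Gt r ρ (sF κ F p.2.2) p.1 p.2.1)
      {p | Metric.infDist p.1 N < R} := by
  have hm : MapsTo (Prod.fst : E × E × ℝ → E) {p | Metric.infDist p.1 N < R}
      {x | Metric.infDist x N < R} := fun p hp => hp
  have hv : ContinuousOn (fun p : E × E × ℝ => p.2.1) {p | Metric.infDist p.1 N < R} :=
    (continuous_fst.comp continuous_snd).continuousOn
  have h1 : ContinuousOn (fun p : E × E × ℝ => r p.1) {p | Metric.infDist p.1 N < R} :=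
    h.smooth.continuousOn.comp continuousOn_fst hm
  have h2 : ContinuousOn (fun p : E × E × ℝ => fderiv ℝ r p.1) {p | Metric.infDist p.1 N < R} :=
    (h.smooth.continuousOn_fderiv_of_isOpen h.isOpen_tube (by simp)).comp continuousOn_fst hm
  have h3 : ContinuousOn (fun p : E × E × ℝ => fderiv ℝ r p.1 p.2.1)
      {p | Metric.infDist p.1 N < R} := h2.clm_apply hv
  have ht : ContinuousOn (fun p : E × E × ℝ => p.2.2) {p | Metric.infDist p.1 N < R} :=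
    (continuous_snd.comp continuous_snd).continuousOn
  have h4 : ContinuousOn (fun p : E × E × ℝ => F (r p.1) (fderiv ℝ r p.1 p.2.1) p.2.2)
      {p | Metric.infDist p.1 N < R} :=
    hF.cont.comp (h1.prodMk (h3.prodMk ht)) fun p hp => h.tan hp p.2.1
  have h5 : ContinuousOn (fun p : E × E × ℝ => √(κ p.2.2)) {p | Metric.infDist p.1 N < R} :=
    (Real.continuous_sqrt.comp ((P2_κ_cont hF).comp
      (continuous_snd.comp continuous_snd))).continuousOn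
  unfold Gt sF
  exact (((h5.mul h4).pow 2).add ((hv.sub h3).norm.pow 2)).add
    ((continuousOn_const.mul ((continuousOn_fst.sub h1).norm.pow 2)).mul (hv.norm.pow 2))

theorem Fs_cont (h : Tb β N r R) (hF : FinsP β N r F mF MF A κ) (hρ : 0 < ρ) (hR : 2 * ρ < R)
    (hΛ : 0 < Λ) : Continuous (fun p : E × E × ℝ => Fs N r ρ Λ κ F p.1 p.2.1 p.2.2) := by
  have hchi : Continuous (chi N r ρ (2 * ρ)) :=
    (h.chi_smooth hρ.le (by linarith) hR).continuous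
  have hd : Continuous (fun p : E × E × ℝ => Metric.infDist p.1 N) :=
    (Metric.continuous_infDist_pt N).comp continuous_fst
  have hn : Continuous (fun p : E × E × ℝ => Λ * ‖p.2.1‖ ^ 2) :=
    continuous_const.mul ((continuous_fst.comp continuous_snd).norm.pow 2)
  have hc1 : Continuous (fun p : E × E × ℝ => chi N r ρ (2 * ρ) p.1) := hchi.comp continuous_fst
  have hs : Continuous (fun p : E × E × ℝ => (√(κ p.2.2))⁻¹) := by
    apply Continuous.inv₀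
    · exact Real.continuous_sqrt.comp ((P2_κ_cont hF).comp (continuous_snd.comp continuous_snd))
    · intro p
      exact (P2_s_pos hF p.2.2).ne'
  unfold Fs
  apply hs.mul
  rw [continuous_iff_continuousAt]
  intro p
  by_cases hp : Metric.infDist p.1 N < R
  · have ho : {p : E × E × ℝ | Metric.infDist p.1 N < R} ∈ 𝓝 p :=
      (isOpen_lt hd continuous_const).mem_nhds hp
    have hG : ContinuousAt (fun p : E × E × ℝ => Gt r ρ (sF κ F p.2.2) p.1 p.2.1) p :=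
      (P2_Gt_cont h hF ρ).continuousAt ho
    unfold Ft
    exact ((hc1.continuousAt.mul hG).add
      ((continuousAt_const.sub hc1.continuousAt).mul hn.continuousAt)).sqrt
  · have hp2 : 2 * ρ < Metric.infDist p.1 N := lt_of_lt_of_le hR (not_lt.1 hp)
    have ho : {p : E × E × ℝ | 2 * ρ < Metric.infDist p.1 N} ∈ 𝓝 p :=
      (isOpen_lt continuous_const hd).mem_nhds hp2
    have hc : ContinuousAt (fun p : E × E × ℝ => √Λ * ‖p.2.1‖) p :=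
      (continuous_const.mul (continuous_fst.comp continuous_snd).norm).continuousAt
    refine hc.congr ?_
    filter_upwards [ho] with q hq
    exact (Ft_far r (sF κ F q.2.2) Λ (le_of_lt hq) q.2.1).symm

theorem Fs_pert (h : Tb β N r R) (hF : FinsP β N r F mF MF A κ) (hρ : 0 < ρ) (hR : 2 * ρ < R)
    (Λ : ℝ) (x v : E) (t : ℝ) : Fs N r ρ Λ κ F x v (t + 1) = Fs N r ρ Λ κ F x v t := by
  unfold Fs
  rw [hF.κ_per t]
  congr 1
  unfold Ft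
  by_cases hx : Metric.infDist x N < R
  · have e : Gt r ρ (sF κ F (t + 1)) x v = Gt r ρ (sF κ F t) x v := by
      unfold Gt sF
      rw [hF.κ_per t, hF.pert _ _ t (h.tan hx v)]
    rw [e]
  · rw [chi_zero N r ρ (2 * ρ) (hR.le.trans (not_lt.1 hx)), zero_mul, zero_mul]

/-- the upper bound of `EscM.Tb.Gt_upp`, uniformly in the metric -/
theorem P2_Gt_upp (h : Tb β N r R) (mF MF ρ : ℝ) {a : ℝ} (ha : a < R) :
    ∃ C : ℝ, 1 ≤ C ∧ ∀ F : E → E → ℝ, FinsN β N r F mF MF → ∀ x v, Metric.infDist x N ≤ a →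
      Gt r ρ F x v ≤ C * ‖v‖ ^ 2 := by
  obtain ⟨C, hC, hb⟩ := h.fd_bd ha
  have hk := A4_kap_nonneg ρ
  refine ⟨MF ^ 2 * C ^ 2 + (1 + C) ^ 2 + kap ρ * R ^ 2, ?_, ?_⟩
  · have h1 : 0 ≤ MF ^ 2 * C ^ 2 := by positivity
    have h2 : 0 ≤ kap ρ * R ^ 2 := by positivity
    nlinarith
  · intro F hF x v hx
    have hM : 0 ≤ MF := hF.mF_pos.le.trans hF.mF_le
    have hxR : Metric.infDist x N < R := lt_of_le_of_lt hx ha
    have h1 := (fderiv ℝ r x).le_of_opNorm_le (hb x hx) v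
    have h2 : F (r x) (fderiv ℝ r x v) ≤ MF * (C * ‖v‖) :=
      (hF.upp _ _ (h.tan hxR v)).trans (mul_le_mul_of_nonneg_left h1 hM)
    have h3 : F (r x) (fderiv ℝ r x v) ^ 2 ≤ (MF * (C * ‖v‖)) ^ 2 :=
      pow_le_pow_left₀ (A4_F_nonneg hF (h.tan hxR v)) h2 2
    have h4 : ‖v - fderiv ℝ r x v‖ ≤ (1 + C) * ‖v‖ := by
      have := norm_sub_le v (fderiv ℝ r x v)
      linarith
    have h5 : ‖v - fderiv ℝ r x v‖ ^ 2 ≤ ((1 + C) * ‖v‖) ^ 2 :=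
      pow_le_pow_left₀ (norm_nonneg _) h4 2
    have h6 : ‖x - r x‖ ≤ R := by
      rw [← h.dist_eq hxR]
      exact hxR.le
    have h7 : ‖x - r x‖ ^ 2 ≤ R ^ 2 := pow_le_pow_left₀ (norm_nonneg _) h6 2
    have h8 : kap ρ * ‖x - r x‖ ^ 2 * ‖v‖ ^ 2 ≤ kap ρ * R ^ 2 * ‖v‖ ^ 2 :=
      mul_le_mul_of_nonneg_right (mul_le_mul_of_nonneg_left h7 hk) (sq_nonneg _)
    unfold Gt
    calc _ ≤ (MF * (C * ‖v‖)) ^ 2 + ((1 + C) * ‖v‖) ^ 2 + kap ρ * R ^ 2 * ‖v‖ ^ 2 := by linarith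
      _ = (MF ^ 2 * C ^ 2 + (1 + C) ^ 2 + kap ρ * R ^ 2) * ‖v‖ ^ 2 := by ring

/-- uniform bounds for the extended metrics -/
theorem P2_Ft_bds (h : Tb β N r R) {mF MF : ℝ} (hm : 0 < mF) {ρ Λ : ℝ} (hρ : 0 < ρ)
    (hR : 2 * ρ < R) (hΛ : 0 < Λ) : ∃ mF' MF' : ℝ, 0 < mF' ∧ mF' ≤ MF' ∧ ∀ F : E → E → ℝ,
      FinsN β N r F mF MF → ∀ x v, mF' * ‖v‖ ≤ Ft N r ρ Λ F x v ∧ Ft N r ρ Λ F x v ≤ MF' * ‖v‖ := by
  obtain ⟨C, hC1, hC⟩ := P2_Gt_upp h mF MF ρ hR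
  have hc1 : 0 < min (mF ^ 2) 1 / 2 := by
    have : 0 < min (mF ^ 2) 1 := lt_min (by positivity) one_pos
    positivity
  have hmin : 0 < min (min (mF ^ 2) 1 / 2) Λ := lt_min hc1 hΛ
  have hmm : min (min (mF ^ 2) 1 / 2) Λ ≤ max C Λ := (min_le_right _ _).trans (le_max_right _ _)
  refine ⟨√(min (min (mF ^ 2) 1 / 2) Λ), √(max C Λ), Real.sqrt_pos.2 hmin, Real.sqrt_le_sqrt hmm,
    ?_⟩
  intro F hF x v
  constructor
  · have e : √(min (min (mF ^ 2) 1 / 2) Λ) * ‖v‖ = √(min (min (mF ^ 2) 1 / 2) Λ * ‖v‖ ^ 2) := by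
      rw [Real.sqrt_mul' _ (sq_nonneg ‖v‖), Real.sqrt_sq (norm_nonneg v)]
    rw [e]
    unfold Ft
    apply Real.sqrt_le_sqrt
    have k1 := chi_nonneg N r ρ (2 * ρ) x
    have k2 := chi_le_one N r ρ (2 * ρ) x
    have k3 : chi N r ρ (2 * ρ) x * (min (min (mF ^ 2) 1 / 2) Λ * ‖v‖ ^ 2) ≤
        chi N r ρ (2 * ρ) x * Gt r ρ F x v := by
      by_cases hx : Metric.infDist x N < R
      · refine mul_le_mul_of_nonneg_left ?_ k1
        exact (mul_le_mul_of_nonneg_right (min_le_left _ _) (sq_nonneg _)).trans (h.Gt_low hF ρ hx v)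
      · rw [chi_zero N r ρ (2 * ρ) (hR.le.trans (not_lt.1 hx)), zero_mul, zero_mul]
    have k4 : (1 - chi N r ρ (2 * ρ) x) * (min (min (mF ^ 2) 1 / 2) Λ * ‖v‖ ^ 2) ≤
        (1 - chi N r ρ (2 * ρ) x) * (Λ * ‖v‖ ^ 2) :=
      mul_le_mul_of_nonneg_left (mul_le_mul_of_nonneg_right (min_le_right _ _) (sq_nonneg _))
        (by linarith)
    linarith
  · have e : √(max C Λ) * ‖v‖ = √(max C Λ * ‖v‖ ^ 2) := by
      rw [Real.sqrt_mul' _ (sq_nonneg ‖v‖), Real.sqrt_sq (norm_nonneg v)]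
    rw [e]
    unfold Ft
    apply Real.sqrt_le_sqrt
    have k1 := chi_nonneg N r ρ (2 * ρ) x
    have k2 := chi_le_one N r ρ (2 * ρ) x
    have k3 : chi N r ρ (2 * ρ) x * Gt r ρ F x v ≤
        chi N r ρ (2 * ρ) x * (max C Λ * ‖v‖ ^ 2) := by
      by_cases hx : Metric.infDist x N ≤ 2 * ρ
      · refine mul_le_mul_of_nonneg_left ?_ k1
        exact (hC F hF x v hx).trans (mul_le_mul_of_nonneg_right (le_max_left _ _) (sq_nonneg _))
      · rw [chi_zero N r ρ (2 * ρ) (not_le.1 hx).le, zero_mul, zero_mul]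
    have k4 : (1 - chi N r ρ (2 * ρ) x) * (Λ * ‖v‖ ^ 2) ≤
        (1 - chi N r ρ (2 * ρ) x) * (max C Λ * ‖v‖ ^ 2) :=
      mul_le_mul_of_nonneg_left (mul_le_mul_of_nonneg_right (le_max_right _ _) (sq_nonneg _))
        (by linarith)
    linarith

theorem Fs_fins (h : Tb β N r R) (hF : FinsP β N r F mF MF A κ) (hρ : 0 < ρ) (hR : 2 * ρ < R)
    (hΛ : 0 < Λ) : ∃ mF' MF' : ℝ, ∀ t, Fins β (fun x v => Fs N r ρ Λ κ F x v t) mF' MF' := by
  have ha := P2_a_pos hF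
  have hm := (hF.fn 0).mF_pos
  obtain ⟨m1, M1, hm1, hmM, hb⟩ := P2_Ft_bds (MF := √A * MF) h
    (mul_pos (inv_pos.2 ha) hm) hρ hR hΛ
  have hA1 : (√A)⁻¹ ≤ √A := (P2_le_inv hF 0).trans (P2_inv_le hF 0)
  refine ⟨(√A)⁻¹ * m1, √A * M1, fun t => ?_⟩
  have hs := P2_s_pos hF t
  obtain ⟨m2, M2, hft⟩ := h.Ft_fins (sF_finsN hF t) hρ hR hΛ
  refine ⟨mul_pos (inv_pos.2 ha) hm1, mul_le_mul hA1 hmM hm1.le ha.le, ?_, ?_, ?_, ?_, ?_⟩
  · exact continuous_const.mul hft.cont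
  · intro i x v
    show Fs N r ρ Λ κ F (x + β i) v t = Fs N r ρ Λ κ F x v t
    unfold Fs
    rw [hft.per i x v]
  · intro x v c hc
    show Fs N r ρ Λ κ F x (c • v) t = c * Fs N r ρ Λ κ F x v t
    unfold Fs
    rw [hft.hom x v c hc]
    ring
  · intro x v
    show (√A)⁻¹ * m1 * ‖v‖ ≤ (√(κ t))⁻¹ * Ft N r ρ Λ (sF κ F t) x v
    rw [mul_assoc]
    exact mul_le_mul (P2_le_inv hF t) (hb _ (P2_sF_finsN hF t) x v).1
      (mul_nonneg hm1.le (norm_nonneg v)) (inv_nonneg.2 hs.le)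
  · intro x v
    show (√(κ t))⁻¹ * Ft N r ρ Λ (sF κ F t) x v ≤ √A * M1 * ‖v‖
    rw [mul_assoc]
    exact mul_le_mul (P2_inv_le hF t) (hb _ (P2_sF_finsN hF t) x v).2
      (Ft_nonneg _ _ _ _ _ _ _) ha.le

theorem P2_Fs_sq (hF : FinsP β N r F mF MF A κ) (ρ : ℝ) (hΛ : 0 ≤ Λ) (x v : E) (t : ℝ) :
    Fs N r ρ Λ κ F x v t ^ 2 = chi N r ρ (2 * ρ) x * F (r x) (fderiv ℝ r x v) t ^ 2 +
      (κ t)⁻¹ * (chi N r ρ (2 * ρ) x * (‖v - fderiv ℝ r x v‖ ^ 2 + kap ρ * ‖x - r x‖ ^ 2 * ‖v‖ ^ 2) +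
        (1 - chi N r ρ (2 * ρ) x) * (Λ * ‖v‖ ^ 2)) := by
  have hk := κ_pos' hF t
  unfold Fs
  rw [mul_pow, Ft_sq N r ρ hΛ, inv_pow, Real.sq_sqrt hk.le]
  unfold Gt sF
  rw [mul_pow, Real.sq_sqrt hk.le]
  field_simp
  ring

theorem P2_inv_lip (hF : FinsP β N r F mF MF A κ) (t t' : ℝ) :
    |(κ t)⁻¹ - (κ t')⁻¹| ≤ A ^ 3 * |t - t'| := by
  have h1 := κ_pos' hF t
  have h2 := κ_pos' hF t'
  have hA := hF.A_pos
  have e : (κ t)⁻¹ - (κ t')⁻¹ = (κ t' - κ t) * ((κ t)⁻¹ * (κ t')⁻¹) := by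
    field_simp
  have h3 : (κ t)⁻¹ ≤ A := by
    rw [inv_le_iff_one_le_mul₀ h1]
    exact hF.κ_pos t
  have h4 : (κ t')⁻¹ ≤ A := by
    rw [inv_le_iff_one_le_mul₀ h2]
    exact hF.κ_pos t'
  have h5 : (κ t)⁻¹ * (κ t')⁻¹ ≤ A * A := mul_le_mul h3 h4 (inv_nonneg.2 h2.le) hA.le
  have h6 : 0 ≤ (κ t)⁻¹ * (κ t')⁻¹ := mul_nonneg (inv_nonneg.2 h1.le) (inv_nonneg.2 h2.le)
  have h7 := hF.κ_lip t' t
  rw [e, abs_mul, abs_of_nonneg h6]
  calc |κ t' - κ t| * ((κ t)⁻¹ * (κ t')⁻¹) ≤ (A * |t' - t|) * (A * A) :=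
        mul_le_mul h7 h5 h6 (by positivity)
    _ = A ^ 3 * |t - t'| := by rw [abs_sub_comm]; ring

theorem Fs_lip (h : Tb β N r R) (hF : FinsP β N r F mF MF A κ) (hρ : 0 < ρ) (hR : 2 * ρ < R)
    (hΛ : 0 < Λ) : ∃ A' : ℝ, 0 ≤ A' ∧ ∀ x v t t',
      |Fs N r ρ Λ κ F x v t - Fs N r ρ Λ κ F x v t'| ≤ A' * ‖v‖ * |t - t'| := by
  obtain ⟨m1, M1, hfs⟩ := Fs_fins h hF hρ hR hΛ
  obtain ⟨C, hC, hb⟩ := h.fd_bd hR
  have hm1 := (hfs 0).mF_pos
  have hA := hF.A_pos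
  have hk := A4_kap_nonneg ρ
  have hMF : 0 ≤ MF := (hF.fn 0).mF_pos.le.trans (hF.fn 0).mF_le
  have hR0 := h.R_pos
  set K : ℝ := 2 * A * MF * C ^ 2 + A ^ 3 * ((1 + C) ^ 2 + kap ρ * R ^ 2 + Λ) with hK
  have hK0 : 0 ≤ K := by positivity
  have key : ∀ x v t t', |Fs N r ρ Λ κ F x v t ^ 2 - Fs N r ρ Λ κ F x v t' ^ 2| ≤
      K * ‖v‖ ^ 2 * |t - t'| := by
    intro x v t t'
    rw [P2_Fs_sq hF ρ hΛ.le, P2_Fs_sq hF ρ hΛ.le]
    have hl := P2_inv_lip hF t t'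
    have k1 := chi_nonneg N r ρ (2 * ρ) x
    have k2 := chi_le_one N r ρ (2 * ρ) x
    have ht := abs_nonneg (t - t')
    have hv := sq_nonneg ‖v‖
    by_cases hx : Metric.infDist x N ≤ 2 * ρ
    · have hxR : Metric.infDist x N < R := lt_of_le_of_lt hx hR
      have htan := h.tan hxR v
      set D := fderiv ℝ r x v with hD
      have h1 : ‖D‖ ≤ C * ‖v‖ := (fderiv ℝ r x).le_of_opNorm_le (hb x hx) v
      have f0 : 0 ≤ F (r x) D t := A4_F_nonneg (hF.fn t) htan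
      have f0' : 0 ≤ F (r x) D t' := A4_F_nonneg (hF.fn t') htan
      have f1 : F (r x) D t ≤ MF * ‖D‖ := (hF.fn t).upp _ _ htan
      have f1' : F (r x) D t' ≤ MF * ‖D‖ := (hF.fn t').upp _ _ htan
      have f2 := hF.lip _ _ t t' htan
      have f3 : |F (r x) D t ^ 2 - F (r x) D t' ^ 2| ≤ 2 * A * MF * C ^ 2 * (‖v‖ ^ 2 * |t - t'|) := by
        have e : F (r x) D t ^ 2 - F (r x) D t' ^ 2 =
            (F (r x) D t - F (r x) D t') * (F (r x) D t + F (r x) D t') := by ring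
        have hD0 := norm_nonneg D
        rw [e, abs_mul, abs_of_nonneg (add_nonneg f0 f0')]
        calc _ ≤ (A * ‖D‖ * |t - t'|) * (2 * MF * ‖D‖) :=
              mul_le_mul f2 (by linarith) (add_nonneg f0 f0') (by positivity)
          _ = 2 * A * MF * |t - t'| * ‖D‖ ^ 2 := by ring
          _ ≤ 2 * A * MF * |t - t'| * (C * ‖v‖) ^ 2 :=
              mul_le_mul_of_nonneg_left (pow_le_pow_left₀ hD0 h1 2) (by positivity)
          _ = _ := by ring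
      have h4 : ‖v - D‖ ≤ (1 + C) * ‖v‖ := by
        have := norm_sub_le v D
        linarith
      have h5 : ‖v - D‖ ^ 2 ≤ ((1 + C) * ‖v‖) ^ 2 := pow_le_pow_left₀ (norm_nonneg _) h4 2
      have h6 : ‖x - r x‖ ≤ R := by
        rw [← h.dist_eq hxR]
        exact hxR.le
      have h7 : ‖x - r x‖ ^ 2 ≤ R ^ 2 := pow_le_pow_left₀ (norm_nonneg _) h6 2
      have h8 : kap ρ * ‖x - r x‖ ^ 2 * ‖v‖ ^ 2 ≤ kap ρ * R ^ 2 * ‖v‖ ^ 2 :=
        mul_le_mul_of_nonneg_right (mul_le_mul_of_nonneg_left h7 hk) (sq_nonneg _)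
      set W : ℝ := chi N r ρ (2 * ρ) x * (‖v - D‖ ^ 2 + kap ρ * ‖x - r x‖ ^ 2 * ‖v‖ ^ 2) +
        (1 - chi N r ρ (2 * ρ) x) * (Λ * ‖v‖ ^ 2) with hW
      have hG0 : 0 ≤ ‖v - D‖ ^ 2 + kap ρ * ‖x - r x‖ ^ 2 * ‖v‖ ^ 2 := by positivity
      have hL0 : 0 ≤ Λ * ‖v‖ ^ 2 := by positivity
      have hW0 : 0 ≤ W := add_nonneg (mul_nonneg k1 hG0) (mul_nonneg (by linarith) hL0)
      have hW1 : W ≤ ((1 + C) ^ 2 + kap ρ * R ^ 2 + Λ) * ‖v‖ ^ 2 := by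
        have a1 : chi N r ρ (2 * ρ) x * (‖v - D‖ ^ 2 + kap ρ * ‖x - r x‖ ^ 2 * ‖v‖ ^ 2) ≤
            1 * (‖v - D‖ ^ 2 + kap ρ * ‖x - r x‖ ^ 2 * ‖v‖ ^ 2) :=
          mul_le_mul_of_nonneg_right k2 hG0
        have a2 : (1 - chi N r ρ (2 * ρ) x) * (Λ * ‖v‖ ^ 2) ≤ 1 * (Λ * ‖v‖ ^ 2) :=
          mul_le_mul_of_nonneg_right (by linarith) hL0
        calc W ≤ 1 * (‖v - D‖ ^ 2 + kap ρ * ‖x - r x‖ ^ 2 * ‖v‖ ^ 2) + 1 * (Λ * ‖v‖ ^ 2) :=
              add_le_add a1 a2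
          _ ≤ ((1 + C) * ‖v‖) ^ 2 + kap ρ * R ^ 2 * ‖v‖ ^ 2 + Λ * ‖v‖ ^ 2 := by linarith
          _ = _ := by ring
      have e2 : chi N r ρ (2 * ρ) x * F (r x) D t ^ 2 + (κ t)⁻¹ * W -
          (chi N r ρ (2 * ρ) x * F (r x) D t' ^ 2 + (κ t')⁻¹ * W) =
          chi N r ρ (2 * ρ) x * (F (r x) D t ^ 2 - F (r x) D t' ^ 2) +
            ((κ t)⁻¹ - (κ t')⁻¹) * W := by ring
      rw [e2]
      have b1 : |chi N r ρ (2 * ρ) x * (F (r x) D t ^ 2 - F (r x) D t' ^ 2)| ≤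
          2 * A * MF * C ^ 2 * (‖v‖ ^ 2 * |t - t'|) := by
        rw [abs_mul, abs_of_nonneg k1]
        calc _ ≤ 1 * |F (r x) D t ^ 2 - F (r x) D t' ^ 2| :=
              mul_le_mul_of_nonneg_right k2 (abs_nonneg _)
          _ ≤ _ := by rw [one_mul]; exact f3
      have b2 : |((κ t)⁻¹ - (κ t')⁻¹) * W| ≤
          A ^ 3 * |t - t'| * (((1 + C) ^ 2 + kap ρ * R ^ 2 + Λ) * ‖v‖ ^ 2) := by
        rw [abs_mul, abs_of_nonneg hW0]
        exact mul_le_mul hl hW1 hW0 (by positivity)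
      calc _ ≤ _ := abs_add_le _ _
        _ ≤ 2 * A * MF * C ^ 2 * (‖v‖ ^ 2 * |t - t'|) +
            A ^ 3 * |t - t'| * (((1 + C) ^ 2 + kap ρ * R ^ 2 + Λ) * ‖v‖ ^ 2) := add_le_add b1 b2
        _ = K * ‖v‖ ^ 2 * |t - t'| := by rw [hK]; ring
    · rw [chi_zero N r ρ (2 * ρ) (not_le.1 hx).le]
      have e3 : (0 : ℝ) * F (r x) (fderiv ℝ r x v) t ^ 2 +
          (κ t)⁻¹ * (0 * (‖v - fderiv ℝ r x v‖ ^ 2 + kap ρ * ‖x - r x‖ ^ 2 * ‖v‖ ^ 2) +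
          (1 - 0) * (Λ * ‖v‖ ^ 2)) - (0 * F (r x) (fderiv ℝ r x v) t' ^ 2 +
          (κ t')⁻¹ * (0 * (‖v - fderiv ℝ r x v‖ ^ 2 + kap ρ * ‖x - r x‖ ^ 2 * ‖v‖ ^ 2) +
          (1 - 0) * (Λ * ‖v‖ ^ 2))) = ((κ t)⁻¹ - (κ t')⁻¹) * (Λ * ‖v‖ ^ 2) := by ring
      have hL0 : 0 ≤ Λ * ‖v‖ ^ 2 := by positivity
      rw [e3, abs_mul, abs_of_nonneg hL0]
      calc _ ≤ A ^ 3 * |t - t'| * (Λ * ‖v‖ ^ 2) := mul_le_mul_of_nonneg_right hl hL0
        _ ≤ A ^ 3 * |t - t'| * (((1 + C) ^ 2 + kap ρ * R ^ 2 + Λ) * ‖v‖ ^ 2) := by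
            apply mul_le_mul_of_nonneg_left _ (by positivity)
            apply mul_le_mul_of_nonneg_right _ hv
            have q1 : 0 ≤ (1 + C) ^ 2 := by positivity
            have q2 : 0 ≤ kap ρ * R ^ 2 := by positivity
            linarith
        _ ≤ 2 * A * MF * C ^ 2 * (‖v‖ ^ 2 * |t - t'|) +
            A ^ 3 * |t - t'| * (((1 + C) ^ 2 + kap ρ * R ^ 2 + Λ) * ‖v‖ ^ 2) :=
            le_add_of_nonneg_left (by positivity)
        _ = K * ‖v‖ ^ 2 * |t - t'| := by rw [hK]; ring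
  refine ⟨K / (2 * m1), by positivity, ?_⟩
  intro x v t t'
  by_cases hv : v = 0
  · have z : ∀ t, Fs N r ρ Λ κ F x v t = 0 := by
      intro t
      have h1 := (hfs t).upp x v
      rw [hv, norm_zero, mul_zero] at h1
      rw [hv]
      exact le_antisymm h1 (Fs_nonneg N r ρ Λ κ F x 0 t)
    rw [z t, z t', sub_zero, abs_zero, hv, norm_zero, mul_zero, zero_mul]
  · have hv0 : 0 < ‖v‖ := norm_pos_iff.2 hv
    have l1 : m1 * ‖v‖ ≤ Fs N r ρ Λ κ F x v t := (hfs t).low x v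
    have l2 : m1 * ‖v‖ ≤ Fs N r ρ Λ κ F x v t' := (hfs t').low x v
    have hs : 0 < 2 * m1 * ‖v‖ := by positivity
    have h1 := key x v t t'
    have e : Fs N r ρ Λ κ F x v t ^ 2 - Fs N r ρ Λ κ F x v t' ^ 2 =
        (Fs N r ρ Λ κ F x v t - Fs N r ρ Λ κ F x v t') *
          (Fs N r ρ Λ κ F x v t + Fs N r ρ Λ κ F x v t') := by ring
    rw [e, abs_mul, abs_of_nonneg (add_nonneg (Fs_nonneg _ _ _ _ _ _ _ _ _)
      (Fs_nonneg _ _ _ _ _ _ _ _ _))] at h1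
    have h2 : |Fs N r ρ Λ κ F x v t - Fs N r ρ Λ κ F x v t'| * (2 * m1 * ‖v‖) ≤
        K * ‖v‖ ^ 2 * |t - t'| :=
      (mul_le_mul_of_nonneg_left (by linarith) (abs_nonneg _)).trans h1
    have h3 := (le_div_iff₀ hs).2 h2
    refine h3.trans (le_of_eq ?_)
    field_simp

theorem Fs_tan (h : Tb β N r R) (hF : FinsP β N r F mF MF A κ) (hρ : 0 < ρ) (hR : 2 * ρ < R)
    (Λ : ℝ) {x v : E} (hv : (x, v) ∈ TN N r) (t : ℝ) : Fs N r ρ Λ κ F x v t = F x v t := by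
  unfold Fs
  rw [h.Ft_tan (sF_finsN hF t) hρ hR Λ hv]
  unfold sF
  rw [inv_mul_cancel_left₀ (P2_s_pos hF t).ne']

end EscMT
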