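import Pool.Agent.EscMT.P2
import Pool.Agent.EscM.A5

set_option autoImplicit false

/-!
Project EscMT, module P3: the extended calibrating functions.
As `EscM/A5.lean`, with the parameter `t`. `Bs_dlip`: the difference of the derivatives is `fderiv chi x v * (B (r x) t - B (r x) t') + chi x * (d(B ∘ r) (r x) (D v) at t minus at t')`, `D = fderiv ℝ r x`; use
`CalP.dlip` and a bound of the time derivative of `B ∘ r` (continuous, periodic). `exists_extP`: `√(κ t) ≤ √A`.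
-/

noncomputable section

namespace EscMT

open MeasureTheory Set Filter Topology Esc EscF EscG EscM
open scoped ContDiff

variable {ι : Type} [Fintype ι] {E : Type*} [NormedAddCommGroup E] [InnerProductSpace ℝ E]
  [FiniteDimensional ℝ E] {β : Module.Basis ι ℝ E} {N : Set E} {r : E → E} {R : ℝ}
variable {F : E → E → ℝ → ℝ} {mF MF A : ℝ} {κ : ℝ → ℝ} {B : E → ℝ → ℝ} {k0 : ι} {len : ℝ}
  {c c' ct : ℝ → ℝ → E} {ρ : ℝ}

/-- periodic continuous functions of position and time are bounded -/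
theorem P3_bdd {W : Type*} [NormedAddCommGroup W] (β : Module.Basis ι ℝ E) {Φ : E × ℝ → W}
    (hc : Continuous Φ) (hx : ∀ i x t, Φ (x + β i, t) = Φ (x, t))
    (ht : ∀ x t, Φ (x, t + 1) = Φ (x, t)) : ∃ C : ℝ, 0 ≤ C ∧ ∀ p, ‖Φ p‖ ≤ C := by
  have hsp : ∀ y ∈ Submodule.span ℤ (Set.range β), ∀ x t, Φ (x + y, t) = Φ (x, t) := by
    intro y hy
    induction hy using Submodule.span_induction with
    | mem y hy =>
      obtain ⟨i, rfl⟩ := hy
      exact hx i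
    | zero => intro x t; rw [add_zero]
    | add y z _ _ h1 h2 => intro x t; rw [← add_assoc, h2, h1]
    | smul n y _ h1 =>
      intro x t
      induction n using Int.induction_on generalizing x with
      | zero => rw [zero_smul, add_zero]
      | succ k ih => rw [add_smul, one_smul, ← add_assoc, h1, ih]
      | pred k ih =>
        rw [sub_smul, one_smul]
        have := h1 (x + (-(k : ℤ) • y - y)) t
        rw [add_assoc, sub_add_cancel] at this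
        rw [← this, ih]
  have htz : ∀ (n : ℤ) (x : E) (t : ℝ), Φ (x, t + n) = Φ (x, t) := by
    intro n x
    have hp : Function.Periodic (fun t => Φ (x, t)) 1 := fun t => ht x t
    intro t
    have h2 := (hp.int_mul n) t
    rw [mul_one] at h2
    exact h2
  obtain ⟨C, hC⟩ := ((isCompact_closedBall (0 : E) (∑ i, ‖β i‖)).prod
    (isCompact_Icc (a := (0 : ℝ)) (b := 1))).exists_bound_of_continuousOn hc.continuousOn
  refine ⟨max C 0, le_max_right _ _, fun p => ?_⟩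
  obtain ⟨x, t⟩ := p
  have h2 : Φ (ZSpan.fract β x + (ZSpan.floor β x : E), t) = Φ (ZSpan.fract β x, t) :=
    hsp _ (ZSpan.floor β x).2 _ _
  have h3 : ZSpan.fract β x + (ZSpan.floor β x : E) = x := by
    rw [ZSpan.fract_apply, sub_add_cancel]
  have h4 : Φ (ZSpan.fract β x, t) = Φ (ZSpan.fract β x, Int.fract t) := by
    have h5 := htz ⌊t⌋ (ZSpan.fract β x) (Int.fract t)
    rw [Int.fract_add_floor] at h5
    exact h5
  rw [h3, h4] at h2
  rw [h2]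
  refine (hC _ ⟨?_, ?_⟩).trans (le_max_left _ _)
  · rw [mem_closedBall_zero_iff]
    exact ZSpan.norm_fract_le β x
  · exact ⟨Int.fract_nonneg t, (Int.fract_lt_one t).le⟩

theorem CalP.exists_ell (hc : CalP β N r R F A B k0 len c c' ct) :
    ∃ ℓ : E →L[ℝ] ℝ, ∀ i, ∀ x ∈ N, ∀ t, B (x + β i) t = B x t + ℓ (β i) := by
  choose a ha using hc.per
  refine ⟨LinearMap.toContinuousLinearMap (β.constr ℝ a), fun i x hx t => ?_⟩
  rw [ha i x hx t]
  congr 1
  exact (β.constr_basis ℝ a i).symm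

theorem P3_s1 (hc : CalP β N r R F A B k0 len c c' ct) (ℓ : E →L[ℝ] ℝ) :
    ContDiffOn ℝ 1 (fun p : E × ℝ => B (r p.1) p.2 - ℓ p.1) {p | Metric.infDist p.1 N < R} := by
  have e2 : ContDiffOn ℝ 1 (fun p : E × ℝ => ℓ p.1) {p | Metric.infDist p.1 N < R} :=
    (ContDiff.comp (g := ℓ) (f := fun p : E × ℝ => p.1) ℓ.contDiff contDiff_fst).contDiffOn
  exact hc.smooth.sub e2

theorem Bs_smooth (h : Tb β N r R) (hc : CalP β N r R F A B k0 len c c' ct) (hρ : 0 < ρ)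
    (hR : 4 * ρ < R) (ℓ : E →L[ℝ] ℝ) : ContDiff ℝ 1 (fun p : E × ℝ => Bs N r ρ B ℓ p.1 p.2) := by
  have h3 := A5_s2 h hρ hR (P3_s1 hc ℓ)
  have h4 : (fun p : E × ℝ => Bs N r ρ B ℓ p.1 p.2) =
      fun p : E × ℝ => ℓ p.1 + chi N r (3 * ρ) (4 * ρ) p.1 • (B (r p.1) p.2 - ℓ p.1) := by
    funext p
    rw [Bs, Bt, smul_eq_mul]
  rw [h4]
  have h5 : ContDiff ℝ 1 (fun p : E × ℝ => ℓ p.1) :=
    ContDiff.comp (g := ℓ) (f := fun p : E × ℝ => p.1) ℓ.contDiff contDiff_fst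
  exact h5.add h3

theorem Bs_pert (h : Tb β N r R) (hc : CalP β N r R F A B k0 len c c' ct) (hR : 4 * ρ < R)
    (ℓ : E →L[ℝ] ℝ) (x : E) (t : ℝ) : Bs N r ρ B ℓ x (t + 1) = Bs N r ρ B ℓ x t := by
  unfold Bs Bt
  by_cases h2 : 4 * ρ ≤ Metric.infDist x N
  · rw [chi_zero N r (3 * ρ) (4 * ρ) h2]
    ring
  · push Not at h2
    dsimp only
    rw [hc.pert (r x) (h.mem x (h2.trans hR)) t]

theorem P3_per (h : Tb β N r R) (hR : 4 * ρ < R) {ℓ : E →L[ℝ] ℝ}
    (hl : ∀ i, ∀ x ∈ N, ∀ t, B (x + β i) t = B x t + ℓ (β i)) (i : ι) (x : E) (t : ℝ) :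
    Bs N r ρ B ℓ (x + β i) t = Bs N r ρ B ℓ x t + ℓ (β i) :=
  h.Bt_per (B := fun y => B y t) hR (fun i x hx => hl i x hx t) i x

/-- the derivative of the extended function is bounded -/
theorem P3_fd (h : Tb β N r R) (hc : CalP β N r R F A B k0 len c c' ct) (hρ : 0 < ρ) (hR : 4 * ρ < R)
    {ℓ : E →L[ℝ] ℝ} (hl : ∀ i, ∀ x ∈ N, ∀ t, B (x + β i) t = B x t + ℓ (β i)) :
    ∃ C : ℝ, 0 ≤ C ∧ ∀ p : E × ℝ, ‖fderiv ℝ (fun p : E × ℝ => Bs N r ρ B ℓ p.1 p.2) p‖ ≤ C := by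
  refine P3_bdd β ((Bs_smooth h hc hρ hR ℓ).continuous_fderiv (by norm_num)) ?_ ?_
  · intro i x t
    have e0 : (x + β i, t) = (x, t) + ((β i, 0) : E × ℝ) := by
      rw [Prod.mk_add_mk, add_zero]
    rw [e0, ← fderiv_comp_add_right]
    have e : (fun p : E × ℝ => Bs N r ρ B ℓ (p + ((β i, 0) : E × ℝ)).1 (p + ((β i, 0) : E × ℝ)).2) =
        fun p : E × ℝ => Bs N r ρ B ℓ p.1 p.2 + ℓ (β i) := by
      funext p
      rw [Prod.fst_add, Prod.snd_add, add_zero]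
      exact P3_per h hR hl i p.1 p.2
    rw [e, fderiv_add_const]
  · intro x t
    have e0 : (x, t + 1) = (x, t) + ((0, 1) : E × ℝ) := by
      rw [Prod.mk_add_mk, add_zero]
    rw [e0, ← fderiv_comp_add_right]
    have e : (fun p : E × ℝ => Bs N r ρ B ℓ (p + ((0, 1) : E × ℝ)).1 (p + ((0, 1) : E × ℝ)).2) =
        fun p : E × ℝ => Bs N r ρ B ℓ p.1 p.2 := by
      funext p
      rw [Prod.fst_add, Prod.snd_add, add_zero]
      exact Bs_pert h hc hR ℓ p.1 p.2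
    rw [e]

theorem P3_dx (h : Tb β N r R) (hc : CalP β N r R F A B k0 len c c' ct) (hρ : 0 < ρ) (hR : 4 * ρ < R)
    (ℓ : E →L[ℝ] ℝ) (x v : E) (t : ℝ) : fderiv ℝ (fun y => Bs N r ρ B ℓ y t) x v =
      fderiv ℝ (fun p : E × ℝ => Bs N r ρ B ℓ p.1 p.2) (x, t) (v, 0) := by
  have h1 : HasFDerivAt (fun p : E × ℝ => Bs N r ρ B ℓ p.1 p.2)
      (fderiv ℝ (fun p : E × ℝ => Bs N r ρ B ℓ p.1 p.2) (x, t)) (x, t) :=
    (((Bs_smooth h hc hρ hR ℓ).differentiable (by norm_num)) (x, t)).hasFDerivAt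
  have h2 : HasFDerivAt (fun y : E => (y, t)) (ContinuousLinearMap.inl ℝ E ℝ) x :=
    hasFDerivAt_prodMk_left x t
  have h3 := h1.comp x h2
  have h4 : HasFDerivAt (fun y => Bs N r ρ B ℓ y t)
      ((fderiv ℝ (fun p : E × ℝ => Bs N r ρ B ℓ p.1 p.2) (x, t)).comp
        (ContinuousLinearMap.inl ℝ E ℝ)) x := h3
  rw [h4.fderiv]
  rfl

theorem Bs_bd (h : Tb β N r R) (hc : CalP β N r R F A B k0 len c c' ct) (hρ : 0 < ρ) (hR : 4 * ρ < R)
    {ℓ : E →L[ℝ] ℝ} (hl : ∀ i, ∀ x ∈ N, ∀ t, B (x + β i) t = B x t + ℓ (β i)) :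
    ∃ C : ℝ, ∀ x v t, |fderiv ℝ (fun y => Bs N r ρ B ℓ y t) x v| ≤ C * ‖v‖ := by
  obtain ⟨C, hC0, hC⟩ := P3_fd h hc hρ hR hl
  refine ⟨C, fun x v t => ?_⟩
  rw [P3_dx h hc hρ hR ℓ x v t, ← Real.norm_eq_abs]
  refine (ContinuousLinearMap.le_opNorm _ _).trans ?_
  refine mul_le_mul (hC (x, t)) ?_ (norm_nonneg _) hC0
  rw [Prod.norm_mk, norm_zero]
  exact max_le le_rfl (norm_nonneg v)

/-- the calibrating functions are Lipschitz in time, uniformly on `N` -/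
theorem P3_tlip (h : Tb β N r R) (hc : CalP β N r R F A B k0 len c c' ct) (hρ : 0 < ρ) (hR : 4 * ρ < R)
    {ℓ : E →L[ℝ] ℝ} (hl : ∀ i, ∀ x ∈ N, ∀ t, B (x + β i) t = B x t + ℓ (β i)) :
    ∃ C : ℝ, 0 ≤ C ∧ ∀ x ∈ N, ∀ t t', |B x t - B x t'| ≤ C * |t - t'| := by
  obtain ⟨C, hC0, hC⟩ := P3_fd h hc hρ hR hl
  refine ⟨C, hC0, fun x hx t t' => ?_⟩
  have e : ∀ s, Bs N r ρ B ℓ x s = B x s := by
    intro s
    have hx0 : Metric.infDist x N ≤ 3 * ρ := by
      rw [Metric.infDist_zero_of_mem hx]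
      linarith
    have := h.Bt_eq (B := fun y => B y s) hρ hR ℓ hx0
    unfold Bs
    rw [this, h.r_eq hx]
  have hd := (Bs_smooth h hc hρ hR ℓ).differentiable (by norm_num)
  have key := Convex.norm_image_sub_le_of_norm_fderiv_le (𝕜 := ℝ) (f := fun p : E × ℝ =>
    Bs N r ρ B ℓ p.1 p.2) (s := Set.univ) (x := (x, t')) (y := (x, t))
    (fun p _ => hd p) (fun p _ => hC p) convex_univ (Set.mem_univ _) (Set.mem_univ _)
  dsimp only at key
  rw [e t, e t', Real.norm_eq_abs, Prod.mk_sub_mk, sub_self, Prod.norm_mk, norm_zero,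
    max_eq_right (norm_nonneg _), Real.norm_eq_abs] at key
  exact key

theorem P3_diff (h : Tb β N r R) (hc : CalP β N r R F A B k0 len c c' ct) {x : E} (t : ℝ)
    (hx : Metric.infDist x N < R) : DifferentiableAt ℝ (fun y => B (r y) t) x := by
  have ho : IsOpen {p : E × ℝ | Metric.infDist p.1 N < R} :=
    isOpen_lt ((Metric.continuous_infDist_pt N).comp continuous_fst) continuous_const
  have h1 : DifferentiableAt ℝ (fun p : E × ℝ => B (r p.1) p.2) (x, t) :=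
    (hc.smooth.differentiableOn (by norm_num)).differentiableAt (ho.mem_nhds hx)
  have h2 : DifferentiableAt ℝ (fun y : E => (y, t)) x := by fun_prop
  exact h1.comp x h2

theorem P3_fdr (h : Tb β N r R) (hc : CalP β N r R F A B k0 len c c' ct) {x : E} (t : ℝ)
    (hx : Metric.infDist x N < R) (v : E) :
    fderiv ℝ (fun y => B (r y) t) x v = fderiv ℝ (fun y => B (r y) t) (r x) (fderiv ℝ r x v) := by
  have h1 : (fun y => B (r y) t) =ᶠ[𝓝 x] (fun y => B (r y) t) ∘ r := by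
    filter_upwards [h.isOpen_tube.mem_nhds hx] with y hy
    show B (r y) t = B (r (r y)) t
    rw [h.r_eq (h.mem y hy)]
  rw [h1.fderiv_eq, fderiv_comp x (P3_diff h hc t (A5_infDist_mem h (h.mem x hx))) (h.diff hx)]
  rfl

theorem P3_dlip_tube (h : Tb β N r R) (hc : CalP β N r R F A B k0 len c c' ct) (hR : 4 * ρ < R)
    (hA : 0 ≤ A) : ∃ C : ℝ, 0 ≤ C ∧ ∀ x v t t', Metric.infDist x N ≤ 4 * ρ →
      |fderiv ℝ (fun y => B (r y) t) x v - fderiv ℝ (fun y => B (r y) t') x v| ≤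
        C * ‖v‖ * |t - t'| := by
  obtain ⟨C, hC0, hC⟩ := h.fd_bd hR
  refine ⟨A * C, mul_nonneg hA hC0.le, fun x v t t' hx => ?_⟩
  have hxR : Metric.infDist x N < R := hx.trans_lt hR
  rw [P3_fdr h hc t hxR v, P3_fdr h hc t' hxR v]
  refine (hc.dlip _ _ t t' (h.tan hxR v)).trans ?_
  have h1 := (fderiv ℝ r x).le_of_opNorm_le (hC x hx) v
  have h2 : A * ‖fderiv ℝ r x v‖ ≤ A * (C * ‖v‖) := mul_le_mul_of_nonneg_left h1 hA
  calc A * ‖fderiv ℝ r x v‖ * |t - t'| ≤ A * (C * ‖v‖) * |t - t'| :=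
        mul_le_mul_of_nonneg_right h2 (abs_nonneg _)
    _ = A * C * ‖v‖ * |t - t'| := by ring

theorem P3_chi (h : Tb β N r R) (hρ : 0 < ρ) (hR : 4 * ρ < R) :
    ∃ C : ℝ, 0 ≤ C ∧ ∀ x v, |fderiv ℝ (chi N r (3 * ρ) (4 * ρ)) x v| ≤ C * ‖v‖ := by
  have hs : ContDiff ℝ ∞ (chi N r (3 * ρ) (4 * ρ)) :=
    h.chi_smooth (by linarith) (by linarith) hR
  obtain ⟨C, hC0, hC⟩ := A5_bdd β (hs.continuous_fderiv (by simp)) (by
    intro i x
    exact A3_fd_Lam h hR (Submodule.subset_span ⟨i, rfl⟩) x)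
  refine ⟨C, hC0, fun x v => ?_⟩
  rw [← Real.norm_eq_abs]
  exact ((fderiv ℝ (chi N r (3 * ρ) (4 * ρ)) x).le_opNorm v).trans
    (mul_le_mul_of_nonneg_right (hC x) (norm_nonneg _))

theorem P3_sub (h : Tb β N r R) (hc : CalP β N r R F A B k0 len c c' ct) (hρ : 0 < ρ)
    (hR : 4 * ρ < R) (ℓ : E →L[ℝ] ℝ) {x : E} (v : E) (t t' : ℝ) (hx : Metric.infDist x N < R) :
    fderiv ℝ (fun y => Bs N r ρ B ℓ y t) x v - fderiv ℝ (fun y => Bs N r ρ B ℓ y t') x v =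
      chi N r (3 * ρ) (4 * ρ) x *
        (fderiv ℝ (fun y => B (r y) t) x v - fderiv ℝ (fun y => B (r y) t') x v) +
      (B (r x) t - B (r x) t') * fderiv ℝ (chi N r (3 * ρ) (4 * ρ)) x v := by
  have hs : ∀ s, DifferentiableAt ℝ (fun y => Bs N r ρ B ℓ y s) x := by
    intro s
    have h1 : DifferentiableAt ℝ (fun p : E × ℝ => Bs N r ρ B ℓ p.1 p.2) (x, s) :=
      (Bs_smooth h hc hρ hR ℓ).differentiable (by norm_num) (x, s)
    have h2 : DifferentiableAt ℝ (fun y : E => (y, s)) x := by fun_prop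
    exact DifferentiableAt.comp (g := fun p : E × ℝ => Bs N r ρ B ℓ p.1 p.2)
      (f := fun y : E => (y, s)) x h1 h2
  have hchi : DifferentiableAt ℝ (chi N r (3 * ρ) (4 * ρ)) x :=
    (h.chi_smooth (a := 3 * ρ) (b := 4 * ρ) (by linarith) (by linarith) hR).differentiable
      (by simp) x
  have hB := fun s => P3_diff h hc s hx
  have e1 : fderiv ℝ (fun y => Bs N r ρ B ℓ y t) x - fderiv ℝ (fun y => Bs N r ρ B ℓ y t') x =
      fderiv ℝ (fun y => Bs N r ρ B ℓ y t - Bs N r ρ B ℓ y t') x :=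
    (fderiv_fun_sub (hs t) (hs t')).symm
  have e2 : (fun y => Bs N r ρ B ℓ y t - Bs N r ρ B ℓ y t') =
      fun y => chi N r (3 * ρ) (4 * ρ) y * (B (r y) t - B (r y) t') := by
    funext y
    unfold Bs Bt
    ring
  have e3 : fderiv ℝ (fun y => chi N r (3 * ρ) (4 * ρ) y * (B (r y) t - B (r y) t')) x =
      chi N r (3 * ρ) (4 * ρ) x • (fderiv ℝ (fun y => B (r y) t - B (r y) t') x) +
      (B (r x) t - B (r x) t') • fderiv ℝ (chi N r (3 * ρ) (4 * ρ)) x :=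
    fderiv_fun_mul hchi ((hB t).sub (hB t'))
  have e4 : fderiv ℝ (fun y => B (r y) t - B (r y) t') x =
      fderiv ℝ (fun y => B (r y) t) x - fderiv ℝ (fun y => B (r y) t') x :=
    fderiv_fun_sub (hB t) (hB t')
  rw [← _root_.sub_apply, e1, e2, e3, e4]
  rfl

theorem Bs_dlip (h : Tb β N r R) (hc : CalP β N r R F A B k0 len c c' ct) (hρ : 0 < ρ)
    (hR : 4 * ρ < R) (hA : 0 ≤ A) {ℓ : E →L[ℝ] ℝ}
    (hl : ∀ i, ∀ x ∈ N, ∀ t, B (x + β i) t = B x t + ℓ (β i)) :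
    ∃ A' : ℝ, 0 ≤ A' ∧ ∀ x v t t', |fderiv ℝ (fun y => Bs N r ρ B ℓ y t) x v -
      fderiv ℝ (fun y => Bs N r ρ B ℓ y t') x v| ≤ A' * ‖v‖ * |t - t'| := by
  obtain ⟨C1, h1, hC1⟩ := P3_dlip_tube (ρ := ρ) h hc hR hA
  obtain ⟨C2, h2, hC2⟩ := P3_tlip h hc hρ hR hl
  obtain ⟨C3, h3, hC3⟩ := P3_chi h hρ hR
  refine ⟨C1 + C2 * C3, by positivity, fun x v t t' => ?_⟩
  by_cases hx : Metric.infDist x N ≤ 4 * ρ
  · have hxR : Metric.infDist x N < R := hx.trans_lt hR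
    rw [P3_sub h hc hρ hR ℓ v t t' hxR]
    have a1 : |chi N r (3 * ρ) (4 * ρ) x| ≤ 1 := by
      rw [abs_of_nonneg (chi_nonneg _ _ _ _ _)]
      exact chi_le_one _ _ _ _ _
    have a2 := hC1 x v t t' hx
    have a3 := hC2 (r x) (h.mem x hxR) t t'
    have a4 := hC3 x v
    have b1 : |chi N r (3 * ρ) (4 * ρ) x *
        (fderiv ℝ (fun y => B (r y) t) x v - fderiv ℝ (fun y => B (r y) t') x v)| ≤
        1 * (C1 * ‖v‖ * |t - t'|) := by
      rw [abs_mul]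
      exact mul_le_mul a1 a2 (abs_nonneg _) zero_le_one
    have b2 : |(B (r x) t - B (r x) t') * fderiv ℝ (chi N r (3 * ρ) (4 * ρ)) x v| ≤
        (C2 * |t - t'|) * (C3 * ‖v‖) := by
      rw [abs_mul]
      exact mul_le_mul a3 a4 (abs_nonneg _) (by positivity)
    refine (abs_add_le _ _).trans ((add_le_add b1 b2).trans (le_of_eq ?_))
    ring
  · push Not at hx
    have key : ∀ s, fderiv ℝ (fun y => Bs N r ρ B ℓ y s) x = fderiv ℝ ℓ x := by
      intro s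
      refine Filter.EventuallyEq.fderiv_eq ?_
      filter_upwards [A3_far hx] with y hy
      unfold Bs Bt
      rw [chi_zero N r (3 * ρ) (4 * ρ) hy.le]
      ring
    rw [key t, key t', sub_self, abs_zero]
    positivity

/-- a constant multiple of the norm is a metric on `N` -/
theorem P3_norm {K : ℝ} (hK : 0 < K) : FinsN β N r (fun _ v => K * ‖v‖) K K where
  mF_pos := hK
  mF_le := le_rfl
  cont := (continuous_const.mul continuous_snd.norm).continuousOn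
  per := fun _ _ _ _ => rfl
  hom := fun x v c _ hc => by
    rw [norm_smul, Real.norm_eq_abs, abs_of_nonneg hc]
    ring
  low := fun _ _ _ => le_rfl
  upp := fun _ _ _ => le_rfl

theorem exists_extP (h : Tb β N r R) (hF : FinsP β N r F mF MF A κ)
    (hc : CalP β N r R F A B k0 len c c' ct) (hρ : 0 < ρ) (hR : 5 * ρ < R) :
    ∃ (ℓ : E →L[ℝ] ℝ) (C : ℝ), ∀ Λ : ℝ, 4 * C ^ 2 < Λ →
      ExtP β N r R F mF MF A κ B k0 len c c' ct ℓ ρ C Λ := by
  have hR4 : 4 * ρ < R := by linarith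
  obtain ⟨ℓ, hl⟩ := hc.exists_ell
  have hM : 0 < MF := (hF.fn 0).mF_pos.trans_le (hF.fn 0).mF_le
  have hK : 0 < √A * MF := mul_pos (Real.sqrt_pos.2 hF.A_pos) hM
  obtain ⟨C1, hC1, h1⟩ := h.Gt_upp (P3_norm (β := β) (N := N) (r := r) hK) ρ hR4
  obtain ⟨C2, h2⟩ := Bs_bd h hc hρ hR4 hl
  have hC20 : 0 ≤ max C2 0 := le_max_right _ _
  refine ⟨ℓ, max C1 (√A * max C2 0), fun Λ hΛ => ⟨h, hF, hc, hρ, hR, hl,
    hC1.trans (le_max_left _ _), fun x v t hx => ?_, fun x v t => ?_, hΛ⟩⟩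
  · refine le_trans ?_ ((h1 x v hx).trans
      (mul_le_mul_of_nonneg_right (le_max_left _ _) (sq_nonneg _)))
    have hxR : Metric.infDist x N < R := hx.trans_lt hR4
    have ht := h.tan hxR v
    unfold Gt
    have a1 : sF κ F t (r x) (fderiv ℝ r x v) ≤ √A * MF * ‖fderiv ℝ r x v‖ := by
      unfold sF
      rw [mul_assoc]
      exact mul_le_mul (Real.sqrt_le_sqrt (hF.κ_le t)) ((hF.fn t).upp _ _ ht)
        (A4_F_nonneg (hF.fn t) ht) (Real.sqrt_nonneg _)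
    have a0 : 0 ≤ sF κ F t (r x) (fderiv ℝ r x v) := by
      unfold sF
      exact mul_nonneg (Real.sqrt_nonneg _) (A4_F_nonneg (hF.fn t) ht)
    have a2 := pow_le_pow_left₀ a0 a1 2
    linarith
  · have b1 : √(κ t) * |fderiv ℝ (fun y => Bs N r ρ B ℓ y t) x v| ≤ √A * (max C2 0 * ‖v‖) :=
      mul_le_mul (Real.sqrt_le_sqrt (hF.κ_le t)) ((h2 x v t).trans
        (mul_le_mul_of_nonneg_right (le_max_left _ _) (norm_nonneg _))) (abs_nonneg _)
        (Real.sqrt_nonneg _)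
    refine b1.trans ?_
    rw [← mul_assoc]
    exact mul_le_mul_of_nonneg_right (le_max_right _ _) (norm_nonneg _)

end EscMT
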