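import Pool.Agent.EscMT.PDefs
import Pool.Agent.EscM.A4

set_option autoImplicit false
set_option linter.unusedSectionVars false

/-!
Project EscMT, module P4a: smoothness and convexity of the extended Lagrangian.
Copy of `EscM/A7a.lean` with the hypothesis `LagS β N r R m L` instead of `LagN β N r R F m M L` (only the fields `smooth`, `conv` are used).
-/

noncomputable section

namespace EscMT

open MeasureTheory Set Filter Topology Esc EscF EscG EscM
open scoped ContDiff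

variable {ι : Type} [Fintype ι] {E : Type*} [NormedAddCommGroup E] [InnerProductSpace ℝ E]
  [FiniteDimensional ℝ E] {β : Module.Basis ι ℝ E} {N : Set E} {r : E → E} {R : ℝ}
variable {F : E → E → ℝ → ℝ} {mF MF A m M : ℝ} {κ : ℝ → ℝ} {L : E → E → ℝ → ℝ} {ρ Λ mF' MF' : ℝ}

theorem P4a_two_le : (2 : WithTop ℕ∞) ≤ ∞ := by
  show ((2 : ℕ∞) : WithTop ℕ∞) ≤ ((⊤ : ℕ∞) : WithTop ℕ∞)
  exact WithTop.coe_le_coe.2 le_top

theorem P4a_fd_smooth (h : Tb β N r R) : ContDiffOn ℝ ∞ (fderiv ℝ r) {x | Metric.infDist x N < R} :=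
  h.smooth.fderiv_of_isOpen h.isOpen_tube (by simp)

theorem P4a_Lg_smooth (h : Tb β N r R) (hL : LagS β N r R m L) (ρ : ℝ) :
    ContDiffOn ℝ 2 (fun p : E × E × ℝ => Lg r ρ L p.1 p.2.1 p.2.2)
      {p | Metric.infDist p.1 N < R} := by
  have h2 : (2 : WithTop ℕ∞) ≤ ∞ := P4a_two_le
  have hm : MapsTo (fun p : E × E × ℝ => p.1) {p | Metric.infDist p.1 N < R}
      {x | Metric.infDist x N < R} := fun p hp => hp
  have hf : ContDiffOn ℝ 2 (fun p : E × E × ℝ => p.1) {p | Metric.infDist p.1 N < R} :=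
    contDiff_fst.contDiffOn
  have hv : ContDiffOn ℝ 2 (fun p : E × E × ℝ => p.2.1) {p | Metric.infDist p.1 N < R} :=
    (contDiff_fst.comp contDiff_snd).contDiffOn
  have hr : ContDiffOn ℝ 2 (fun p : E × E × ℝ => r p.1) {p | Metric.infDist p.1 N < R} :=
    (h.smooth.of_le h2).comp hf hm
  have hd : ContDiffOn ℝ 2 (fun p : E × E × ℝ => fderiv ℝ r p.1) {p | Metric.infDist p.1 N < R} :=
    ((P4a_fd_smooth h).of_le h2).comp hf hm
  have hdv : ContDiffOn ℝ 2 (fun p : E × E × ℝ => fderiv ℝ r p.1 p.2.1)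
      {p | Metric.infDist p.1 N < R} := hd.clm_apply hv
  unfold Lg
  refine (hL.smooth.add (((hv.sub hdv).norm_sq ℝ).div_const 2)).add ?_
  exact ((contDiffOn_const.mul ((hf.sub hr).norm_sq ℝ)).mul (hv.norm_sq ℝ)).div_const 2

theorem Lt_smooth (h : Tb β N r R) (hL : LagS β N r R m L) (hρ : 0 < ρ) (hR : 2 * ρ < R) (Λ : ℝ) :
    ContDiff ℝ 2 (fun p : E × E × ℝ => Lt N r ρ Λ L p.1 p.2.1 p.2.2) := by
  have h2 : (2 : WithTop ℕ∞) ≤ ∞ := P4a_two_le
  have h1 := h.chi_mul (a := ρ) (b := 2 * ρ) hρ.le (by linarith) hR h2 (P4a_Lg_smooth h hL ρ)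
  have hc : ContDiff ℝ 2 (fun p : E × E × ℝ => chi N r ρ (2 * ρ) p.1) :=
    ((h.chi_smooth (a := ρ) (b := 2 * ρ) hρ.le (by linarith) hR).of_le h2).comp contDiff_fst
  have hv : ContDiff ℝ 2 (fun p : E × E × ℝ => p.2.1) := contDiff_fst.comp contDiff_snd
  unfold Lt
  exact h1.add ((contDiff_const.sub hc).mul ((contDiff_const.mul (hv.norm_sq ℝ)).div_const 2))

/-- derivative of a quadratic form along a line -/
theorem P4a_quad (A : E →L[ℝ] E) (v w : E) :
    HasDerivAt (fun s : ℝ => ‖A (v + s • w)‖ ^ 2 / 2) (inner ℝ (A v) (A w)) 0 := by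
  have e : ∀ s : ℝ, ‖A (v + s • w)‖ ^ 2 / 2 =
      ‖A v‖ ^ 2 / 2 + s * inner ℝ (A v) (A w) + s ^ 2 * (‖A w‖ ^ 2 / 2) := by
    intro s
    rw [map_add, map_smul, @norm_add_sq_real, inner_smul_right, norm_smul, mul_pow,
      Real.norm_eq_abs, sq_abs]
    ring
  simp only [e]
  have h1 : HasDerivAt (fun s : ℝ => ‖A v‖ ^ 2 / 2 + s * inner ℝ (A v) (A w) +
      s ^ 2 * (‖A w‖ ^ 2 / 2)) (0 + 1 * inner ℝ (A v) (A w) + ((2 : ℕ) * (0 : ℝ) ^ (2 - 1) * 1) *
        (‖A w‖ ^ 2 / 2)) 0 :=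
    ((hasDerivAt_const (0 : ℝ) _).add ((hasDerivAt_id (0 : ℝ)).mul_const _)).add
      (((hasDerivAt_id (0 : ℝ)).pow 2).mul_const _)
  convert h1 using 1
  simp

theorem P4a_fix (h : Tb β N r R) {x : E} (hx : Metric.infDist x N < R) (w : E) :
    fderiv ℝ r (r x) (fderiv ℝ r x w) = fderiv ℝ r x w := (h.tan hx w).2

/-- the Lagrangian at points of `N` is differentiable in the velocity -/
theorem P4a_diff (h : Tb β N r R) (hL : LagS β N r R m L) {x : E}
    (hx : Metric.infDist x N < R) (u : E) (t : ℝ) :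
    DifferentiableAt ℝ (fun u => L (r x) (fderiv ℝ r (r x) u) t) u := by
  have hm : r x ∈ N := h.mem x hx
  have h0 : Metric.infDist (r x) N < R := by
    rw [Metric.infDist_zero_of_mem hm]
    exact h.R_pos
  have hrr : r (r x) = r x := h.r_eq hm
  have ho : IsOpen {p : E × E × ℝ | Metric.infDist p.1 N < R} :=
    h.isOpen_tube.preimage continuous_fst
  have h1 : DifferentiableAt ℝ (fun p : E × E × ℝ => L (r p.1) (fderiv ℝ r p.1 p.2.1) p.2.2)
      (r x, u, t) :=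
    (hL.smooth.contDiffAt (ho.mem_nhds h0)).differentiableAt (by norm_num)
  have h2 : DifferentiableAt ℝ (fun u : E => ((r x, u, t) : E × E × ℝ)) u :=
    (differentiableAt_const _).prodMk (differentiableAt_id.prodMk (differentiableAt_const _))
  have h3 := DifferentiableAt.comp u (f := fun u : E => ((r x, u, t) : E × E × ℝ)) h1 h2
  have h4 : ((fun p : E × E × ℝ => L (r p.1) (fderiv ℝ r p.1 p.2.1) p.2.2) ∘
      fun u : E => ((r x, u, t) : E × E × ℝ)) = fun u => L (r x) (fderiv ℝ r (r x) u) t := by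
    funext u
    simp only [Function.comp_apply, hrr]
  rwa [h4] at h3

theorem Lg_v (h : Tb β N r R) (hL : LagS β N r R m L) (ρ : ℝ) {x : E}
    (hx : Metric.infDist x N < R) (v w : E) (t : ℝ) :
    HasDerivAt (fun s : ℝ => Lg r ρ L x (v + s • w) t)
      (fderiv ℝ (fun u => L (r x) (fderiv ℝ r (r x) u) t) (fderiv ℝ r x v) (fderiv ℝ r x w) +
        inner ℝ (v - fderiv ℝ r x v) (w - fderiv ℝ r x w) + kap ρ * ‖x - r x‖ ^ 2 * inner ℝ v w) 0 := by
  set D := fderiv ℝ r x with hD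
  -- the first term
  have h1 : HasDerivAt (fun s : ℝ => L (r x) (D (v + s • w)) t)
      (fderiv ℝ (fun u => L (r x) (fderiv ℝ r (r x) u) t) (D v) (D w)) 0 := by
    have e : ∀ s : ℝ, L (r x) (D (v + s • w)) t =
        (fun u => L (r x) (fderiv ℝ r (r x) u) t) (D v + s • D w) := by
      intro s
      have e1 : D v + s • D w = D (v + s • w) := by rw [map_add, map_smul]
      show _ = L (r x) (fderiv ℝ r (r x) (D v + s • D w)) t
      rw [e1, hD, P4a_fix h hx]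
    simp only [e]
    have hl : HasDerivAt (fun s : ℝ => D v + s • D w) (D w) 0 := by
      have := (hasDerivAt_id (0 : ℝ)).smul_const (D w)
      simpa using this.const_add (D v)
    have hg : HasFDerivAt (fun u => L (r x) (fderiv ℝ r (r x) u) t)
        (fderiv ℝ (fun u => L (r x) (fderiv ℝ r (r x) u) t) (D v)) (D v + (0 : ℝ) • D w) := by
      rw [zero_smul, add_zero]
      exact (P4a_diff h hL hx (D v) t).hasFDerivAt
    exact hg.comp_hasDerivAt (0 : ℝ) hl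
  -- the second term
  have h2 := P4a_quad (ContinuousLinearMap.id ℝ E - D) v w
  have h3 := P4a_quad (ContinuousLinearMap.id ℝ E) v w
  have h4 := h3.const_mul (kap ρ * ‖x - r x‖ ^ 2)
  have h5 := (h1.add h2).add h4
  have e : (fun s : ℝ => Lg r ρ L x (v + s • w) t) =
      fun s : ℝ => L (r x) (D (v + s • w)) t +
        ‖(ContinuousLinearMap.id ℝ E - D) (v + s • w)‖ ^ 2 / 2 +
        kap ρ * ‖x - r x‖ ^ 2 * (‖(ContinuousLinearMap.id ℝ E) (v + s • w)‖ ^ 2 / 2) := by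
    funext s
    unfold Lg
    rw [← hD]
    simp only [_root_.sub_apply, ContinuousLinearMap.id_apply]
    ring
  rw [e]
  exact h5

/-- the derivative of the extended Lagrangian in the velocity -/
theorem P4a_gu (h : Tb β N r R) (hL : LagS β N r R m L) (hρ : 0 < ρ) (hR : 2 * ρ < R) (Λ : ℝ)
    (x v w : E) (t : ℝ) {d : ℝ} (hd : HasDerivAt (fun s : ℝ => Lt N r ρ Λ L x (v + s • w) t) d 0) :
    inner ℝ (gu (Lt N r ρ Λ L) x v t) w = d := by
  have h1 : DifferentiableAt ℝ (fun u => Lt N r ρ Λ L x u t) v := by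
    have h2 : DifferentiableAt ℝ (fun p : E × E × ℝ => Lt N r ρ Λ L p.1 p.2.1 p.2.2) (x, v, t) :=
      (Lt_smooth h hL hρ hR Λ).contDiffAt.differentiableAt (by norm_num)
    have h3 : DifferentiableAt ℝ (fun u : E => ((x, u, t) : E × E × ℝ)) v :=
      (differentiableAt_const _).prodMk (differentiableAt_id.prodMk (differentiableAt_const _))
    exact DifferentiableAt.comp v (f := fun u : E => ((x, u, t) : E × E × ℝ)) h2 h3
  have h4 : inner ℝ (gu (Lt N r ρ Λ L) x v t) w = fderiv ℝ (fun u => Lt N r ρ Λ L x u t) v w := by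
    unfold gu gradient
    rw [InnerProductSpace.toDual_symm_apply]
  rw [h4]
  have hl : HasDerivAt (fun s : ℝ => v + s • w) w 0 := by
    have := (hasDerivAt_id (0 : ℝ)).smul_const w
    simpa using this.const_add v
  have hg : HasFDerivAt (fun u => Lt N r ρ Λ L x u t)
      (fderiv ℝ (fun u => Lt N r ρ Λ L x u t) v) (v + (0 : ℝ) • w) := by
    rw [zero_smul, add_zero]
    exact h1.hasFDerivAt
  have h5 := HasFDerivAt.comp_hasDerivAt (0 : ℝ) hg hl
  have h6 : HasDerivAt (fun s : ℝ => Lt N r ρ Λ L x (v + s • w) t)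
      (fderiv ℝ (fun u => Lt N r ρ Λ L x u t) v w) 0 := h5
  exact h6.unique hd

theorem P4a_lower {D : E →L[ℝ] E} {m : ℝ} (hm : 0 < m) (w : E) :
    min m 1 / 4 * ‖w‖ ^ 2 ≤ m / 2 * ‖D w‖ ^ 2 + ‖w - D w‖ ^ 2 / 2 := by
  have h1 : ‖w‖ ≤ ‖D w‖ + ‖w - D w‖ := by
    have := norm_add_le (D w) (w - D w)
    rwa [add_sub_cancel] at this
  have h2 : ‖w‖ ^ 2 ≤ 2 * (‖D w‖ ^ 2 + ‖w - D w‖ ^ 2) := by
    have h3 := norm_nonneg w
    nlinarith [sq_nonneg (‖D w‖ - ‖w - D w‖), norm_nonneg (D w), norm_nonneg (w - D w)]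
  have h4 : 0 ≤ min m 1 := (lt_min hm one_pos).le
  have h5 := min_le_left m 1
  have h6 := min_le_right m 1
  nlinarith [mul_le_mul_of_nonneg_left h2 h4, mul_le_mul_of_nonneg_right h5 (sq_nonneg ‖D w‖),
    mul_le_mul_of_nonneg_right h6 (sq_nonneg ‖w - D w‖)]

/-- convexity of the Lagrangian in the tube -/
theorem P4a_Lg_conv (h : Tb β N r R) (hL : LagS β N r R m L) (ρ : ℝ) {x : E}
    (hx : Metric.infDist x N < R) (u v : E) (t : ℝ) :
    Lg r ρ L x v t +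
      (fderiv ℝ (fun u => L (r x) (fderiv ℝ r (r x) u) t) (fderiv ℝ r x v) (fderiv ℝ r x (u - v)) +
        inner ℝ (v - fderiv ℝ r x v) ((u - v) - fderiv ℝ r x (u - v)) +
        kap ρ * ‖x - r x‖ ^ 2 * inner ℝ v (u - v)) + min m 1 / 4 * ‖u - v‖ ^ 2 ≤ Lg r ρ L x u t := by
  set D := fderiv ℝ r x with hD
  have h1 := hL.conv (r x) (D u) (D v) t (h.tan hx u) (h.tan hx v)
  rw [← map_sub] at h1
  have h2 := P4a_lower (D := D) hL.m_pos (u - v)
  have e1 : ‖u - D u‖ ^ 2 = ‖v - D v‖ ^ 2 + 2 * inner ℝ (v - D v) ((u - v) - D (u - v)) +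
      ‖(u - v) - D (u - v)‖ ^ 2 := by
    rw [← @norm_add_sq_real]
    congr 2
    rw [map_sub]
    abel
  have e2 : ‖u‖ ^ 2 = ‖v‖ ^ 2 + 2 * inner ℝ v (u - v) + ‖u - v‖ ^ 2 := by
    rw [← @norm_add_sq_real]
    congr 2
    abel
  have hk : 0 ≤ kap ρ * ‖x - r x‖ ^ 2 := by
    unfold kap
    positivity
  unfold Lg
  rw [← hD, e1, e2]
  have h3 : 0 ≤ kap ρ * ‖x - r x‖ ^ 2 * ‖u - v‖ ^ 2 := mul_nonneg hk (sq_nonneg _)
  nlinarith [h1, h2, h3]

theorem Lt_conv (h : Tb β N r R) (hL : LagS β N r R m L) (hρ : 0 < ρ) (hR : 2 * ρ < R)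
    (hΛ : 0 < Λ) : ∃ m' : ℝ, 0 < m' ∧ ∀ x u v t,
      Lt N r ρ Λ L x v t + inner ℝ (gu (Lt N r ρ Λ L) x v t) (u - v) + m' / 2 * ‖u - v‖ ^ 2 ≤
        Lt N r ρ Λ L x u t := by
  have hm1 : 0 < min m 1 := lt_min hL.m_pos one_pos
  refine ⟨min (min m 1 / 2) Λ, lt_min (by positivity) hΛ, fun x u v t => ?_⟩
  have hm2 : min (min m 1 / 2) Λ ≤ min m 1 / 2 := min_le_left _ _
  have hm3 : min (min m 1 / 2) Λ ≤ Λ := min_le_right _ _
  set μ := min (min m 1 / 2) Λ with hμ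
  have hsq := sq_nonneg ‖u - v‖
  have e2 : ‖u‖ ^ 2 = ‖v‖ ^ 2 + 2 * inner ℝ v (u - v) + ‖u - v‖ ^ 2 := by
    rw [← @norm_add_sq_real]
    congr 2
    abel
  have hq : HasDerivAt (fun s : ℝ => Λ * ‖v + s • (u - v)‖ ^ 2 / 2) (Λ * inner ℝ v (u - v)) 0 := by
    have h3 := (P4a_quad (ContinuousLinearMap.id ℝ E) v (u - v)).const_mul Λ
    simp only [ContinuousLinearMap.id_apply] at h3
    have e : (fun s : ℝ => Λ * ‖v + s • (u - v)‖ ^ 2 / 2) =
        fun s : ℝ => Λ * (‖v + s • (u - v)‖ ^ 2 / 2) := by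
      funext s
      ring
    rw [e]
    exact h3
  by_cases hx : Metric.infDist x N < 2 * ρ
  · have hxR : Metric.infDist x N < R := hx.trans hR
    have h1 := (Lg_v h hL ρ hxR v (u - v) t).const_mul (chi N r ρ (2 * ρ) x)
    have h2 := hq.const_mul (1 - chi N r ρ (2 * ρ) x)
    have h3 := P4a_gu h hL hρ hR Λ x v (u - v) t (h1.add h2)
    rw [h3]
    have h4 := P4a_Lg_conv h hL ρ hxR u v t
    have c0 := chi_nonneg N r ρ (2 * ρ) x
    have c1 := chi_le_one N r ρ (2 * ρ) x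
    have h5 := mul_le_mul_of_nonneg_left h4 c0
    unfold Lt
    set χ := chi N r ρ (2 * ρ) x with hχ
    have h6 : χ * (μ / 2 * ‖u - v‖ ^ 2) ≤ χ * (min m 1 / 4 * ‖u - v‖ ^ 2) :=
      mul_le_mul_of_nonneg_left (mul_le_mul_of_nonneg_right (by linarith) hsq) c0
    have h7 : (1 - χ) * (μ / 2 * ‖u - v‖ ^ 2) ≤ (1 - χ) * (Λ / 2 * ‖u - v‖ ^ 2) :=
      mul_le_mul_of_nonneg_left (mul_le_mul_of_nonneg_right (by linarith) hsq) (by linarith)
    rw [e2]
    linarith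
  · have hc : chi N r ρ (2 * ρ) x = 0 := chi_zero N r ρ (2 * ρ) (not_lt.1 hx)
    have e : ∀ w, Lt N r ρ Λ L x w t = Λ * ‖w‖ ^ 2 / 2 := by
      intro w
      unfold Lt
      rw [hc]
      ring
    have h3 : inner ℝ (gu (Lt N r ρ Λ L) x v t) (u - v) = Λ * inner ℝ v (u - v) := by
      refine P4a_gu h hL hρ hR Λ x v (u - v) t ?_
      simp only [e]
      exact hq
    rw [h3, e, e, e2]
    have h7 : μ / 2 * ‖u - v‖ ^ 2 ≤ Λ / 2 * ‖u - v‖ ^ 2 :=
      mul_le_mul_of_nonneg_right (by linarith) hsq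
    linarith

end EscMT
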