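import Pool.Agent.EscMT.P2

set_option autoImplicit false

/-!
Project EscMT, module P4b: the extended Lagrangian is near the energy.
Port of `EscM/A7b.lean`: `Lt_eq` from `Fs_eq` and `EscM.Ft_sq`; the function `φ = L - κ F²/2` on `TN` satisfies the same Lipschitz bound, so the proof of `AL` is the same.
-/

noncomputable section

namespace EscMT

open MeasureTheory Set Filter Topology Esc EscF EscG EscM
open scoped ContDiff

variable {ι : Type} [Fintype ι] {E : Type*} [NormedAddCommGroup E] [InnerProductSpace ℝ E]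
  [FiniteDimensional ℝ E] {β : Module.Basis ι ℝ E} {N : Set E} {r : E → E} {R : ℝ}
variable {F : E → E → ℝ → ℝ} {mF MF A m M : ℝ} {κ : ℝ → ℝ} {L : E → E → ℝ → ℝ} {ρ Λ mF' MF' : ℝ}

theorem Lt_eq (hF : FinsP β N r F mF MF A κ) (ρ : ℝ) (hΛ : 0 ≤ Λ) (L : E → E → ℝ → ℝ)
    (x v : E) (t : ℝ) : Lt N r ρ Λ L x v t - κ t * Fs N r ρ Λ κ F x v t ^ 2 / 2 =
      chi N r ρ (2 * ρ) x *
        (L (r x) (fderiv ℝ r x v) t - κ t * F (r x) (fderiv ℝ r x v) t ^ 2 / 2) := by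
  have h0 : √(κ t) ^ 2 = κ t := Real.sq_sqrt (κ_pos' hF t).le
  have h1 : κ t * Fs N r ρ Λ κ F x v t ^ 2 = Ft N r ρ Λ (sF κ F t) x v ^ 2 := by
    rw [← Fs_eq hF ρ Λ x v t, mul_pow, h0]
  have h2 := Ft_sq N r ρ hΛ (sF κ F t) x v
  have h3 : sF κ F t (r x) (fderiv ℝ r x v) ^ 2 = κ t * F (r x) (fderiv ℝ r x v) t ^ 2 := by
    unfold sF
    rw [mul_pow, h0]
  rw [h1, h2]
  unfold Gt
  rw [h3]
  unfold Lt Lg
  ring

/-- the perturbation on `N` -/
def P4b_phi (F : E → E → ℝ → ℝ) (κ : ℝ → ℝ) (L : E → E → ℝ → ℝ) (y w : E) (t : ℝ) : ℝ :=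
  L y w t - κ t * F y w t ^ 2 / 2

theorem P4b_L_Lam (h : Tb β N r R) (hL : LagS β N r R m L) {w : E}
    (hw : w ∈ Submodule.span ℤ (Set.range β)) :
    ∀ x v t, (x, v) ∈ TN N r → L (x + w) v t = L x v t := by
  induction hw using Submodule.span_induction with
  | mem w hw =>
    obtain ⟨i, rfl⟩ := hw
    exact hL.per i
  | zero =>
    intro x v t _
    rw [add_zero]
  | add w w' hw hw' ih ih' =>
    intro x v t hv
    rw [← add_assoc, ih' _ v t (A4_TN_Lam h hw hv), ih x v t hv]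
  | smul n w hw ih =>
    have hneg : ∀ x v t, (x, v) ∈ TN N r → L (x + -w) v t = L x v t := by
      intro x v t hv
      have h1 := A4_TN_Lam h (Submodule.neg_mem _ hw) hv
      have h2 := ih _ v t h1
      rw [neg_add_cancel_right] at h2
      exact h2.symm
    induction n using Int.induction_on with
    | zero =>
      intro x v t _
      rw [zero_smul, add_zero]
    | succ n ihn =>
      intro x v t hv
      have hn : (n : ℤ) • w ∈ Submodule.span ℤ (Set.range β) := Submodule.smul_mem _ _ hw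
      rw [add_smul, one_smul, ← add_assoc, ih _ v t (A4_TN_Lam h hn hv), ihn x v t hv]
    | pred n ihn =>
      intro x v t hv
      have hn : (-(n : ℤ)) • w ∈ Submodule.span ℤ (Set.range β) := Submodule.smul_mem _ _ hw
      rw [sub_smul, one_smul, sub_eq_add_neg, ← add_assoc, hneg _ v t (A4_TN_Lam h hn hv),
        ihn x v t hv]

omit [FiniteDimensional ℝ E] in
theorem P4b_zero_mem {y : E} (hy : y ∈ N) : (y, (0 : E)) ∈ TN N r := by
  refine ⟨hy, ?_⟩
  show fderiv ℝ r y (0 : E) = 0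
  exact map_zero _

omit [FiniteDimensional ℝ E] in
theorem P4b_F_zero (hF : FinsP β N r F mF MF A κ) {y : E} (hy : y ∈ N) (t : ℝ) : F y 0 t = 0 := by
  have h1 := (hF.fn t).hom y 0 0 (P4b_zero_mem hy) le_rfl
  rw [zero_smul, zero_mul] at h1
  exact h1

/-- bound of the perturbation on `N` -/
theorem P4b_phi_bd (h : Tb β N r R) (hF : FinsP β N r F mF MF A κ) (hL : LagS β N r R m L)
    (hA : AP N r F κ M L) (hM : 0 ≤ M) (hR : 2 * ρ < R) :
    ∃ C : ℝ, 0 ≤ C ∧ ∀ x v t, Metric.infDist x N ≤ 2 * ρ →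
      |P4b_phi F κ L (r x) (fderiv ℝ r x v) t| ≤ C * (1 + ‖v‖) := by
  obtain ⟨CD, hCD, hD⟩ := h.fd_bd hR
  have hsub : {x : E | Metric.infDist x N ≤ 2 * ρ} ⊆ {x | Metric.infDist x N < R} := A2_sub hR
  have hcont : ContinuousOn (fun x : E => L (r x) 0 0) {x | Metric.infDist x N ≤ 2 * ρ} := by
    have h1 : ContinuousOn (fun x : E => (x, ((0 : E), (0 : ℝ)))) {x | Metric.infDist x N ≤ 2 * ρ} :=
      continuousOn_id.prodMk continuousOn_const
    have h2 := hL.smooth.continuousOn.comp h1 (fun x hx => hsub hx)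
    refine h2.congr ?_
    intro x _
    show L (r x) 0 0 = L (r x) (fderiv ℝ r x (0 : E)) 0
    rw [map_zero]
  obtain ⟨C1, hC1⟩ := h.bdd (a := 2 * ρ) (G := fun x => L (r x) 0 0) hcont (by
    intro x hx w hw
    show L (r (x + w)) 0 0 = L (r x) 0 0
    rw [h.r_Lam hw (hsub hx)]
    exact P4b_L_Lam h hL hw _ _ _ (P4b_zero_mem (h.mem x (hsub hx))))
  refine ⟨M * CD + M + |C1|, by positivity, ?_⟩
  intro x v t hx
  have hxR : Metric.infDist x N < R := hsub hx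
  have hy := h.mem x hxR
  have hT := h.tan hxR v
  have hT0 : (r x, (0 : E)) ∈ TN N r := P4b_zero_mem hy
  -- time periodicity
  have hper : Function.Periodic (fun s => P4b_phi F κ L (r x) (fderiv ℝ r x v) s) 1 := by
    intro s
    show P4b_phi F κ L (r x) (fderiv ℝ r x v) (s + 1) = P4b_phi F κ L (r x) (fderiv ℝ r x v) s
    unfold P4b_phi
    rw [hL.pert _ _ _ hT, hF.κ_per, hF.pert _ _ _ hT]
  have h1 : P4b_phi F κ L (r x) (fderiv ℝ r x v) t =
      P4b_phi F κ L (r x) (fderiv ℝ r x v) (Int.fract t) := by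
    have h2 := hper.sub_int_mul_eq (x := t) ⌊t⌋
    rw [mul_one] at h2
    exact h2.symm
  have h2 : |P4b_phi F κ L (r x) 0 0| ≤ |C1| := by
    have h3 : P4b_phi F κ L (r x) 0 0 = L (r x) 0 0 := by
      unfold P4b_phi
      rw [P4b_F_zero hF hy]
      ring
    rw [h3]
    exact (hC1 x hx).trans (le_abs_self _)
  have h3 : |P4b_phi F κ L (r x) 0 (Int.fract t) - P4b_phi F κ L (r x) 0 0| ≤ M := by
    have h4 := hA (r x) 0 (Int.fract t) (r x) 0 0 hT0 hT0
    rw [sub_self, sub_self, norm_zero, sub_zero, abs_of_nonneg (Int.fract_nonneg t)] at h4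
    refine h4.trans ?_
    have h5 := Int.fract_lt_one t
    have h6 : M * (0 + (1 + 0) * (0 + Int.fract t)) = M * Int.fract t := by ring
    rw [h6]
    exact mul_le_of_le_one_right hM h5.le
  have h4 : |P4b_phi F κ L (r x) (fderiv ℝ r x v) (Int.fract t) -
      P4b_phi F κ L (r x) 0 (Int.fract t)| ≤ M * ‖fderiv ℝ r x v‖ := by
    have h5 := hA (r x) (fderiv ℝ r x v) (Int.fract t) (r x) 0 (Int.fract t) hT hT0
    rw [sub_self, sub_self, norm_zero, sub_zero, abs_zero, add_zero, mul_zero, add_zero] at h5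
    exact h5
  have h5 : ‖fderiv ℝ r x v‖ ≤ CD * ‖v‖ :=
    ((fderiv ℝ r x).le_opNorm v).trans (mul_le_mul_of_nonneg_right (hD x hx) (norm_nonneg v))
  have h6 : M * ‖fderiv ℝ r x v‖ ≤ M * CD * ‖v‖ := by
    rw [mul_assoc]
    exact mul_le_mul_of_nonneg_left h5 hM
  rw [h1]
  have h7 : |P4b_phi F κ L (r x) (fderiv ℝ r x v) (Int.fract t)| ≤
      M * CD * ‖v‖ + M + |C1| := by
    have e : P4b_phi F κ L (r x) (fderiv ℝ r x v) (Int.fract t) =
        (P4b_phi F κ L (r x) (fderiv ℝ r x v) (Int.fract t) - P4b_phi F κ L (r x) 0 (Int.fract t)) +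
        (P4b_phi F κ L (r x) 0 (Int.fract t) - P4b_phi F κ L (r x) 0 0) +
        P4b_phi F κ L (r x) 0 0 := by ring
    rw [e]
    refine (abs_add_three _ _ _).trans ?_
    linarith
  refine h7.trans ?_
  have h8 : 0 ≤ ‖v‖ := norm_nonneg v
  have h9 : 0 ≤ |C1| := abs_nonneg C1
  have h10 : 0 ≤ M * CD := by positivity
  nlinarith [mul_nonneg hM h8, mul_nonneg h9 h8]

/-- the perturbation multiplied by the cut-off -/
def P4b_psi (N : Set E) (r : E → E) (ρ : ℝ) (F : E → E → ℝ → ℝ) (κ : ℝ → ℝ) (L : E → E → ℝ → ℝ)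
    (x v : E) (t : ℝ) : ℝ := chi N r ρ (2 * ρ) x * P4b_phi F κ L (r x) (fderiv ℝ r x v) t

/-- Lipschitz in the velocity -/
theorem P4b_psi_v (h : Tb β N r R) (hA : AP N r F κ M L) (hM : 0 ≤ M) (hR : 2 * ρ < R) :
    ∃ C : ℝ, 0 ≤ C ∧ ∀ x v v' t,
      |P4b_psi N r ρ F κ L x v t - P4b_psi N r ρ F κ L x v' t| ≤ C * ‖v - v'‖ := by
  obtain ⟨CD, hCD, hD⟩ := h.fd_bd hR
  refine ⟨M * CD, by positivity, ?_⟩
  intro x v v' t
  unfold P4b_psi
  by_cases hx : Metric.infDist x N ≤ 2 * ρ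
  · have hxR : Metric.infDist x N < R := lt_of_le_of_lt hx hR
    have h1 := hA (r x) (fderiv ℝ r x v) t (r x) (fderiv ℝ r x v') t (h.tan hxR v) (h.tan hxR v')
    rw [sub_self, sub_self, norm_zero, abs_zero, add_zero, mul_zero, add_zero, ← map_sub] at h1
    have h2 : ‖fderiv ℝ r x (v - v')‖ ≤ CD * ‖v - v'‖ :=
      ((fderiv ℝ r x).le_opNorm _).trans (mul_le_mul_of_nonneg_right (hD x hx) (norm_nonneg _))
    have h3 : |P4b_phi F κ L (r x) (fderiv ℝ r x v) t - P4b_phi F κ L (r x) (fderiv ℝ r x v') t| ≤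
        M * CD * ‖v - v'‖ := by
      refine h1.trans ?_
      rw [mul_assoc]
      exact mul_le_mul_of_nonneg_left h2 hM
    rw [← mul_sub, abs_mul, abs_of_nonneg (chi_nonneg N r ρ (2 * ρ) x)]
    exact (mul_le_of_le_one_left (abs_nonneg _) (chi_le_one N r ρ (2 * ρ) x)).trans h3
  · rw [chi_zero N r ρ (2 * ρ) (not_le.1 hx).le, zero_mul, zero_mul, sub_zero, abs_zero]
    positivity

/-- Lipschitz in the position and the time -/
theorem P4b_psi_x (h : Tb β N r R) (hF : FinsP β N r F mF MF A κ) (hL : LagS β N r R m L)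
    (hA : AP N r F κ M L) (hM : 0 ≤ M) (hρ : 0 < ρ) (hR : 2 * ρ < R) :
    ∃ C : ℝ, 0 ≤ C ∧ ∀ x x' v t t',
      |P4b_psi N r ρ F κ L x v t - P4b_psi N r ρ F κ L x' v t'| ≤
        C * ((1 + ‖v‖) * (‖x - x'‖ + |t - t'|)) := by
  obtain ⟨CD, hCD, hD⟩ := h.fd_bd hR
  obtain ⟨Cr, hCr, hr⟩ := h.r_lip hR
  obtain ⟨Cc, hCc, hc⟩ := h.chi_lip hρ.le (by linarith : ρ < 2 * ρ) hR
  obtain ⟨C0, hC0, h0⟩ := P4b_phi_bd h hF hL hA hM hR
  -- one point in the tube, the other one outside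
  have hout : ∀ x x' v t t', Metric.infDist x N ≤ 2 * ρ → ¬ Metric.infDist x' N ≤ 2 * ρ →
      |P4b_psi N r ρ F κ L x v t| ≤ Cc * C0 * ((1 + ‖v‖) * (‖x - x'‖ + |t - t'|)) := by
    intro x x' v t t' hx hx'
    have h1 := hc x x'
    rw [chi_zero N r ρ (2 * ρ) (not_le.1 hx').le, sub_zero] at h1
    have h2 := h0 x v t hx
    unfold P4b_psi
    rw [abs_mul]
    have h3 : |chi N r ρ (2 * ρ) x| * |P4b_phi F κ L (r x) (fderiv ℝ r x v) t| ≤
        (Cc * ‖x - x'‖) * (C0 * (1 + ‖v‖)) :=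
      mul_le_mul h1 h2 (abs_nonneg _) (by positivity)
    refine h3.trans ?_
    have h4 : 0 ≤ Cc * C0 * ((1 + ‖v‖) * |t - t'|) := by positivity
    nlinarith
  refine ⟨Cc * C0 + M * ((1 + CD) * (Cr + 1) + Cr), by positivity, ?_⟩
  intro x x' v t t'
  have hK : 0 ≤ (1 + ‖v‖) * (‖x - x'‖ + |t - t'|) := by positivity
  have hK2 : 0 ≤ M * ((1 + CD) * (Cr + 1) + Cr) * ((1 + ‖v‖) * (‖x - x'‖ + |t - t'|)) := by
    positivity
  by_cases hx : Metric.infDist x N ≤ 2 * ρ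
  · by_cases hx' : Metric.infDist x' N ≤ 2 * ρ
    · have hxR : Metric.infDist x N < R := lt_of_le_of_lt hx hR
      have hxR' : Metric.infDist x' N < R := lt_of_le_of_lt hx' hR
      have h1 := hA (r x) (fderiv ℝ r x v) t (r x') (fderiv ℝ r x' v) t' (h.tan hxR v)
        (h.tan hxR' v)
      obtain ⟨hr1, hr2⟩ := hr x x' hx hx'
      have h2 : ‖fderiv ℝ r x v - fderiv ℝ r x' v‖ ≤ Cr * ‖x - x'‖ * ‖v‖ := by
        have h3 : fderiv ℝ r x v - fderiv ℝ r x' v = (fderiv ℝ r x - fderiv ℝ r x') v := rfl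
        rw [h3]
        exact ((fderiv ℝ r x - fderiv ℝ r x').le_opNorm v).trans
          (mul_le_mul_of_nonneg_right hr2 (norm_nonneg v))
      have h3 : ‖fderiv ℝ r x v‖ ≤ CD * ‖v‖ :=
        ((fderiv ℝ r x).le_opNorm v).trans (mul_le_mul_of_nonneg_right (hD x hx) (norm_nonneg v))
      have hv0 : 0 ≤ ‖v‖ := norm_nonneg v
      have hx0 : 0 ≤ ‖x - x'‖ := norm_nonneg _
      have ht0 : 0 ≤ |t - t'| := abs_nonneg _
      have h4 : ‖fderiv ℝ r x v - fderiv ℝ r x' v‖ + (1 + ‖fderiv ℝ r x v‖) *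
          (‖r x - r x'‖ + |t - t'|) ≤
          ((1 + CD) * (Cr + 1) + Cr) * ((1 + ‖v‖) * (‖x - x'‖ + |t - t'|)) := by
        have h5 : Cr * ‖x - x'‖ * ‖v‖ ≤ Cr * ((1 + ‖v‖) * (‖x - x'‖ + |t - t'|)) := by
          have h6 : ‖x - x'‖ * ‖v‖ ≤ (1 + ‖v‖) * (‖x - x'‖ + |t - t'|) := by nlinarith
          calc Cr * ‖x - x'‖ * ‖v‖ = Cr * (‖x - x'‖ * ‖v‖) := by ring
            _ ≤ _ := mul_le_mul_of_nonneg_left h6 hCr.le
        have h7 : 1 + ‖fderiv ℝ r x v‖ ≤ (1 + CD) * (1 + ‖v‖) := by nlinarith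
        have h8 : ‖r x - r x'‖ + |t - t'| ≤ (Cr + 1) * (‖x - x'‖ + |t - t'|) := by nlinarith
        have h9 : (1 + ‖fderiv ℝ r x v‖) * (‖r x - r x'‖ + |t - t'|) ≤
            ((1 + CD) * (1 + ‖v‖)) * ((Cr + 1) * (‖x - x'‖ + |t - t'|)) :=
          mul_le_mul h7 h8 (by positivity) (by positivity)
        calc ‖fderiv ℝ r x v - fderiv ℝ r x' v‖ + (1 + ‖fderiv ℝ r x v‖) *
              (‖r x - r x'‖ + |t - t'|)
            ≤ Cr * ((1 + ‖v‖) * (‖x - x'‖ + |t - t'|)) +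
              ((1 + CD) * (1 + ‖v‖)) * ((Cr + 1) * (‖x - x'‖ + |t - t'|)) :=
              add_le_add (h2.trans h5) h9
          _ = _ := by ring
      have h5 : |P4b_phi F κ L (r x) (fderiv ℝ r x v) t -
          P4b_phi F κ L (r x') (fderiv ℝ r x' v) t'| ≤
          M * ((1 + CD) * (Cr + 1) + Cr) * ((1 + ‖v‖) * (‖x - x'‖ + |t - t'|)) := by
        refine h1.trans ?_
        rw [mul_assoc]
        exact mul_le_mul_of_nonneg_left h4 hM
      have e : P4b_psi N r ρ F κ L x v t - P4b_psi N r ρ F κ L x' v t' =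
          (chi N r ρ (2 * ρ) x - chi N r ρ (2 * ρ) x') *
            P4b_phi F κ L (r x) (fderiv ℝ r x v) t +
          chi N r ρ (2 * ρ) x' * (P4b_phi F κ L (r x) (fderiv ℝ r x v) t -
            P4b_phi F κ L (r x') (fderiv ℝ r x' v) t') := by
        unfold P4b_psi
        ring
      have h6 : |(chi N r ρ (2 * ρ) x - chi N r ρ (2 * ρ) x') *
          P4b_phi F κ L (r x) (fderiv ℝ r x v) t| ≤
          Cc * C0 * ((1 + ‖v‖) * (‖x - x'‖ + |t - t'|)) := by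
        rw [abs_mul]
        refine (mul_le_mul (hc x x') (h0 x v t hx) (abs_nonneg _) (by positivity)).trans ?_
        have h7 : 0 ≤ Cc * C0 * ((1 + ‖v‖) * |t - t'|) := by positivity
        nlinarith
      have h7 : |chi N r ρ (2 * ρ) x' * (P4b_phi F κ L (r x) (fderiv ℝ r x v) t -
            P4b_phi F κ L (r x') (fderiv ℝ r x' v) t')| ≤
          M * ((1 + CD) * (Cr + 1) + Cr) * ((1 + ‖v‖) * (‖x - x'‖ + |t - t'|)) := by
        rw [abs_mul, abs_of_nonneg (chi_nonneg N r ρ (2 * ρ) x')]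
        exact (mul_le_of_le_one_left (abs_nonneg _) (chi_le_one N r ρ (2 * ρ) x')).trans h5
      rw [e]
      refine (abs_add_le _ _).trans ?_
      rw [add_mul]
      exact add_le_add h6 h7
    · have h1 := hout x x' v t t' hx hx'
      have h2 : P4b_psi N r ρ F κ L x' v t' = 0 := by
        unfold P4b_psi
        rw [chi_zero N r ρ (2 * ρ) (not_le.1 hx').le, zero_mul]
      rw [h2, sub_zero, add_mul]
      linarith
  · have h2 : P4b_psi N r ρ F κ L x v t = 0 := by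
      unfold P4b_psi
      rw [chi_zero N r ρ (2 * ρ) (not_le.1 hx).le, zero_mul]
    by_cases hx' : Metric.infDist x' N ≤ 2 * ρ
    · have h1 := hout x' x v t' t hx' hx
      rw [norm_sub_rev x' x, abs_sub_comm t' t] at h1
      rw [h2, zero_sub, abs_neg, add_mul]
      linarith
    · have h3 : P4b_psi N r ρ F κ L x' v t' = 0 := by
        unfold P4b_psi
        rw [chi_zero N r ρ (2 * ρ) (not_le.1 hx').le, zero_mul]
      rw [h2, h3, sub_zero, abs_zero]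
      positivity

theorem Lt_at (h : Tb β N r R) (hF : FinsP β N r F mF MF A κ) (hL : LagS β N r R m L)
    (hA : AP N r F κ M L) (hM : 0 ≤ M) (hρ : 0 < ρ) (hR : 2 * ρ < R) (hΛ : 0 ≤ Λ) :
    ∃ C : ℝ, 0 ≤ C ∧ EscT.AT (Fs N r ρ Λ κ F) κ C (Lt N r ρ Λ L) ∧ ∀ x v t,
      |Lt N r ρ Λ L x v t - κ t * Fs N r ρ Λ κ F x v t ^ 2 / 2| ≤ C * (1 + ‖v‖) := by
  obtain ⟨C1, hC1, h1⟩ := P4b_psi_v (F := F) (κ := κ) (L := L) h hA hM hR
  obtain ⟨C2, hC2, h2⟩ := P4b_psi_x h hF hL hA hM hρ hR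
  obtain ⟨C3, hC3, h3⟩ := P4b_phi_bd h hF hL hA hM hR
  have he : ∀ x v t, Lt N r ρ Λ L x v t - κ t * Fs N r ρ Λ κ F x v t ^ 2 / 2 =
      P4b_psi N r ρ F κ L x v t := by
    intro x v t
    rw [Lt_eq hF ρ hΛ L x v t]
    rfl
  refine ⟨C1 + C2 + C3, by positivity, ?_, ?_⟩
  · intro x v t x' v' t'
    rw [he, he]
    have e : P4b_psi N r ρ F κ L x v t - P4b_psi N r ρ F κ L x' v' t' =
        (P4b_psi N r ρ F κ L x v t - P4b_psi N r ρ F κ L x' v t') +
        (P4b_psi N r ρ F κ L x' v t' - P4b_psi N r ρ F κ L x' v' t') := by ring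
    rw [e]
    refine (abs_add_le _ _).trans ?_
    have h4 := h2 x x' v t t'
    have h5 := h1 x' v v' t'
    have hK : 0 ≤ (1 + ‖v‖) * (‖x - x'‖ + |t - t'|) := by positivity
    have hv : 0 ≤ ‖v - v'‖ := norm_nonneg _
    nlinarith [mul_nonneg hC1 hK, mul_nonneg hC3 hK, mul_nonneg hC2 hv, mul_nonneg hC3 hv]
  · intro x v t
    rw [he]
    have hv : 0 ≤ 1 + ‖v‖ := by positivity
    have h6 : |P4b_psi N r ρ F κ L x v t| ≤ C3 * (1 + ‖v‖) := by
      unfold P4b_psi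
      by_cases hx : Metric.infDist x N ≤ 2 * ρ
      · rw [abs_mul, abs_of_nonneg (chi_nonneg N r ρ (2 * ρ) x)]
        exact (mul_le_of_le_one_left (abs_nonneg _) (chi_le_one N r ρ (2 * ρ) x)).trans
          (h3 x v t hx)
      · rw [chi_zero N r ρ (2 * ρ) (not_le.1 hx).le, zero_mul, abs_zero]
        positivity
    nlinarith [mul_nonneg hC1 hv, mul_nonneg hC2 hv]

end EscMT
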