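import Pool.Agent.EscMT.P4a
import Pool.Agent.EscMT.P4b

set_option autoImplicit false
set_option linter.unusedSectionVars false

/-!
Project EscMT, module P4c: the extended Lagrangian is of class `TG`.
Assembly. `l_t`: `AT` with `x = x'`, `v = v'` and `|κ Fs²(t) - κ Fs²(t')| ≤ C ‖v‖² |t - t'|` (`Fs_lip`, `κ_lip`, `Fs_fins`). `l_bd`: `Lt_at` and `Fs ≤ MF' ‖v‖`. Periodicity as in `EscM/A7c.lean`. Take the maximum of the constants
(`AT` is monotone in its constant).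
-/

noncomputable section

namespace EscMT

open MeasureTheory Set Filter Topology Esc EscF EscG EscM
open scoped ContDiff

variable {ι : Type} [Fintype ι] {E : Type*} [NormedAddCommGroup E] [InnerProductSpace ℝ E]
  [FiniteDimensional ℝ E] {β : Module.Basis ι ℝ E} {N : Set E} {r : E → E} {R : ℝ}
variable {F : E → E → ℝ → ℝ} {mF MF A m M : ℝ} {κ : ℝ → ℝ} {L : E → E → ℝ → ℝ} {ρ Λ mF' MF' : ℝ}

theorem P4c_per (h : Tb β N r R) (hL : LagS β N r R m L) (hR : 2 * ρ < R) (i : ι) (x v : E)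
    (t : ℝ) : Lt N r ρ Λ L (x + β i) v t = Lt N r ρ Λ L x v t := by
  have hw : β i ∈ Submodule.span ℤ (Set.range β) := Submodule.subset_span (Set.mem_range_self i)
  have hc := h.chi_Lam (a := ρ) hR hw x
  unfold Lt
  rw [hc]
  by_cases hx : Metric.infDist x N < R
  · have e1 := h.r_Lam hw hx
    have e2 := h.fd_Lam hw hx
    have e3 := hL.per i (r x) (fderiv ℝ r x v) t (h.tan hx v)
    have e4 : Lg r ρ L (x + β i) v t = Lg r ρ L x v t := by
      unfold Lg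
      rw [e1, e2, e3, add_sub_add_right_eq_sub]
    rw [e4]
  · have h0 : chi N r ρ (2 * ρ) x = 0 := chi_zero N r ρ (2 * ρ) (by linarith [not_lt.1 hx])
    rw [h0, zero_mul, zero_mul]

theorem P4c_pert (h : Tb β N r R) (hL : LagS β N r R m L) (hR : 2 * ρ < R) (x v : E)
    (t : ℝ) : Lt N r ρ Λ L x v (t + 1) = Lt N r ρ Λ L x v t := by
  unfold Lt
  by_cases hx : Metric.infDist x N < R
  · have e3 := hL.pert (r x) (fderiv ℝ r x v) t (h.tan hx v)
    have e4 : Lg r ρ L x v (t + 1) = Lg r ρ L x v t := by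
      unfold Lg
      rw [e3]
    rw [e4]
  · have h0 : chi N r ρ (2 * ρ) x = 0 := chi_zero N r ρ (2 * ρ) (by linarith [not_lt.1 hx])
    rw [h0, zero_mul, zero_mul]

theorem Lt_tg (h : Tb β N r R) (hF : FinsP β N r F mF MF A κ) (hL : LagS β N r R m L)
    (hA : AP N r F κ M L) (hM : 0 ≤ M) (hρ : 0 < ρ) (hR : 2 * ρ < R) (hΛ : 0 < Λ) :
    ∃ m' M' : ℝ, EscT.TG β m' M' (Lt N r ρ Λ L) ∧
      EscT.AT (Fs N r ρ Λ κ F) κ M' (Lt N r ρ Λ L) := by
  obtain ⟨m', hm', hconv⟩ := Lt_conv h hL hρ hR hΛ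
  obtain ⟨C, hC, hAT, hbd⟩ := Lt_at h hF hL hA hM hρ hR hΛ.le
  obtain ⟨mF', MF', hfin⟩ := Fs_fins h hF hρ hR hΛ
  obtain ⟨A', hA', hlip⟩ := Fs_lip h hF hρ hR hΛ
  have hA0 : 0 < A := hF.A_pos
  have hMF : 0 ≤ MF' := (hfin 0).mF_pos.le.trans (hfin 0).mF_le
  have hκ : ∀ t, 0 < κ t := κ_pos' hF
  have hκA : ∀ t, κ t ≤ A := hF.κ_le
  have hup : ∀ x v t, Fs N r ρ Λ κ F x v t ≤ MF' * ‖v‖ := fun x v t => (hfin t).upp x v
  have h0 : ∀ x v t, 0 ≤ Fs N r ρ Λ κ F x v t := fun x v t => Fs_nonneg N r ρ Λ κ F x v t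
  have hsq : ∀ x v t, Fs N r ρ Λ κ F x v t ^ 2 ≤ MF' ^ 2 * ‖v‖ ^ 2 := fun x v t => by
    have := pow_le_pow_left₀ (h0 x v t) (hup x v t) 2
    rwa [mul_pow] at this
  obtain ⟨K, hK⟩ : ∃ K, K = 2 * C + A * MF' ^ 2 + A * (A' * (2 * MF')) := ⟨_, rfl⟩
  have hK0 : 0 ≤ K := by rw [hK]; positivity
  have hCK : C ≤ K := by
    have h1 : 0 ≤ A * MF' ^ 2 := by positivity
    have h2 : 0 ≤ A * (A' * (2 * MF')) := by positivity
    linarith
  have hv1 : ∀ v : E, 1 + ‖v‖ ≤ 2 * (1 + ‖v‖ ^ 2) := fun v => by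
    nlinarith [sq_nonneg (‖v‖ - 1), norm_nonneg v]
  refine ⟨m', K, ?_, ?_⟩
  · refine
      { m_pos := hm'
        M_nonneg := hK0
        smooth := Lt_smooth h hL hρ hR Λ
        per := fun i x v t => P4c_per h hL hR i x v t
        pert := fun x v t => P4c_pert h hL hR x v t
        conv := hconv
        l_t := fun x v t t' => ?_
        l_bd := fun x v t => ?_ }
    · have h1 := hAT x v t x v t'
      rw [sub_self, sub_self, norm_zero, zero_add, zero_add] at h1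
      obtain ⟨a, ha⟩ : ∃ a, a = Fs N r ρ Λ κ F x v t := ⟨_, rfl⟩
      obtain ⟨b, hb⟩ : ∃ b, b = Fs N r ρ Λ κ F x v t' := ⟨_, rfl⟩
      have e1 := hsq x v t
      have e2 := hup x v t
      have e3 := hup x v t'
      have e4 := h0 x v t
      have e5 := h0 x v t'
      have e6 := hlip x v t t'
      rw [← ha] at h1 e1 e2 e4 e6
      rw [← hb] at h1 e3 e5 e6
      have e7 : |κ t * a ^ 2 - κ t' * b ^ 2| ≤
          (A * MF' ^ 2 + A * (A' * (2 * MF'))) * ‖v‖ ^ 2 * |t - t'| := by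
        have f1 : κ t * a ^ 2 - κ t' * b ^ 2 = (κ t - κ t') * a ^ 2 + κ t' * ((a - b) * (a + b)) := by
          ring
        rw [f1]
        refine (abs_add_le _ _).trans ?_
        rw [abs_mul, abs_mul, abs_mul, abs_of_nonneg (sq_nonneg a), abs_of_pos (hκ t'),
          abs_of_nonneg (add_nonneg e4 e5)]
        have f2 : |κ t - κ t'| * a ^ 2 ≤ A * |t - t'| * (MF' ^ 2 * ‖v‖ ^ 2) :=
          mul_le_mul (hF.κ_lip t t') e1 (sq_nonneg a) (by positivity)
        have f3 : |a - b| * (a + b) ≤ A' * ‖v‖ * |t - t'| * (2 * MF' * ‖v‖) :=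
          mul_le_mul e6 (by linarith) (add_nonneg e4 e5) (by positivity)
        have f4 : κ t' * (|a - b| * (a + b)) ≤ A * (A' * ‖v‖ * |t - t'| * (2 * MF' * ‖v‖)) :=
          mul_le_mul (hκA t') f3 (mul_nonneg (abs_nonneg _) (add_nonneg e4 e5)) hA0.le
        refine (add_le_add f2 f4).trans (le_of_eq ?_)
        ring
      have e8 : Lt N r ρ Λ L x v t - Lt N r ρ Λ L x v t' =
          (Lt N r ρ Λ L x v t - κ t * a ^ 2 / 2 - (Lt N r ρ Λ L x v t' - κ t' * b ^ 2 / 2)) +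
            (κ t * a ^ 2 - κ t' * b ^ 2) / 2 := by ring
      rw [e8]
      refine (abs_add_le _ _).trans ?_
      rw [abs_div, abs_two]
      have g1 : C * ((1 + ‖v‖) * |t - t'|) ≤ 2 * C * ((1 + ‖v‖ ^ 2) * |t - t'|) := by
        have g2 := mul_le_mul_of_nonneg_right (hv1 v) (abs_nonneg (t - t'))
        have g3 := mul_le_mul_of_nonneg_left g2 hC
        refine g3.trans (le_of_eq ?_)
        ring
      have g4 : (A * MF' ^ 2 + A * (A' * (2 * MF'))) * ‖v‖ ^ 2 * |t - t'| ≤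
          (A * MF' ^ 2 + A * (A' * (2 * MF'))) * ((1 + ‖v‖ ^ 2) * |t - t'|) := by
        rw [mul_assoc]
        refine mul_le_mul_of_nonneg_left (mul_le_mul_of_nonneg_right ?_ (abs_nonneg _)) (by positivity)
        linarith
      have g5 : 0 ≤ (A * MF' ^ 2 + A * (A' * (2 * MF'))) * ((1 + ‖v‖ ^ 2) * |t - t'|) := by positivity
      have g6 : K * (1 + ‖v‖ ^ 2) * |t - t'| = 2 * C * ((1 + ‖v‖ ^ 2) * |t - t'|) +
          (A * MF' ^ 2 + A * (A' * (2 * MF'))) * ((1 + ‖v‖ ^ 2) * |t - t'|) := by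
        rw [hK]
        ring
      rw [g6]
      linarith
    · have h1 := hbd x v t
      have e1 := hsq x v t
      have e2 : |κ t * Fs N r ρ Λ κ F x v t ^ 2 / 2| ≤ A * (MF' ^ 2 * ‖v‖ ^ 2) := by
        have f1 : 0 ≤ κ t * Fs N r ρ Λ κ F x v t ^ 2 := mul_nonneg (hκ t).le (sq_nonneg _)
        rw [abs_of_nonneg (by linarith)]
        have f2 : κ t * Fs N r ρ Λ κ F x v t ^ 2 ≤ A * (MF' ^ 2 * ‖v‖ ^ 2) :=
          mul_le_mul (hκA t) e1 (sq_nonneg _) hA0.le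
        linarith
      have e3 : Lt N r ρ Λ L x v t = (Lt N r ρ Λ L x v t - κ t * Fs N r ρ Λ κ F x v t ^ 2 / 2) +
          κ t * Fs N r ρ Λ κ F x v t ^ 2 / 2 := by ring
      rw [e3]
      refine (abs_add_le _ _).trans ((add_le_add h1 e2).trans ?_)
      have g1 : C * (1 + ‖v‖) ≤ 2 * C * (1 + ‖v‖ ^ 2) := by
        have g3 := mul_le_mul_of_nonneg_left (hv1 v) hC
        linarith
      have g2 : 0 ≤ A * MF' ^ 2 := by positivity
      have g3 : 0 ≤ A * (A' * (2 * MF')) * (1 + ‖v‖ ^ 2) := by positivity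
      rw [hK]
      nlinarith
  · intro x v t x' v' t'
    exact (hAT x v t x' v' t').trans (mul_le_mul_of_nonneg_right hCK (by positivity))

end EscMT
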