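import Pool.Agent.EscMT.P1
import Pool.Agent.EscMT.P3
import Pool.Agent.EscT.EB

set_option autoImplicit false
set_option linter.unusedSectionVars false

/-!
Project EscMT, module P6: the moving calibrated curve in `E`.
All fields of `CalT` from `P2`, `P3`, from `EscM.Ext.calC` for `ExtP.fr` (`B_le`, `only`; divide by `√(κ t)`), from `Fs_tan` and `CalN.tan`-type arguments (`unit`, `cal`: `(c σ t, c' σ t) ∈ TN`, since `r ∘ c = c`); `tan` from
`EscT.tan_of` (module EB). `A'` is the maximum of `A` and the constants of `Fs_lip`, `Bs_dlip`. `c` is jointly continuous since its partial derivatives are continuous.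
-/

noncomputable section

namespace EscMT

open MeasureTheory Set Filter Topology Esc EscF EscG EscM
open scoped ContDiff

variable {ι : Type} [Fintype ι] {E : Type*} [NormedAddCommGroup E] [InnerProductSpace ℝ E]
  [FiniteDimensional ℝ E] {β : Module.Basis ι ℝ E} {N : Set E} {r : E → E} {R : ℝ}
variable {F : E → E → ℝ → ℝ} {mF MF A : ℝ} {κ : ℝ → ℝ} {B : E → ℝ → ℝ} {k0 : ι} {len : ℝ}
  {c c' ct : ℝ → ℝ → E} {ℓ : E →L[ℝ] ℝ} {ρ C Λ mF' MF' : ℝ}

/-- `(c, c')` is tangent to `N` -/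
theorem P6_tan (h : ExtP β N r R F mF MF A κ B k0 len c c' ct ℓ ρ C Λ) (σ t : ℝ) :
    (c σ t, c' σ t) ∈ TN N r := by
  refine ⟨h.cp.mem σ t, ?_⟩
  have h0 : Metric.infDist (c σ t) N < R := by
    rw [Metric.infDist_zero_of_mem (h.cp.mem σ t)]
    exact h.tb.R_pos
  have h1 : HasDerivAt (fun s => r (c s t)) (fderiv ℝ r (c σ t) (c' σ t)) σ :=
    (h.tb.diff h0).hasFDerivAt.comp_hasDerivAt σ (h.cp.c_σ σ t)
  have h2 : (fun s => r (c s t)) = fun s => c s t := by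
    funext s
    exact h.tb.r_eq (h.cp.mem s t)
  rw [h2] at h1
  exact h1.unique (h.cp.c_σ σ t)

theorem P6_Λ (h : ExtP β N r R F mF MF A κ B k0 len c c' ct ℓ ρ C Λ) : 0 < Λ := by
  have h1 := h.Λ_gt
  have h2 := sq_nonneg C
  linarith

theorem P6_hR2 (h : ExtP β N r R F mF MF A κ B k0 len c c' ct ℓ ρ C Λ) : 2 * ρ < R := by
  have h1 := h.ρ_lt
  have h2 := h.ρ_pos
  linarith

theorem P6_hR4 (h : ExtP β N r R F mF MF A κ B k0 len c c' ct ℓ ρ C Λ) : 4 * ρ < R := by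
  have h1 := h.ρ_lt
  have h2 := h.ρ_pos
  linarith

/-- the extension of `√κ B` -/
theorem P6_Bt (N : Set E) (r : E → E) (ρ : ℝ) (B : E → ℝ → ℝ) (ℓ : E →L[ℝ] ℝ) (a t : ℝ) :
    Bt N r ρ (fun x => a * B x t) (a • ℓ) = fun x => a * Bs N r ρ B ℓ x t := by
  funext x
  simp only [Bt, Bs, Pi.smul_apply, smul_eq_mul]
  ring

theorem P6_diff (h : ExtP β N r R F mF MF A κ B k0 len c c' ct ℓ ρ C Λ) (x : E) (t : ℝ) :
    DifferentiableAt ℝ (fun y => Bs N r ρ B ℓ y t) x := by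
  have h1 := Bs_smooth h.tb h.cp h.ρ_pos (P6_hR4 h) ℓ
  have h2 : ContDiff ℝ 1 (fun y : E => (y, t)) := contDiff_id.prodMk contDiff_const
  exact ((h1.comp h2).differentiable (by norm_num)).differentiableAt

theorem P6_fd (h : ExtP β N r R F mF MF A κ B k0 len c c' ct ℓ ρ C Λ) (x v : E) (t : ℝ) :
    fderiv ℝ (Bt N r ρ (fun x => √(κ t) * B x t) (√(κ t) • ℓ)) x v =
      √(κ t) * fderiv ℝ (fun y => Bs N r ρ B ℓ y t) x v := by
  rw [P6_Bt, fderiv_const_mul (P6_diff h x t)]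
  rfl

theorem P6_calC (h : ExtP β N r R F mF MF A κ B k0 len c c' ct ℓ ρ C Λ)
    (hf : ∀ t, Fins β (fun x v => Fs N r ρ Λ κ F x v t) mF' MF') (t : ℝ) :
    CalC β (Ft N r ρ Λ (sF κ F t)) (√(κ t) * mF') (√(κ t) * MF')
      (Bt N r ρ (fun x => √(κ t) * B x t) (√(κ t) • ℓ)) k0 (√(κ t) * len)
      (fun τ => c (τ / √(κ t)) t) (fun τ => (√(κ t))⁻¹ • c' (τ / √(κ t)) t) :=
  (h.fr t).calC (fins_fr h hf t)

theorem P6_sq (h : ExtP β N r R F mF MF A κ B k0 len c c' ct ℓ ρ C Λ) (t : ℝ) : 0 < √(κ t) :=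
  Real.sqrt_pos.2 (κ_pos' h.fp t)

theorem P6_le (h : ExtP β N r R F mF MF A κ B k0 len c c' ct ℓ ρ C Λ)
    (hf : ∀ t, Fins β (fun x v => Fs N r ρ Λ κ F x v t) mF' MF') (x v : E) (t : ℝ) :
    fderiv ℝ (fun y => Bs N r ρ B ℓ y t) x v ≤ Fs N r ρ Λ κ F x v t := by
  have h1 := (P6_calC h hf t).le x v
  rw [P6_fd h, ← Fs_eq h.fp] at h1
  exact le_of_mul_le_mul_left h1 (P6_sq h t)

theorem P6_unit (h : ExtP β N r R F mF MF A κ B k0 len c c' ct ℓ ρ C Λ) (σ t : ℝ) :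
    Fs N r ρ Λ κ F (c σ t) (c' σ t) t = 1 := by
  rw [Fs_tan h.tb h.fp h.ρ_pos (P6_hR2 h) Λ (P6_tan h σ t) t]
  exact h.cp.unit σ t

theorem P6_cal (h : ExtP β N r R F mF MF A κ B k0 len c c' ct ℓ ρ C Λ)
    (hf : ∀ t, Fins β (fun x v => Fs N r ρ Λ κ F x v t) mF' MF') (σ t : ℝ) :
    fderiv ℝ (fun y => Bs N r ρ B ℓ y t) (c σ t) (c' σ t) = 1 := by
  have hs := P6_sq h t
  have h1 := (P6_calC h hf t).cal (√(κ t) * σ)
  have h2 : √(κ t) * σ / √(κ t) = σ := mul_div_cancel_left₀ σ hs.ne'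
  simp only [h2] at h1
  rw [P6_fd h, map_smul, smul_eq_mul, ← mul_assoc, mul_inv_cancel₀ hs.ne', one_mul] at h1
  exact h1

theorem P6_only (h : ExtP β N r R F mF MF A κ B k0 len c c' ct ℓ ρ C Λ)
    (hf : ∀ t, Fins β (fun x v => Fs N r ρ Λ κ F x v t) mF' MF') (x v : E) (t : ℝ) (hv : v ≠ 0)
    (he : fderiv ℝ (fun y => Bs N r ρ B ℓ y t) x v = Fs N r ρ Λ κ F x v t) :
    ∃ σ : ℝ, ∃ w ∈ Submodule.span ℤ (Set.range β), x = c σ t + w := by
  obtain ⟨τ, w, hw, hx⟩ := (P6_calC h hf t).only x v hv (by rw [P6_fd h, he, Fs_eq h.fp])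
  exact ⟨τ / √(κ t), w, hw, hx⟩

theorem P6_cont (h : ExtP β N r R F mF MF A κ B k0 len c c' ct ℓ ρ C Λ)
    (hf : ∀ t, Fins β (fun x v => Fs N r ρ Λ κ F x v t) mF' MF') :
    Continuous fun p : ℝ × ℝ => c p.1 p.2 := by
  have hm : 0 < mF' := (hf 0).mF_pos
  have hb : ∀ σ t, ‖c' σ t‖ ≤ mF'⁻¹ := by
    intro σ t
    have h1 := (hf t).low (c σ t) (c' σ t)
    have h2 := P6_unit h σ t
    rw [← one_div, le_div_iff₀ hm]
    simp only [h2] at h1
    linarith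
  have hl : ∀ s s' t, ‖c s t - c s' t‖ ≤ mF'⁻¹ * |s - s'| := by
    intro s s' t
    have h1 := (convex_univ (𝕜 := ℝ) (E := ℝ)).norm_image_sub_le_of_norm_hasDerivWithin_le
      (f := fun σ => c σ t) (f' := fun σ => c' σ t) (C := mF'⁻¹)
      (fun σ _ => (h.cp.c_σ σ t).hasDerivWithinAt) (fun σ _ => hb σ t)
      (mem_univ s') (mem_univ s)
    rwa [Real.norm_eq_abs] at h1
  rw [Metric.continuous_iff]
  rintro ⟨s, t⟩ ε hε
  have h1 : Continuous fun t => c s t :=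
    continuous_iff_continuousAt.mpr fun t => (h.cp.c_t s t).continuousAt
  obtain ⟨δ, hδ, H⟩ := Metric.continuous_iff.1 h1 t (ε / 2) (by positivity)
  refine ⟨min δ (mF' * (ε / 2)), lt_min hδ (by positivity), ?_⟩
  rintro ⟨s', t'⟩ hst
  rw [Prod.dist_eq, max_lt_iff] at hst
  obtain ⟨h2, h3⟩ := hst
  simp only at h2 h3 ⊢
  have h4 := H t' (h3.trans_le (min_le_left _ _))
  have h5 := hl s' s t'
  have h6 : |s' - s| < mF' * (ε / 2) := by
    rw [← Real.dist_eq]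
    exact h2.trans_le (min_le_right _ _)
  have h7 : mF'⁻¹ * |s' - s| < ε / 2 := by
    rw [inv_mul_lt_iff₀ hm]
    exact h6
  calc dist (c s' t') (c s t) ≤ dist (c s' t') (c s t') + dist (c s t') (c s t) := dist_triangle _ _ _
    _ < ε / 2 + ε / 2 := by
        rw [dist_eq_norm (c s' t')]
        exact add_lt_add (h5.trans_lt h7) h4
    _ = ε := add_halves ε

theorem ExtP.calT (h : ExtP β N r R F mF MF A κ B k0 len c c' ct ℓ ρ C Λ) {m M MA : ℝ}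
    {l : E → E → ℝ → ℝ} (hf : ∀ t, Fins β (fun x v => Fs N r ρ Λ κ F x v t) mF' MF')
    (hl : EscT.TG β m M l) (hA : EscT.AT (Fs N r ρ Λ κ F) κ MA l) : ∃ A' : ℝ,
      EscT.CalT β (Fs N r ρ Λ κ F) mF' MF' A' κ (Bs N r ρ B ℓ) k0 len c c' ct := by
  have hR2 := P6_hR2 h
  have hR4 := P6_hR4 h
  have hΛ := P6_Λ h
  obtain ⟨A1, hA1, h1⟩ := Fs_lip h.tb h.fp h.ρ_pos hR2 hΛ
  obtain ⟨A2, hA2, h2⟩ := Bs_dlip h.tb h.cp h.ρ_pos hR4 h.fp.A_pos.le h.ell
  obtain ⟨A', hA'⟩ : ∃ A', A' = max A (max A1 A2) := ⟨_, rfl⟩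
  have i0 : A ≤ A' := by rw [hA']; exact le_max_left _ _
  have i1 : A1 ≤ A' := by rw [hA']; exact (le_max_left _ _).trans (le_max_right _ _)
  have i2 : A2 ≤ A' := by rw [hA']; exact (le_max_right _ _).trans (le_max_right _ _)
  have hFc := Fs_cont h.tb h.fp h.ρ_pos hR2 hΛ
  have hFp := Fs_pert h.tb h.fp h.ρ_pos hR2 Λ
  have hBs := Bs_smooth h.tb h.cp h.ρ_pos hR4 ℓ
  have hBt := Bs_pert h.tb h.cp hR4 (ρ := ρ) ℓ
  have hBp : ∀ i, ∃ a : ℝ, ∀ x t, Bs N r ρ B ℓ (x + β i) t = Bs N r ρ B ℓ x t + a :=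
    fun i => ⟨ℓ (β i), fun x t => h.tb.Bt_per (B := fun y => B y t) hR4
      (fun j y hy => h.ell j y hy t) i x⟩
  refine ⟨A',
    { fins := hf
      A_pos := h.fp.A_pos.trans_le i0
      F_cont := hFc
      F_per := hFp
      F_lip := fun x v t t' => (h1 x v t t').trans (by gcongr)
      κ_per := h.fp.κ_per
      κ_pos := fun t => (h.fp.κ_pos t).trans (mul_le_mul_of_nonneg_right i0 (κ_pos' h.fp t).le)
      κ_le := fun t => (h.fp.κ_le t).trans i0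
      κ_lip := fun t t' => (h.fp.κ_lip t t').trans (by gcongr)
      B_smooth := hBs
      B_pert := hBt
      B_per := hBp
      B_le := P6_le h hf
      B_dlip := fun x v t t' => (h2 x v t t').trans (by gcongr)
      len_pos := h.cp.len_pos
      c_σ := h.cp.c_σ
      c_t := h.cp.c_t
      c'_cont := h.cp.c'_cont
      ct_cont := h.cp.ct_cont
      closed := h.cp.closed
      c_per := h.cp.c_per
      unit := P6_unit h
      cal := P6_cal h hf
      only := P6_only h hf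
      simple := h.cp.simple
      tan := ?_ }⟩
  intro ε hε
  exact EscT.tan_of hf hFc hFp h.fp.κ_pos h.fp.κ_le h.fp.κ_per h.fp.κ_lip hBs hBt hBp (P6_le h hf)
    h.cp.c_σ h.cp.c'_cont (P6_cont h hf) h.cp.len_pos h.cp.closed h.cp.c_per (P6_unit h)
    (P6_cal h hf) hl hA hε

end EscMT
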