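import Pool.Agent.EscMT.P1
import Pool.Agent.EscM.A8b
import Pool.Agent.EscM.A8c

set_option autoImplicit false

/-!
Project EscMT, module P7: passing costs and the projection, uniformly in time.
`leg`: `EscM.Ext.leg` for `ExtP.fr`, divided by `√(κ t)` (`j_fr`); `κ t ≤ A`. `secBound`: `EscM.Sec.bound` at time `0`, `1 ≤ A κ`.
-/

noncomputable section

namespace EscMT

open MeasureTheory Set Filter Topology Esc EscF EscG EscM
open scoped ContDiff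

variable {ι : Type} [Fintype ι] {E : Type*} [NormedAddCommGroup E] [InnerProductSpace ℝ E]
  [FiniteDimensional ℝ E] {β : Module.Basis ι ℝ E} {N : Set E} {r : E → E} {R : ℝ}
variable {F : E → E → ℝ → ℝ} {mF MF A : ℝ} {κ : ℝ → ℝ} {B : E → ℝ → ℝ} {k0 : ι} {len : ℝ}
  {c c' ct : ℝ → ℝ → E} {ℓ : E →L[ℝ] ℝ} {ρ C Λ mF' MF' : ℝ}

theorem P7_sqrt_pos (h : ExtP β N r R F mF MF A κ B k0 len c c' ct ℓ ρ C Λ) (t : ℝ) :
    0 < √(κ t) ∧ √(κ t) ≤ √A ∧ 1 ≤ √A * √(κ t) := by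
  have hA := h.fp.A_pos
  have h1 := h.fp.κ_pos t
  have h2 : 0 < κ t := by
    by_contra hcon
    rw [not_lt] at hcon
    have := mul_nonpos_of_nonneg_of_nonpos hA.le hcon
    linarith
  refine ⟨Real.sqrt_pos.mpr h2, Real.sqrt_le_sqrt (h.fp.κ_le t), ?_⟩
  rw [← Real.sqrt_mul hA.le]
  exact Real.one_le_sqrt.mpr h1

theorem ExtP.leg (h : ExtP β N r R F mF MF A κ B k0 len c c' ct ℓ ρ C Λ)
    (hf : ∀ t, Fins β (fun x v => Fs N r ρ Λ κ F x v t) mF' MF') (A' : ℝ) (g : E) (t : ℝ) {x y : E}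
    (hxy : x ∈ N ∨ y ∈ N)
    (hj : (EscT.gdT β (Fs N r ρ Λ κ F) mF' MF' A' κ (Bs N r ρ B ℓ) k0 len c g).j t x y <
      √Λ / (2 * √A) * ρ) :
    Metric.infDist x N < 3 * ρ ∧ Metric.infDist y N < 3 * ρ ∧
      (EscT.gdT β (Fs N r ρ Λ κ F) mF' MF' A' κ (Bs N r ρ B ℓ) k0 len c g).j t (r x) (r y) +
          1 / (4 * ρ * (A * MF')) * |Metric.infDist x N ^ 2 - Metric.infDist y N ^ 2| ≤
        (EscT.gdT β (Fs N r ρ Λ κ F) mF' MF' A' κ (Bs N r ρ B ℓ) k0 len c g).j t x y := by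
  have hA := h.fp.A_pos
  have hρ := h.ρ_pos
  obtain ⟨hs, hsA, -⟩ := P7_sqrt_pos h t
  have hκ : √(κ t) * √(κ t) ≤ A := by
    rw [Real.mul_self_sqrt (by
      by_contra hcon
      rw [not_le] at hcon
      rw [Real.sqrt_eq_zero_of_nonpos hcon.le] at hs
      exact lt_irrefl _ hs)]
    exact h.fp.κ_le t
  have hMF : 0 < MF' := (hf t).mF_pos.trans_le (hf t).mF_le
  have hsqA : 0 < √A := Real.sqrt_pos.mpr hA
  obtain ⟨s, hsd⟩ : ∃ s, √(κ t) = s := ⟨_, rfl⟩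
  have hfr := h.fr t
  have hff := fins_fr h hf t
  have e1 := j_fr h (mF' := mF') (MF' := MF') A' g t x y
  have e2 := j_fr h (mF' := mF') (MF' := MF') A' g t (r x) (r y)
  have hlt : (gdC β (Ft N r ρ Λ (sF κ F t)) (√(κ t) * mF') (√(κ t) * MF')
      (Bt N r ρ (fun x => √(κ t) * B x t) (√(κ t) • ℓ)) k0 (√(κ t) * len)
      (fun τ => c (τ / √(κ t)) t) g).j x y < √Λ / 2 * ρ := by
    rw [e1]
    have h1 := mul_lt_mul_of_pos_left hj hs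
    refine h1.trans_le ?_
    have h2 : √(κ t) * (√Λ / (2 * √A) * ρ) ≤ √A * (√Λ / (2 * √A) * ρ) := by
      apply mul_le_mul_of_nonneg_right hsA
      positivity
    refine h2.trans (le_of_eq ?_)
    field_simp
  have h3 := hfr.leg hff g hxy hlt
  rw [show (⇑(√(κ t) • ℓ) : E → ℝ) = √(κ t) • ⇑ℓ from rfl] at h3
  rw [e1, e2] at h3
  refine ⟨h3.1, h3.2.1, ?_⟩
  have h4 := h3.2.2
  rw [hsd] at h4 hs hκ
  obtain ⟨a, ha⟩ : ∃ a, (EscT.gdT β (Fs N r ρ Λ κ F) mF' MF' A' κ (Bs N r ρ B ℓ) k0 len c g).j t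
    (r x) (r y) = a := ⟨_, rfl⟩
  obtain ⟨b, hb⟩ : ∃ b, (EscT.gdT β (Fs N r ρ Λ κ F) mF' MF' A' κ (Bs N r ρ B ℓ) k0 len c g).j t
    x y = b := ⟨_, rfl⟩
  obtain ⟨d, hd⟩ : ∃ d, |Metric.infDist x N ^ 2 - Metric.infDist y N ^ 2| = d := ⟨_, rfl⟩
  have hd0 : 0 ≤ d := by rw [← hd]; exact abs_nonneg _
  rw [ha, hb, hd] at h4
  rw [ha, hb, hd]
  have h5 : s * (1 / (4 * ρ * (A * MF')) * d) ≤ 1 / (4 * ρ * (s * MF')) * d := by
    have h6 : s * (1 / (4 * ρ * (A * MF'))) ≤ 1 / (4 * ρ * (s * MF')) := by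
      rw [mul_one_div, div_le_div_iff₀ (by positivity) (by positivity)]
      have h7 : s * (4 * ρ * (s * MF')) = (s * s) * (4 * ρ * MF') := by ring
      have h8 : 1 * (4 * ρ * (A * MF')) = A * (4 * ρ * MF') := by ring
      rw [h7, h8]
      exact mul_le_mul_of_nonneg_right hκ (by positivity)
    calc s * (1 / (4 * ρ * (A * MF')) * d) = (s * (1 / (4 * ρ * (A * MF')))) * d := by ring
      _ ≤ 1 / (4 * ρ * (s * MF')) * d := mul_le_mul_of_nonneg_right h6 hd0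
  have h6 : s * (a + 1 / (4 * ρ * (A * MF')) * d) ≤ s * b := by
    rw [mul_add]
    linarith
  exact le_of_mul_le_mul_left h6 hs

theorem secBound (h : Tb β N r R) {x0 v0 : E} (hs : Sec β N k0 x0 v0) (hρ : 0 < ρ) :
    ∃ K : ℝ, 0 ≤ K ∧ ∀ (F : E → E → ℝ → ℝ) (mF MF A : ℝ) (κ : ℝ → ℝ) (B : E → ℝ → ℝ) (len : ℝ)
      (c c' ct : ℝ → ℝ → E) (ℓ : E →L[ℝ] ℝ) (C Λ mF' MF' A' : ℝ) (g : E),
        ExtP β N r R F mF MF A κ B k0 len c c' ct ℓ ρ C Λ →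
        (∀ t, Fins β (fun x v => Fs N r ρ Λ κ F x v t) mF' MF') →
          (EscT.gdT β (Fs N r ρ Λ κ F) mF' MF' A' κ (Bs N r ρ B ℓ) k0 len c g).j 0 x0 (x0 + v0) ≤
            K * C * √A := by
  obtain ⟨K, hK, hb⟩ := Sec.bound h hs hρ
  refine ⟨K, hK, fun F mF MF A κ B len c c' ct ℓ C Λ mF' MF' A' g hE hf => ?_⟩
  have h1 := hb R (sF κ F 0) (√(κ 0) * mF) (√(κ 0) * MF) (fun x => √(κ 0) * B x 0) (√(κ 0) * len)
    (fun τ => c (τ / √(κ 0)) 0) (fun τ => (√(κ 0))⁻¹ • c' (τ / √(κ 0)) 0) (√(κ 0) • ℓ) C Λ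
    (√(κ 0) * mF') (√(κ 0) * MF') g (hE.fr 0) (fins_fr hE hf 0)
  rw [show (⇑(√(κ 0) • ℓ) : E → ℝ) = √(κ 0) • ⇑ℓ from rfl] at h1
  rw [j_fr hE (mF' := mF') (MF' := MF') A' g 0 x0 (x0 + v0)] at h1
  obtain ⟨h2, -, h3⟩ := P7_sqrt_pos hE 0
  have hC : 0 ≤ K * C := mul_nonneg hK (zero_le_one.trans hE.C_ge)
  obtain ⟨b, hb⟩ : ∃ b, (EscT.gdT β (Fs N r ρ Λ κ F) mF' MF' A' κ (Bs N r ρ B ℓ) k0 len c g).j 0
    x0 (x0 + v0) = b := ⟨_, rfl⟩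
  rw [hb] at h1 ⊢
  rcases le_or_gt b 0 with hb0 | hb0
  · exact hb0.trans (mul_nonneg hC (Real.sqrt_nonneg _))
  · have h4 : b ≤ (√A * √(κ 0)) * b := le_mul_of_one_le_left hb0.le h3
    have h5 := mul_le_mul_of_nonneg_left h1 (Real.sqrt_nonneg A)
    have e : √A * (√(κ 0) * b) = (√A * √(κ 0)) * b := by ring
    rw [e, mul_comm (√A) (K * C)] at h5
    exact h4.trans h5

end EscMT
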