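import Pool.Agent.EscMT.P7
import Pool.Agent.EscT.C4

set_option autoImplicit false

/-!
Project EscMT, module P8: optimal passages are near `N`, uniformly in time.
As `EscM/A8d.lean`, `EscM/A8e.lean`: `U t = D.j t (c 0 t) (c 0 t + g) ≥ D.Us` (infimum over the time, `j ≥ 0`). `Nr`, `Near`, `POk`: `EscT/TDefs.lean`; parameters: `EscT.exists_par` (module C4).
-/

noncomputable section

namespace EscMT

open MeasureTheory Set Filter Topology Esc EscF EscG EscM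
open scoped ContDiff

variable {ι : Type} [Fintype ι] {E : Type*} [NormedAddCommGroup E] [InnerProductSpace ℝ E]
  [FiniteDimensional ℝ E] {β : Module.Basis ι ℝ E} {N : Set E} {r : E → E} {R : ℝ}
variable {F : E → E → ℝ → ℝ} {mF MF A : ℝ} {κ : ℝ → ℝ} {B : E → ℝ → ℝ} {k0 : ι} {len : ℝ}
  {c c' ct : ℝ → ℝ → E} {ℓ : E →L[ℝ] ℝ} {ρ C Λ mF' MF' : ℝ}

theorem ExtP.tube (h : ExtP β N r R F mF MF A κ B k0 len c c' ct ℓ ρ C Λ)
    (hf : ∀ t, Fins β (fun x v => Fs N r ρ Λ κ F x v t) mF' MF') {A' : ℝ} {g : E}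
    (hD : (EscT.gdT β (Fs N r ρ Λ κ F) mF' MF' A' κ (Bs N r ρ B ℓ) k0 len c g).Ok)
    (hU : (EscT.gdT β (Fs N r ρ Λ κ F) mF' MF' A' κ (Bs N r ρ B ℓ) k0 len c g).Us <
      √Λ / (2 * √A) * ρ) {δ : ℝ} (hδ : 0 < δ) :
    ∃ δ0 : ℝ, 0 < δ0 ∧ ∀ t x, (Metric.infDist x (Set.range fun σ => c σ t) ≤ δ0 ∨
      (EscT.gdT β (Fs N r ρ Λ κ F) mF' MF' A' κ (Bs N r ρ B ℓ) k0 len c g).j t (c 0 t) x +
          (EscT.gdT β (Fs N r ρ Λ κ F) mF' MF' A' κ (Bs N r ρ B ℓ) k0 len c g).j t x (c 0 t + g) ≤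
        (EscT.gdT β (Fs N r ρ Λ κ F) mF' MF' A' κ (Bs N r ρ B ℓ) k0 len c g).Us + δ0) →
      Metric.infDist x N < δ := by
  have hUs := fun t => EscT.Us_le hD t hD.g_mem hD.g_not
  have hjn := fun t x y => EscT.j_nonneg hD.toOk0 t x y
  have htri := fun t x y z => EscT.j_tri hD.toOk0 t x y z
  have hleg := fun (t : ℝ) {x y : E} => h.leg hf A' g t (x := x) (y := y)
  have hg : g ∈ Submodule.span ℤ (Set.range β) := hD.g_mem
  have hq : ∀ t, (EscT.gdT β (Fs N r ρ Λ κ F) mF' MF' A' κ (Bs N r ρ B ℓ) k0 len c g).q t = c 0 t :=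
    fun _ => rfl
  have hgg : (EscT.gdT β (Fs N r ρ Λ κ F) mF' MF' A' κ (Bs N r ρ B ℓ) k0 len c g).g = g := rfl
  simp only [hq, hgg] at hUs
  clear hq hgg
  generalize hDD : EscT.gdT β (Fs N r ρ Λ κ F) mF' MF' A' κ (Bs N r ρ B ℓ) k0 len c g = D at *
  have hMF : 0 < MF' := lt_of_lt_of_le (hf 0).mF_pos (hf 0).mF_le
  have hρ := h.ρ_pos
  have hA := h.fp.A_pos
  have hc0 : ∀ t, c 0 t ∈ N := h.cp.mem 0
  have hcg : ∀ t, c 0 t + g ∈ N := fun t => (h.tb.perN_Lam hg (c 0 t)).2 (hc0 t)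
  have hk : 0 < 2 * ρ * (A * MF') := by positivity
  refine ⟨min (δ / 2) (min ((√Λ / (2 * √A) * ρ - D.Us) / 2) (δ ^ 2 / 2 / (2 * ρ * (A * MF')))), ?_, ?_⟩
  · refine lt_min (by linarith) (lt_min (by linarith) (by positivity))
  · intro t x hx
    set δ0 := min (δ / 2) (min ((√Λ / (2 * √A) * ρ - D.Us) / 2) (δ ^ 2 / 2 / (2 * ρ * (A * MF'))))
    have e1 : δ0 ≤ δ / 2 := min_le_left _ _
    have e2 : δ0 ≤ (√Λ / (2 * √A) * ρ - D.Us) / 2 := (min_le_right _ _).trans (min_le_left _ _)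
    have e3 : δ0 ≤ δ ^ 2 / 2 / (2 * ρ * (A * MF')) := (min_le_right _ _).trans (min_le_right _ _)
    rcases hx with hx | hx
    · have : Metric.infDist x N ≤ Metric.infDist x (Set.range fun σ => c σ t) :=
        Metric.infDist_le_infDist_of_subset (by rintro _ ⟨σ, rfl⟩; exact h.cp.mem σ t) ⟨c 0 t, 0, rfl⟩
      linarith
    · have n1 := hjn t (c 0 t) x
      have n2 := hjn t x (c 0 t + g)
      have l1 := hleg t (x := c 0 t) (y := x) (Or.inl (hc0 t)) (by linarith)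
      have l2 := hleg t (x := x) (y := c 0 t + g) (Or.inr (hcg t)) (by linarith)
      rw [h.tb.r_eq (hc0 t), Metric.infDist_zero_of_mem (hc0 t)] at l1
      rw [h.tb.r_eq (hcg t), Metric.infDist_zero_of_mem (hcg t)] at l2
      have s0 := htri t (c 0 t) (r x) (c 0 t + g)
      have s1 := hUs t
      have a1 := l1.2.2
      have a2 := l2.2.2
      have b1 : |(0:ℝ) ^ 2 - Metric.infDist x N ^ 2| = Metric.infDist x N ^ 2 := by
        rw [zero_pow two_ne_zero, zero_sub, abs_neg, abs_of_nonneg (sq_nonneg _)]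
      have b2 : |Metric.infDist x N ^ 2 - (0:ℝ) ^ 2| = Metric.infDist x N ^ 2 := by
        rw [zero_pow two_ne_zero, sub_zero, abs_of_nonneg (sq_nonneg _)]
      rw [b1] at a1
      rw [b2] at a2
      have s : 2 * (1 / (4 * ρ * (A * MF')) * Metric.infDist x N ^ 2) ≤ δ0 := by linarith
      have s2 : Metric.infDist x N ^ 2 / (2 * ρ * (A * MF')) ≤ δ0 := by
        refine le_trans (le_of_eq ?_) s
        field_simp
        ring
      have s3 : Metric.infDist x N ^ 2 ≤ δ ^ 2 / 2 := by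
        have := s2.trans e3
        rwa [div_le_div_iff_of_pos_right hk] at this
      have s4 : Metric.infDist x N ^ 2 < δ ^ 2 := by nlinarith [sq_pos_of_pos hδ]
      exact lt_of_pow_lt_pow_left₀ 2 hδ.le s4

theorem ExtP.near_small (h : ExtP β N r R F mF MF A κ B k0 len c c' ct ℓ ρ C Λ)
    (hf : ∀ t, Fins β (fun x v => Fs N r ρ Λ κ F x v t) mF' MF') {A' : ℝ} {g : E}
    (hD : (EscT.gdT β (Fs N r ρ Λ κ F) mF' MF' A' κ (Bs N r ρ B ℓ) k0 len c g).Ok)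
    (hU : (EscT.gdT β (Fs N r ρ Λ κ F) mF' MF' A' κ (Bs N r ρ B ℓ) k0 len c g).Us <
      √Λ / (2 * √A) * ρ) {δ : ℝ} (hδ : 0 < δ) :
    ∃ p : GP, EscT.POk (EscT.gdT β (Fs N r ρ Λ κ F) mF' MF' A' κ (Bs N r ρ B ℓ) k0 len c g) p ∧
      8 * p.ηc ≤ δ ∧
      (∀ t, EscT.Near (EscT.gdT β (Fs N r ρ Λ κ F) mF' MF' A' κ (Bs N r ρ B ℓ) k0 len c g) p t ⊆
        {x | Metric.infDist x N < δ}) ∧
      ∃ x0 ∈ (EscT.D0 (EscT.gdT β (Fs N r ρ Λ κ F) mF' MF' A' κ (Bs N r ρ B ℓ) k0 len c g)).C p,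
        x0 ∈ N := by
  obtain ⟨δ0, hδ0, htube⟩ := h.tube hf hD hU hδ
  obtain ⟨p, hp, hηc', hκ'⟩ := EscT.exists_par hD
    (show 0 < min (δ0 / 2) (δ / 8) from lt_min (half_pos hδ0) (by linarith))
  have hηc : p.ηc ≤ δ0 / 2 := hηc'.trans (min_le_left _ _)
  have hκ : p.κ ≤ δ0 / 2 := hκ'.trans (min_le_left _ _)
  have hη8 : p.ηc ≤ δ / 8 := hηc'.trans (min_le_right _ _)
  refine ⟨p, hp, by linarith, ?_, ?_⟩
  · rintro t x ⟨v, hv, hx⟩
    have hv' : v ∈ Submodule.span ℤ (Set.range β) := hv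
    show Metric.infDist x N < δ
    rcases hx with hx | hx
    · have h1 : ∃ v' ∈ (EscT.gdT β (Fs N r ρ Λ κ F) mF' MF' A' κ (Bs N r ρ B ℓ) k0 len c g).Lam,
          Metric.infDist (x + v + v') (Set.range fun σ => c σ t) < p.ηc / 2 := by
        by_contra hcon
        push Not at hcon
        exact hx hcon
      obtain ⟨v', hv1, h2⟩ := h1
      have hv1' : v' ∈ Submodule.span ℤ (Set.range β) := hv1
      have h3 := htube t (x + v + v') (Or.inl (by linarith [hp.ηc_pos]))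
      rw [h.tb.infDist_Lam hv1', h.tb.infDist_Lam hv'] at h3
      exact h3
    · have h2 : (EscT.gdT β (Fs N r ρ Λ κ F) mF' MF' A' κ (Bs N r ρ B ℓ) k0 len c g).j t (c 0 t) (x + v) +
          (EscT.gdT β (Fs N r ρ Λ κ F) mF' MF' A' κ (Bs N r ρ B ℓ) k0 len c g).j t (x + v) (c 0 t + g) ≤
          (EscT.gdT β (Fs N r ρ Λ κ F) mF' MF' A' κ (Bs N r ρ B ℓ) k0 len c g).Us + 2 * p.κ := hx.2
      have h3 := htube t (x + v) (Or.inr (by linarith))
      rw [h.tb.infDist_Lam hv'] at h3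
      exact h3
  · have h0 : c 0 0 ∈ (EscT.gdT β (Fs N r ρ Λ κ F) mF' MF' A' κ (Bs N r ρ B ℓ) k0 len c g).Rm 0 p.ηc := by
      show Metric.infDist (c 0 0) (Set.range fun σ => c σ 0) ≤ p.ηc
      rw [Metric.infDist_zero_of_mem (show c 0 0 ∈ Set.range (fun σ => c σ 0) from ⟨0, rfl⟩)]
      exact hp.ηc_pos.le
    obtain ⟨n, hn⟩ := hp.bnd 0 (c 0 0) (Or.inl h0) 0 (by norm_num)
    have hn' : ‖c 0 0 + lv (EscT.gdT β (Fs N r ρ Λ κ F) mF' MF' A' κ (Bs N r ρ B ℓ) k0 len c g).b n‖ ≤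
        p.ρ := by
      rw [Int.cast_zero, zero_smul, add_zero] at hn
      exact hn
    have hr : c 0 0 + lv (EscT.gdT β (Fs N r ρ Λ κ F) mF' MF' A' κ (Bs N r ρ B ℓ) k0 len c g).b n ∈
        Set.range fun σ => c σ 0 :=
      (hD.fr0 0).Z_J n (c 0 0) ⟨0, rfl⟩
    refine ⟨c 0 0 + lv (EscT.gdT β (Fs N r ρ Λ κ F) mF' MF' A' κ (Bs N r ρ B ℓ) k0 len c g).b n,
      ⟨?_, ?_⟩, ?_⟩
    · show Metric.infDist _ (Set.range fun σ => c σ 0) ≤ p.η1
      rw [Metric.infDist_zero_of_mem hr]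
      exact hp.η1_pos.le
    · rw [Metric.mem_closedBall, dist_zero_right]
      exact hn'
    · obtain ⟨σ, hσ⟩ := hr
      rw [← hσ]
      exact h.cp.mem σ 0

end EscMT
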